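import Mathlib

/-!
# Project AF (helper586): asymptotic freedom of SU(2) lattice Yang-Mills theory at one loop

Goal (MP_7f377f_mp, millennium page): the free energy of the box of side `L` in dimension four with the abelian
field of constant curvature `θ` on the boundary has at `θ = 0` the second derivative
`(classical) β - (11/(12 π²)) L⁴ log L + O(L⁴)` for all `β ≥ L ^ K`: the effective coupling is
`β - (11/(6 π²)) log L + O(1)`.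

Part A: one dimensional heat kernels (real analysis and finite Fourier sums).
-/

set_option autoImplicit false
set_option linter.unusedVariables false

open MeasureTheory Matrix Finset Filter Topology

namespace Pool.Agent.H586.AF

noncomputable section

/-- incidence matrix: `(d f) j = f j - f (j - 1)` (`f = 0` outside of `Fin m`) -/
def dm (n m : ℕ) : Matrix (Fin n) (Fin m) ℝ := fun j i =>
  (if (i : ℕ) = j then 1 else 0) - (if (i : ℕ) + 1 = j then 1 else 0)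

/-- sum matrix: `(N f) j = f j + f (j - 1)` -/
def nm (n m : ℕ) : Matrix (Fin n) (Fin m) ℝ := fun j i =>
  (if (i : ℕ) = j then 1 else 0) + (if (i : ℕ) + 1 = j then 1 else 0)

/-- Laplacian on the sites `1, ..., L-1`, zero at `0` and `L` -/
def lDD (L : ℕ) : Matrix (Fin (L - 1)) (Fin (L - 1)) ℝ := (dm L (L - 1))ᵀ * dm L (L - 1)

/-- Laplacian on the links `0, ..., L-1` -/
def lNN (L : ℕ) : Matrix (Fin L) (Fin L) ℝ := dm L (L - 1) * (dm L (L - 1))ᵀ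

/-- Laplacian on the sites `1, ..., L`, zero at `0`, free at `L` -/
def lDN (L : ℕ) : Matrix (Fin L) (Fin L) ℝ := (dm L L)ᵀ * dm L L

/-- the same on the links -/
def lND (L : ℕ) : Matrix (Fin L) (Fin L) ℝ := dm L L * (dm L L)ᵀ

/-- hopping matrix -/
def tm (n : ℕ) : Matrix (Fin n) (Fin n) ℝ := fun i j => if (j : ℕ) = i + 1 then 1 else 0

/-- the current matrix -/
def km (n : ℕ) : Matrix (Fin n) (Fin n) ℝ := (tm n)ᵀ - tm n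

/-- the heat kernel -/
def hk {n : ℕ} (A : Matrix (Fin n) (Fin n) ℝ) (t : ℝ) : Matrix (Fin n) (Fin n) ℝ :=
  NormedSpace.exp ((-t) • A)

/-- the heat trace -/
def cc {n : ℕ} (A : Matrix (Fin n) (Fin n) ℝ) (t : ℝ) : ℝ := (hk A t).trace

/-- two heat kernels with the square of the distance -/
def aa {n : ℕ} (A : Matrix (Fin n) (Fin n) ℝ) (t s : ℝ) : ℝ :=
  ∑ x : Fin n, ∑ y : Fin n, (((x : ℕ) : ℝ) - ((y : ℕ) : ℝ)) ^ 2 * hk A t x y * hk A s x y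

/-- two heat kernels and two currents -/
def bb {n : ℕ} (A : Matrix (Fin n) (Fin n) ℝ) (t s : ℝ) : ℝ :=
  -(km n * hk A t * km n * hk A s).trace

/-- the mixed trace -/
def nn (L : ℕ) (t s : ℝ) : ℝ :=
  (hk (lNN L) t * nm L (L - 1) * hk (lDD L) s * (nm L (L - 1))ᵀ).trace

/-- the symbol of the Laplacian -/
def ek (k : ℝ) : ℝ := 2 - 2 * Real.cos k

/-- heat kernel of `ℤ` at `0` -/
def hh (t : ℝ) : ℝ := (1 / Real.pi) * ∫ k in (0 : ℝ)..Real.pi, Real.exp (-t * ek k)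

/-- the same with the square of the current -/
def ww (t : ℝ) : ℝ :=
  (1 / Real.pi) * ∫ k in (0 : ℝ)..Real.pi, 4 * Real.sin k ^ 2 * Real.exp (-t * ek k)

/-- the same with `2 + 2 cos` -/
def gg (t : ℝ) : ℝ :=
  (1 / Real.pi) * ∫ k in (0 : ℝ)..Real.pi, (2 + 2 * Real.cos k) * Real.exp (-t * ek k)

/-- the heat kernel of `ℤ / 2L` -/
def rr (L : ℕ) (t : ℝ) (z : ℤ) : ℝ :=
  (1 / (2 * (L : ℝ))) * ∑ n ∈ Finset.range (2 * L),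
    Real.exp (-t * ek (Real.pi * n / L)) * Real.cos (Real.pi * n / L * z)

/-! ### Tasks -/

/-- **Task AF-R** (reflection formulas; finite Fourier sums, matrix exponential; 150-220 lines).

Proof. `r t z = rr L t z` is even and `2L`-periodic in `z`, `r 0 z = 1` if `2L ∣ z` and `0` otherwise (geometric sum),
and `d/dt r t z = r t (z+1) + r t (z-1) - 2 r t z` (`2 cos φ cos (φ z) = cos (φ(z+1)) + cos (φ(z-1))`). Let
`P t i j = r t (i-j) - r t (i+j+2)`, `i j : Fin (L-1)`. `P 0 = 1` (`2 ≤ i+j+2 ≤ 2L-2`) and `P' = -lDD * P`: the formula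
for `P` vanishes at `i = -1` and `i = L-1` (evenness and periodicity), so that the neighbours outside of `Fin (L-1)`
do not contribute (`lDD` has the entries `2` on and `-1` next to the diagonal). Hence the derivative of
`exp (t • lDD) * P t` is `0` (`hasDerivAt_exp_smul_const`), so `P t = exp (-t • lDD)`. For `lNN` (diagonal `1, 2, ..., 2, 1`)
take `P t i j = r t (i-j) + r t (i+j+1)`, `i j : Fin L`: its extension satisfies `P (-1) j = P 0 j` and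
`P L j = P (L-1) j`, `P 0 = 1`. -/
def S_R : Prop := ∀ (L : ℕ), 2 ≤ L → ∀ t : ℝ,
  (∀ i j : Fin (L - 1), hk (lDD L) t i j = rr L t ((i : ℤ) - j) - rr L t ((i : ℤ) + j + 2)) ∧
  ∀ i j : Fin L, hk (lNN L) t i j = rr L t ((i : ℤ) - j) + rr L t ((i : ℤ) + j + 1)

/-- **Task AF-P** (positivity, first and second moment; 100-160 lines).

Proof. (1) `(1/(2L)) ∑_n (2 cos φ_n)^m cos (φ_n z) = u_m z ≥ 0`, `φ_n = π n / L`: `u_0 z = 1` if `2L ∣ z` and `0` otherwise,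
`u_(m+1) z = u_m (z+1) + u_m (z-1)`; and `r t z = exp (-2t) ∑_m t^m/m! u_m z` (exponential series of
`exp (2 t cos φ_n)`, a finite sum of convergent series). (2) Sum over a period: only `n = 0` survives. `r ≤ 1` follows.
(3) For `|z| ≤ L`: `2 - 2 cos (π z / L) = 4 sin² (π z/(2L)) ≥ 4 z²/L²` (`Real.mul_le_sin`-type Jordan inequality), and
`∑_z r t z cos (π z / L) = exp (-t ek (π/L))` (orthogonality, `n = 1` and `n = 2L-1`), so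
`∑ z² r ≤ (L²/4) ∑ r (2 - 2 cos (π z/L)) = (L²/2)(1 - exp (-t ek (π/L))) ≤ (L²/2) t (π/L)² ≤ 5 t`. -/
def S_P : Prop := ∀ (L : ℕ), 2 ≤ L → ∀ t : ℝ, 0 ≤ t →
  (∀ z : ℤ, 0 ≤ rr L t z ∧ rr L t z ≤ 1) ∧
  ∑ z ∈ Finset.Ico (-(L : ℤ)) L, rr L t z = 1 ∧
  ∑ z ∈ Finset.Ico (-(L : ℤ)) L, (z : ℝ) ^ 2 * rr L t z ≤ 5 * t

/-- **Task AF-V** (bounds by the total variation in momentum space; 120-200 lines).

Proof. For a `2L`-periodic sequence `σ_n` and `f z = (1/(2L)) ∑_n σ_n e^{i φ_n z}` one has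
`(1 - e^{i π z/L}) f z = (1/(2L)) ∑_n (σ_n - σ_(n-1)) e^{i φ_n z}` and for `|z| ≤ L`,
`|z| ≤ (L/2) |1 - e^{iπz/L}|` (Jordan), so `|z| |f z| ≤ (1/4) ∑_(n mod 2L) |σ_n - σ_(n-1)|`. (1) `f = r t`:
`σ_n = exp (-t ek φ_n)` decreases on `0..L` from at most `1` and increases back: the variation is at most `2`.
(2) `f z = r t (z+1) - r t (z-1)`: `σ_n = 2 i sin φ_n exp (-t ek φ_n)`; `x ↦ sin x exp (-t (2 - 2 cos x))` on `[0, π]` increases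
up to a point and then decreases (its derivative is `(cos x - 2 t sin² x) exp(..)` and `cos x - 2 t (1 - cos² x)` is
increasing in `cos x` on `cos x ≥ 0` and negative for `cos x < 0`), so the variation over the period is at most
`4 max ≤ C/√(1+t)` (`sin x ≤ x`, `2 - 2 cos x ≥ 4x²/π²`, `x exp (-4 t x²/π²) ≤ C/√(1+t)` for `0 ≤ x ≤ π`). The real cosine
sums can be used instead of the complex ones. -/
def S_V : Prop := ∃ C : ℝ, ∀ (L : ℕ), 2 ≤ L → ∀ t : ℝ, 0 ≤ t → ∀ z : ℤ, |z| ≤ (L : ℤ) →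
  |(z : ℝ)| * rr L t z ≤ 1 ∧ |(z : ℝ)| * |rr L t (z + 1) - rr L t (z - 1)| ≤ C / Real.sqrt (1 + t)

/-- **Task AF-D** (the l¹ norm of the gradient of the heat kernel; 120-200 lines).

Proof. Let `f z = r t (z+1) - r t (z-1)`, `T = 1 + t`. Cauchy-Schwarz:
`(∑ |f|)² ≤ (∑_z 1/(1 + z²/T)) (∑_z (1 + z²/T) f²)`, and `∑_z 1/(1 + z²/T) ≤ C √T` (comparison with the integral). Parseval on
`ℤ / 2L`: `∑ f² = (1/(2L)) ∑_n σ_n²`, `σ_n = 2 sin φ_n exp (-t ek φ_n)`; with `|sin x| ≤ x`, `2 - 2 cos x ≥ 4x²/π²` on `[0,π]`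
(symmetry `n ↔ 2L - n`): `≤ (C/L) ∑_(n=1)^L (n/L)² exp (-c t n²/L²) ≤ C T^(-3/2)` (`u ↦ u² e^{-c t u²}` is at most
`C/T · e^{-c' t u²}`, and `(1/L) ∑ e^{-c' t (n/L)²} ≤ ∫_0^∞ .. ≤ C/√T`, for `t ≥ 1`; trivial for `t ≤ 1`). And
`z² ≤ (L²/4) |1 - e^{iπz/L}|²`, so `∑ z² f² ≤ (L²/4)(1/(2L)) ∑_n |σ_n - σ_(n-1)|²`, and
`|σ_n - σ_(n-1)| ≤ (π/L) sup |σ'|` on the interval, `|σ'(x)| ≤ 2(|cos x| + 2 t sin² x) exp (-t ek x) ≤ C exp (-c t x²)` at both sides,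
which gives `≤ C/√T` (the interval `[φ_(n-1), φ_n]`; bound by the value at the end point nearer to `0` and
compare the sum with the integral plus the first term: `(1/L)(1 + ..)`: here use that for `T > L²` the two
terms `n = 0, 1` contribute `|σ_1 - σ_0|² = σ_1² ≤ (C/L²) e^{-ct/L²}`). So `∑ (1 + z²/T) f² ≤ C T^(-3/2)` and `∑ |f| ≤ C T^(-1/2)`. -/
def S_D : Prop := ∃ C : ℝ, ∀ (L : ℕ), 2 ≤ L → ∀ t : ℝ, 0 ≤ t →
  ∑ z ∈ Finset.Ico (-(L : ℤ)) L, |rr L t (z + 1) - rr L t (z - 1)| ≤ C / Real.sqrt (1 + t)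

/-- **Task AF-C** (heat traces; 150-250 lines; uses `S_R`).

Proof. `cc (lDD L) t = ∑_(n=1)^(L-1) exp (-t ek (π n/L))`: from `S_R` the trace is `∑_i (r 0 - r (2i+2))`,
`∑_(i<L) r (2 i) = (ρ_0 + ρ_L)/2`, `ρ_n = exp (-t ek (πn/L))`, `2 L r 0 = ∑_(n<2L) ρ_n`, `ρ_(2L-n) = ρ_n`. `ρ` decreases on `0..L`,
so the sum differs from `(L/π) ∫_0^π exp (-t ek k) dk = L hh t` by at most `1`. `cc (lNN L) t = cc (lDD L) t + 1`
(`tr exp (-t d dᵀ) - L = tr exp (-t dᵀ d) - (L-1)`: compare the power series, `tr (d dᵀ)^k = tr (dᵀ d)^k`, `k ≥ 1`; or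
from `S_R` again). `cc (lND L) = cc (lDN L)` likewise. For `lDN L` use the reflection at `L + 1/2`: with `M = 2L+1`,
`hk (lDN L) t i j = P i j + P i (2L-1-j)` where `P = hk (lDD M) t` on `Fin (2L)` (same proof as in `S_R`: the right side
solves the equation, since it is symmetric about `L + 1/2`; or diagonalise: the eigenvalues of `lDN L` are
`ek (π (2m-1)/(2L+1))`, `m = 1..L`), so `cc (lDN L) t = ∑_(m=1)^L exp (-t ek (π (2m-1)/(2L+1)))` = a monotone sum with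
step `2π/(2L+1)`, within `2` of `(L + 1/2) hh t`. Decay: `ek x ≥ 4x²/π²` gives the lowest eigenvalue at least
`4/(2L+1)² ≥ 16/(25 L²)`, and for `t ≥ L²` the sum of `exp (-(16/25)(2m-1)² t/L²)` is at most `C exp (-t/(2L²))`. -/
def S_C : Prop := ∃ C : ℝ, 1 ≤ C ∧ ∀ (L : ℕ), 2 ≤ L → ∀ t : ℝ, 0 ≤ t →
  (0 ≤ cc (lDD L) t ∧ |cc (lDD L) t - L * hh t| ≤ C) ∧
  (0 ≤ cc (lNN L) t ∧ |cc (lNN L) t - L * hh t| ≤ C) ∧
  (0 ≤ cc (lDN L) t ∧ |cc (lDN L) t - L * hh t| ≤ C) ∧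
  (0 ≤ cc (lND L) t ∧ |cc (lND L) t - L * hh t| ≤ C) ∧
  ((L : ℝ) ^ 2 ≤ t → cc (lDD L) t ≤ C ∧ cc (lNN L) t ≤ C ∧
    cc (lDN L) t ≤ C * Real.exp (-(t / (2 * (L : ℝ) ^ 2))) ∧
    cc (lND L) t ≤ C * Real.exp (-(t / (2 * (L : ℝ) ^ 2))))

/-- **Task AF-A** (the function `aa`; 200-280 lines; uses `S_R`, `S_P`, `S_V`).

Proof. Let `r = rr L`, `v = i - j`, `u = i + j + 2` (DD) or `i + j + 1` (NN), and let `|u|' = min u (2L - u)`; `|v| ≤ |u|'`, `|v| ≤ L`. By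
`S_R` `hk t i j = r t v ∓ r t u`, so the summand is `v² r t v r s v` plus three terms with `u`, bounded with
`(i,j) ↦ (u,v)` injective: `∑ v² r t v r s u ≤ (∑_v v² r t v)(∑_u r s u) ≤ 5t` and, as `v² ≤ |u|'²`,
`≤ (∑_v r t v)(∑_u |u|'² r s u) ≤ 5 s`, so `≤ 5 √(t s)` (use `min t s ≤ √(ts)`; each `u` counted over one period);
`∑ v² r t u r s u ≤ ∑_u |u|' · |u|'² r t u r s u · 2 ≤ 2 · 5 · min (t, s)` by `|z| r z ≤ 1` (`S_V`) and `S_P`. The main term is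
`∑_v (n - |v|) v² r t v r s v`, `n = L - 1` or `L`; the part with `|v| + 1` is `≤ ∑ (1+|v|) v² r r ≤ 10 min (t,s)`. So up to
`C √(ts)` it is `L ∑_(v mod 2L) v² r t v r s v` (`v ∈ Ico (-L) L`; the term `v = -L` is `L³ r r ≤ 5 min` as well). Replace `v²`
by `γ v = (L²/π²)(2 - 2 cos (π v/L))`: `|v² - γ v| ≤ v⁴/L² ≤ |v|³/L`, error `≤ ∑ |v|³ r r ≤ 5 min`. Parseval on `ℤ/2L`:
`L ∑_v γ v r t v r s v = (L²/(2π²)) ∑_(n mod 2L) (ρ_n(t) - ρ_(n+1)(t)) (ρ_n(s) - ρ_(n+1)(s))`, `ρ_n(t) = exp (-t ek (πn/L))`. With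
`δ = π/L` and `F_t(k) = d/dk exp (-t ek k) = -2 t sin k exp (-t ek k)` each factor is `-∫_cell F`, and
`|∫_c F G - (1/δ) ∫_c F ∫_c G| ≤ osc_c(F) δ sup|G|`; the total variation of `F_t` is at most `C √t` and `sup |F_s| ≤ C √s`. So the
sum is `(L²/(2π²)) δ ∫_0^(2π) F_t F_s dk + O(L² δ² √(ts)) = L t s ww (t+s) + O(√(ts))`
(`F_t F_s = 4 t s sin² k exp (-(t+s) ek k)`, `∫_0^(2π) = 2 ∫_0^π`). -/
def S_A : Prop := ∃ C : ℝ, 1 ≤ C ∧ ∀ (L : ℕ), 2 ≤ L → ∀ t s : ℝ, 0 ≤ t → 0 ≤ s →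
  |aa (lDD L) t s - L * (t * s * ww (t + s))| ≤ C * Real.sqrt (t * s) ∧
  |aa (lNN L) t s - L * (t * s * ww (t + s))| ≤ C * Real.sqrt (t * s) ∧
  (0 ≤ aa (lDD L) t s ∧ aa (lDD L) t s ≤ (L : ℝ) ^ 2 * cc (lDD L) (t + s)) ∧
  (0 ≤ aa (lNN L) t s ∧ aa (lNN L) t s ≤ (L : ℝ) ^ 2 * cc (lNN L) (t + s))

/-- **Task AF-B** (the function `bb`; 200-280 lines; uses `S_R`, `S_P`, `S_V`, `S_D`).

Proof. DD: let `p t i j = r t (i-j) - r t (i+j+2)` for all integers; it vanishes for `i = -1`, `i = L-1`, so with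
`km = tmᵀ - tm`: `(km p_t) i j = p t (i-1) j - p t (i+1) j = -(∂r t v - ∂r t u)`, `∂r z = r (z+1) - r (z-1)`, `v = i-j`, `u = i+j+2`
(`∂r` is odd). Hence `bb t s = ∑_(i,j) (∂r t v - ∂r t u)(∂r s v + ∂r s u)`. The mixed terms are at most
`(∑_v |∂r t|)(∑_u |∂r s|) ≤ C/√((1+t)(1+s))` (`S_D`), the term with `u` twice is at most
`∑_u |u|' |∂r t u| |∂r s u| ≤ C/√(1+t) · C/√(1+s)` (`S_V`, `S_D`; `|u|' = min u (2L-u)` bounds the number of pairs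
with `i+j+2 = u`), and the main term is `∑_v (L-1-|v|) ∂r t v ∂r s v = L ∑_(v mod 2L) ∂r t v ∂r s v + O(same)`, and by
Parseval `L ∑ ∂r t ∂r s = (1/2) ∑_(n mod 2L) 4 sin² φ_n exp (-(t+s) ek φ_n)`, `φ_n = πn/L`, which differs from
`(L/π) ∫_0^π 4 sin² k exp (-(t+s) ek k) = L ww (t+s)` by at most the total variation of `4 sin² k exp (-τ ek k)`,
`≤ C/(1+τ) ≤ C/√((1+t)(1+s))`.
NN: `p t i j = r t (i-j) + r t (i+j+1)`, `p t (-1) j = p t 0 j`, `p t L j = p t (L-1) j`. Then `(km p_t) i j = (K p_t) i j - [i = 0] p t 0 j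
+ [i = L-1] p t (L-1) j` with `(K p) i j = p (i-1) j - p (i+1) j = -(∂r v + ∂r u)`, `u = i+j+1`. The part with `K` twice is as
before. The corrections are (`e` one of the two ends) `∑_j p t e j (K p_s) j e`, the same with `t, s` exchanged, and
`p t e e' p s e' e`. As `0 ≤ p t ≤ 2 r t 0 ≤ C (1/√(1+t) + 1/L)` (`r t 0 = (1/(2L)) ∑ ρ_n`) and `∑_j |(K p_s) j e| ≤ C/√(1+s)` (`S_D`)
all are at most `C (1/√(1+t) + 1/L) (1/√(1+s) + 1/L)`. -/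
def S_B : Prop := ∃ C : ℝ, 1 ≤ C ∧ ∀ (L : ℕ), 2 ≤ L → ∀ t s : ℝ, 0 ≤ t → 0 ≤ s →
  |bb (lDD L) t s - L * ww (t + s)| ≤
    C * (1 / Real.sqrt (1 + t) + 1 / L) * (1 / Real.sqrt (1 + s) + 1 / L) ∧
  |bb (lNN L) t s - L * ww (t + s)| ≤
    C * (1 / Real.sqrt (1 + t) + 1 / L) * (1 / Real.sqrt (1 + s) + 1 / L)

/-- **Task AF-N** (the function `nn`; 120-180 lines; uses `S_R`, `S_P`, `S_V`).

Proof. With `S_R` (`p = hk (lDD L) s`, zero at the sites `0`, `L`): `(nm p nmᵀ) j j' = Sr v - Sr y`, `v = j - j'`, `y = j+j'+1`,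
`Sr z = r s (z+1) + 2 r s z + r s (z-1)`, so `nn L t s = ∑_(j,j' < L) (r t v + r t y)(Sr v - Sr y)`. The terms with `y`: each is at
most `(∑ r)(∑ Sr) ≤ 4` (for `v, y` mixed: `(j,j') ↦ (v,y)` is injective) or `∑_y |y|' r t y Sr y ≤ 4` (`|z| r z ≤ 1`,
`|y|' = min y (2L - y)` bounds the number of pairs). Main term `∑_v (L-|v|) r t v Sr v = L ∑_(v mod 2L) r t Sr + O(4)` and by
Parseval `L ∑ r t Sr = (1/2) ∑_(n mod 2L) (2 + 2 cos φ_n) exp (-(t+s) ek φ_n)`, a decreasing function of `φ` on `[0,π]`, so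
within `4` of `(L/π) ∫_0^π = L gg (t+s)`. -/
def S_N : Prop := ∃ C : ℝ, 1 ≤ C ∧ ∀ (L : ℕ), 2 ≤ L → ∀ t s : ℝ, 0 ≤ t → 0 ≤ s →
  |nn L t s - L * gg (t + s)| ≤ C

/-- **Task AF-H** (Laplace asymptotics of three integrals; 100-160 lines).

Proof. Substitute `k = x/√t`: `ek k = k² + O(k⁴)`, `ek k ≥ 4k²/π²` on `[0,π]`;
`|exp (-t ek k) - exp (-t k²)| ≤ t k⁴ exp (-(4/π²) t k²)` (`0 ≤ k² - ek k ≤ k⁴/12`), so
`π hh t = ∫_0^π exp (-t k²) + O(t ∫ k⁴ e^{-c t k²}) = (1/2) √(π/t) + O(t^(-3/2))` (`integral_gaussian_Ioi`; the tail beyond `π` is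
`O(e^{-t})`). `4 sin² k = 4 k² + O(k⁴)`: `π ww t = 4 ∫ k² e^{-t k²} + O(t^(-5/2)) = √π t^(-3/2) + ..`; `2 + 2 cos k = 4 + O(k²)`. -/
def S_H : Prop := ∃ C : ℝ, 1 ≤ C ∧ (∀ t : ℝ, 1 ≤ t →
    |hh t - 1 / Real.sqrt (4 * Real.pi * t)| ≤ C / t ^ (3 / 2 : ℝ) ∧
    |ww t - 1 / (Real.sqrt Real.pi * t ^ (3 / 2 : ℝ))| ≤ C / t ^ (5 / 2 : ℝ) ∧
    |gg t - 4 / Real.sqrt (4 * Real.pi * t)| ≤ C / t ^ (3 / 2 : ℝ)) ∧
  (∀ t : ℝ, 0 ≤ t → 0 ≤ hh t ∧ hh t ≤ C / Real.sqrt (1 + t) ∧ 0 ≤ ww t ∧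
    ww t ≤ C / (1 + t) ^ (3 / 2 : ℝ) ∧ 0 ≤ gg t ∧ gg t ≤ C / Real.sqrt (1 + t)) ∧
  Continuous hh ∧ Continuous ww ∧ Continuous gg

/-- the bounds for the heat traces of the last two directions -/
structure Tr2 (C : ℝ) (L : ℕ) (c d : ℝ → ℝ) : Prop where
  cc : Continuous c
  cd : Continuous d
  hc : ∀ t, 0 ≤ t → |c t - L * hh t| ≤ C
  hd : ∀ t, 0 ≤ t → |d t - L * hh t| ≤ C
  lc : ∀ t, (L : ℝ) ^ 2 ≤ t → |c t| ≤ C
  ld : ∀ t, (L : ℝ) ^ 2 ≤ t → |d t| ≤ C * Real.exp (-(t / (2 * (L : ℝ) ^ 2)))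

/-- **Task AF-I** (the logarithm, magnetic part; real analysis; 200-280 lines; uses `S_H`).

Proof. Put `τ = t + s`. All integrands are continuous; region `τ ≤ L²`: `|a| ≤ C L √(ts)/√(1+τ)` (from `ww ≤ C/(1+τ)^(3/2)`,
`√(ts) ≤ τ/2`, and `√(ts) ≤ L √(ts)/√τ`), `|b| ≤ L ww τ + C B`, `B = (1/√(1+t) + 1/L)(1/√(1+s) + 1/L)`, `|c|, |d| ≤ C L/√(1+τ)`.
Replacing `b` by `L ww τ` costs `∫_(τ ≤ L²) C L √(ts)/√(1+τ) · B · L²/(1+τ)`; `∫_(t+s=τ) √(ts) B ≤ C τ` (expand `B`; `τ ≤ L²`), so at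
most `C L³ ∫_0^(L²) τ (1+τ)^(-3/2) dτ ≤ C L⁴`. Replacing then `a` by `L t s ww τ` costs `C √(ts) · L (1+τ)^(-3/2) · L²/(1+τ)`,
`∫_(t+s=τ) √(ts) ≤ τ²`, in total `C L³ ∫ τ² (1+τ)^(-5/2) ≤ C L⁴`; replacing `c`, `d` by `L hh τ` costs
`∫ t s L ww · L ww · C L/√(1+τ)`, `∫_(t+s=τ) ts = τ³/6`: `≤ C L³ ∫ τ³ (1+τ)^(-7/2) ≤ C L⁴`. The main term is
`(1/2) L⁴ ∫_0^(L²) (τ³/6) ww² hh² dτ`; for `τ ≥ 1` the integrand is `(1/6)(1/π)(1/(4π)) /τ + O(τ^(-2))` (`S_H`), so it is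
`(1/2) L⁴ (1/(24π²)) (2 log L + O(1))`. Region `τ ≥ L²`: `|a| ≤ C L²`, `|b| ≤ C (L (1+τ)^(-3/2) + B)`,
`∫_(t+s=τ) |b| ≤ C (1 + √τ/L + τ/L²)`, `|c d| ≤ C exp (-τ/(2L²))`: at most `C L² ∫_(L²)^∞ (1 + τ/L²) exp (-τ/(2L²)) ≤ C L⁴`.
(Integrate over `t + s = τ`: change of variables `(t, s) ↦ (t, t+s)`; the exponential bound gives integrability.) -/
def S_I : Prop := ∀ C0 : ℝ, 1 ≤ C0 → ∃ C : ℝ, ∀ L : ℕ, 2 ≤ L → ∀ (a b : ℝ → ℝ → ℝ) (c d : ℝ → ℝ),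
  Continuous (Function.uncurry a) → Continuous (Function.uncurry b) → Tr2 C0 L c d →
  (∀ t s, 0 ≤ t → 0 ≤ s → |a t s - L * (t * s * ww (t + s))| ≤ C0 * Real.sqrt (t * s)) →
  (∀ t s, 0 ≤ t → 0 ≤ s → (L : ℝ) ^ 2 ≤ t + s → |a t s| ≤ C0 * (L : ℝ) ^ 2) →
  (∀ t s, 0 ≤ t → 0 ≤ s → |b t s - L * ww (t + s)| ≤
    C0 * (1 / Real.sqrt (1 + t) + 1 / L) * (1 / Real.sqrt (1 + s) + 1 / L)) →
  |(1 / 2) * (∫ t in Set.Ioi (0 : ℝ), ∫ s in Set.Ioi (0 : ℝ),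
    a t s * b t s * c (t + s) * d (t + s)) - 1 / (24 * Real.pi ^ 2) * ((L : ℝ) ^ 4 * Real.log L)| ≤
    C * (L : ℝ) ^ 4

/-- **Task AF-J** (the logarithm, spin part; real analysis; 120-180 lines; uses `S_H`).

Proof. As `AF-I`, `τ = t + s`: for `τ ≤ L²` all four factors are `≤ C L/√(1+τ)` and replacing one of them by `L gg τ` or `L hh τ` costs
`∫ τ C L³ (1+τ)^(-3/2) dτ ≤ C L⁴`; the main term is `L⁴ ∫_0^(L²) τ gg² hh² dτ` with the integrand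
`τ · 16/(4πτ) · 1/(4πτ) + O(τ^(-2)) = (1/π²)/τ + O(τ^(-2))` for `τ ≥ 1`: `L⁴ (1/π²) (2 log L + O(1))`. For `τ ≥ L²`:
`|n| ≤ L gg + C ≤ C`, `|c d| ≤ C exp (-τ/(2L²))`, `∫_(L²)^∞ τ exp (-τ/(2L²)) ≤ C L⁴`. -/
def S_J : Prop := ∀ C0 : ℝ, 1 ≤ C0 → ∃ C : ℝ, ∀ L : ℕ, 2 ≤ L → ∀ (n1 n2 : ℝ → ℝ → ℝ) (c d : ℝ → ℝ),
  Continuous (Function.uncurry n1) → Continuous (Function.uncurry n2) → Tr2 C0 L c d →
  (∀ t s, 0 ≤ t → 0 ≤ s → |n1 t s - L * gg (t + s)| ≤ C0) →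
  (∀ t s, 0 ≤ t → 0 ≤ s → |n2 t s - L * gg (t + s)| ≤ C0) →
  |(∫ t in Set.Ioi (0 : ℝ), ∫ s in Set.Ioi (0 : ℝ),
    n1 t s * n2 t s * c (t + s) * d (t + s)) - 2 / Real.pi ^ 2 * ((L : ℝ) ^ 4 * Real.log L)| ≤
    C * (L : ℝ) ^ 4

/-- **Task AF-K** (no logarithm in the Green function at coinciding points; 60-100 lines; uses `S_H`).

Proof. `|c|, |d| ≤ C L/√(1+t)` for `t ≤ L²`: `∫_0^(L²) C L⁴/(1+t)² ≤ C L⁴`; for `t ≥ L²`: `C ∫ exp (-t/(2L²)) ≤ C L²`. -/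
def S_K : Prop := ∀ C0 : ℝ, 1 ≤ C0 → ∃ C : ℝ, ∀ L : ℕ, 2 ≤ L → ∀ (c1 c2 c d : ℝ → ℝ),
  Tr2 C0 L c1 d → Tr2 C0 L c2 d → Tr2 C0 L c d →
  |∫ t in Set.Ioi (0 : ℝ), c1 t * c2 t * c t * d t| ≤ C * (L : ℝ) ^ 4

end

end Pool.Agent.H586.AF
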