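import Pool.Agent.H586.AF.A

/-!
# Project AF, part B: the determinants (finite linear algebra)

Index types: sites `S = Fin (L-1)` (the site `i+1`), links `E = Fin L` (from `j` to `j+1`), heights `Fin L`
(the height `s+1`). The charged one-forms have four components on `E×S×S×T`, `S×E×S×T`, `S×S×E×T`, `S×S×S×T`, the functions
are on `S×S×S×T`. The background has the constant curvature `θ` in the plane of the directions 1, 2.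
-/

set_option autoImplicit false
set_option linter.unusedVariables false

open MeasureTheory Matrix Finset Filter Topology

namespace Pool.Agent.H586.AF

noncomputable section

section k4
variable {R : Type} [CommRing R] {a b c d a' b' c' d' : Type}

/-- the product over the four directions -/
def k4 (A : Matrix a a' R) (B : Matrix b b' R) (C : Matrix c c' R) (D : Matrix d d' R) :
    Matrix (a × b × c × d) (a' × b' × c' × d') R := fun x y =>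
  A x.1 y.1 * B x.2.1 y.2.1 * C x.2.2.1 y.2.2.1 * D x.2.2.2 y.2.2.2

end k4

/-- the sum over the four directions -/
def ks {n1 n2 n3 n4 : ℕ} (A1 : Matrix (Fin n1) (Fin n1) ℝ) (A2 : Matrix (Fin n2) (Fin n2) ℝ)
    (A3 : Matrix (Fin n3) (Fin n3) ℝ) (A4 : Matrix (Fin n4) (Fin n4) ℝ) :
    Matrix (Fin n1 × Fin n2 × Fin n3 × Fin n4) (Fin n1 × Fin n2 × Fin n3 × Fin n4) ℝ :=
  k4 A1 1 1 1 + k4 1 A2 1 1 + k4 1 1 A3 1 + k4 1 1 1 A4

/-- complex matrices from real ones -/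
abbrev cx {m n : Type} (A : Matrix m n ℝ) : Matrix m n ℂ := A.map (fun r => (r : ℂ))

/-- the phases `exp (i s θ x)` in the direction 1; `x` is the position -/
def phs {n : ℕ} (θ s x0 : ℝ) : Matrix (Fin n) (Fin n) ℂ :=
  Matrix.diagonal fun i => Complex.exp (Complex.I * (θ * s * (((i : ℕ) : ℝ) + x0) : ℝ))

/-- the covariant Laplacian: the hopping in the direction 2 has the phase `exp (i θ x)`, `x = i + x0` the position in the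
direction 1 -/
def covL {n1 n2 n3 n4 : ℕ} (x0 : ℝ) (A1 : Matrix (Fin n1) (Fin n1) ℝ) (A2 : Matrix (Fin n2) (Fin n2) ℝ)
    (A3 : Matrix (Fin n3) (Fin n3) ℝ) (A4 : Matrix (Fin n4) (Fin n4) ℝ) (θ : ℝ) :
    Matrix (Fin n1 × Fin n2 × Fin n3 × Fin n4) (Fin n1 × Fin n2 × Fin n3 × Fin n4) ℂ :=
  k4 (cx A1) 1 1 1 + k4 1 (Matrix.diagonal fun i => ((A2 i i : ℝ) : ℂ)) 1 1
    - k4 (phs θ 1 x0) (cx (tm n2)) 1 1 - k4 (phs θ (-1) x0) (cx (tm n2)ᵀ) 1 1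
    + k4 1 1 (cx A3) 1 + k4 1 1 1 (cx A4)

/-- `(log det)''` at `0` of a family of matrices -/
def ld {n : Type} [Fintype n] [DecidableEq n] (A : ℝ → Matrix n n ℂ) : ℂ :=
  ((A 0)⁻¹ * Matrix.of fun i j => deriv (deriv fun θ => A θ i j) 0).trace -
    ((A 0)⁻¹ * (Matrix.of fun i j => deriv (fun θ => A θ i j) 0) * (A 0)⁻¹ *
      Matrix.of fun i j => deriv (fun θ => A θ i j) 0).trace

/-- the integral of the magnetic part -/
def RI {n1 n2 n3 n4 : ℕ} (A1 : Matrix (Fin n1) (Fin n1) ℝ) (A2 : Matrix (Fin n2) (Fin n2) ℝ)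
    (A3 : Matrix (Fin n3) (Fin n3) ℝ) (A4 : Matrix (Fin n4) (Fin n4) ℝ) : ℝ :=
  (1 / 2) * ∫ t in Set.Ioi (0 : ℝ), ∫ s in Set.Ioi (0 : ℝ),
    aa A1 t s * bb A2 t s * cc A3 (t + s) * cc A4 (t + s)

/-- the integral of the spin part -/
def BU (L : ℕ) : ℝ := ∫ t in Set.Ioi (0 : ℝ), ∫ s in Set.Ioi (0 : ℝ),
    nn L t s * nn L s t * cc (lDD L) (t + s) * cc (lDN L) (t + s)

/-! ### Tasks -/

/-- **Task AF-PD** (positivity of the one dimensional matrices; 60-120 lines).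

Proof. `dᵀ d` and `d dᵀ` are positive semidefinite (`Matrix.posSemidef_conjTranspose_mul_self`); `dm L L` is triangular with
ones on the diagonal (`det = 1`, `Matrix.det_of_lowerTriangular`), so `lDN`, `lND` are positive definite. The form of
`lDD`, `lNN`: off the diagonal `-tm - tmᵀ` (direct computation: `(dᵀd) i i' = ∑_j d j i d j i'`). Sum: `k4` of positive
semidefinite matrices with identities is positive semidefinite: `x^* (k4 A 1 1 1) x = ∑_(b,c,d) x(.,b,c,d)^* A x(.,b,c,d)`. -/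
def S_PD : Prop := ∀ L : ℕ, 2 ≤ L →
  (lDD L).PosSemidef ∧ (lNN L).PosSemidef ∧ (lDN L).PosDef ∧ (lND L).PosDef ∧ (dm L L).det = 1 ∧
  (lDD L = (Matrix.diagonal fun i => lDD L i i) - tm (L - 1) - (tm (L - 1))ᵀ) ∧
  (lNN L = (Matrix.diagonal fun i => lNN L i i) - tm L - (tm L)ᵀ) ∧
  ∀ {n1 n2 n3 n4 : ℕ} (A1 : Matrix (Fin n1) (Fin n1) ℝ) (A2 : Matrix (Fin n2) (Fin n2) ℝ)
    (A3 : Matrix (Fin n3) (Fin n3) ℝ) (A4 : Matrix (Fin n4) (Fin n4) ℝ), A1.PosSemidef → A2.PosSemidef →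
    A3.PosSemidef → A4.PosDef → (ks A1 A2 A3 A4).PosDef

/-- **Task AF-T** (heat kernel formulas for the traces; 200-280 lines).

Proof. Let `M = ks A1 A2 A3 A4`, `G = M⁻¹`. By the spectral theorem `A_i = U_i diag(λ_i) U_iᵀ` (`Matrix.IsHermitian.spectral_theorem`)
all is a finite sum: `G = k4 U1 U2 U3 U4 diag(1/(λ1+λ2+λ3+λ4)) (..)ᵀ` and
`1/((Λ)(Λ')) = ∫∫ e^(-tΛ - sΛ')`, `Λ, Λ' > 0`; `exp (-t A_i) = U_i diag(e^(-tλ_i)) U_iᵀ`. (Alternatively: `t ↦ exp (-tM) = k4` of the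
`exp (-t A_i)`, `∫_0^∞ exp (-tM) = G`.) So for matrices `P_i`, `Q_i` of the directions
`tr (G (k4 P1 P2 1 1) G (k4 Q1 Q2 1 1)) = ∫∫ tr(e^{-tA1} P1 e^{-sA1} Q1) tr(e^{-tA2} P2 e^{-sA2} Q2) cc A3 (t+s) cc A4 (t+s)` (*). This
gives (3), and (1) with one factor. (2): let `X = diag (i + x0)` and `A = k4 X 1 1 1`, `B = k4 1 (diag i) 1 1`, `K = k4 1 km 1 1`,
`L' = k4 1 (tm + tmᵀ) 1 1`. Since `[diag i, tm] = -tm`, `[diag i, tmᵀ] = tmᵀ`: `[B, M] = -K` with `A2 = diag - tm - tmᵀ`, and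
`L' = [B, K]`; `A` commutes with `B`, `K`. From `[B, G] = -G [B, M] G = G K G`:
`tr (G A² L') = tr (G A² B K) - tr (G A² K B) = tr ([G, B] A² K) = -tr (G K G A² K)`. So the left side of (2) is
`-tr (G K G A² K) + tr (G A K G A K) = -tr (K G K (G A² - A G A)) = -(1/2) tr (K G K (G A² + A² G - 2 A G A))`
(transpose: `Kᵀ = -K`), and `(G A² + A² G - 2 A G A) x y = (A_x - A_y)² G x y`. Writing both `G` as integrals,
`= -(1/2) ∫∫ (∑ (x-y)² (e^{-tA1})_xy (e^{-sA1})_xy) tr(km e^{-tA2} km e^{-sA2}) cc A3 cc A4 = (1/2) ∫∫ aa bb cc cc`. -/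
def S_T : Prop := ∀ {n1 n2 n3 n4 : ℕ} (A1 : Matrix (Fin n1) (Fin n1) ℝ) (A2 : Matrix (Fin n2) (Fin n2) ℝ)
    (A3 : Matrix (Fin n3) (Fin n3) ℝ) (A4 : Matrix (Fin n4) (Fin n4) ℝ), A1.PosSemidef → A2.PosSemidef →
    A3.PosSemidef → A4.PosDef →
  (((ks A1 A2 A3 A4)⁻¹).trace = ∫ t in Set.Ioi (0 : ℝ), cc A1 t * cc A2 t * cc A3 t * cc A4 t) ∧
  (A2 = (Matrix.diagonal fun i => A2 i i) - tm n2 - (tm n2)ᵀ → ∀ x0 : ℝ,
    ((ks A1 A2 A3 A4)⁻¹ * k4 (Matrix.diagonal fun i : Fin n1 => (((i : ℕ) : ℝ) + x0) ^ 2)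
        (tm n2 + (tm n2)ᵀ) 1 1).trace +
      ((ks A1 A2 A3 A4)⁻¹ * k4 (Matrix.diagonal fun i : Fin n1 => ((i : ℕ) : ℝ) + x0) (km n2) 1 1 *
        (ks A1 A2 A3 A4)⁻¹ * k4 (Matrix.diagonal fun i : Fin n1 => ((i : ℕ) : ℝ) + x0) (km n2) 1 1).trace =
      RI A1 A2 A3 A4) ∧
  (∀ {m1 m2 : ℕ} (B1 : Matrix (Fin m1) (Fin m1) ℝ) (B2 : Matrix (Fin m2) (Fin m2) ℝ)
    (N1 : Matrix (Fin n1) (Fin m1) ℝ) (N2 : Matrix (Fin n2) (Fin m2) ℝ), B1.PosSemidef → B2.PosSemidef →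
    ((ks A1 A2 A3 A4)⁻¹ * k4 N1 N2 (1 : Matrix (Fin n3) (Fin n3) ℝ) (1 : Matrix (Fin n4) (Fin n4) ℝ) *
      (ks B1 B2 A3 A4)⁻¹ *
      (k4 N1 N2 (1 : Matrix (Fin n3) (Fin n3) ℝ) (1 : Matrix (Fin n4) (Fin n4) ℝ))ᵀ).trace =
      ∫ t in Set.Ioi (0 : ℝ), ∫ s in Set.Ioi (0 : ℝ),
        (hk A1 t * N1 * hk B1 s * N1ᵀ).trace * (hk A2 t * N2 * hk B2 s * N2ᵀ).trace *
          cc A3 (t + s) * cc A4 (t + s))

/-- **Task AF-CT** (continuity; 30-60 lines): `t ↦ exp (-t A)` is continuous, the rest are finite sums and products. -/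
def S_CT : Prop := ∀ {n : ℕ} (A : Matrix (Fin n) (Fin n) ℝ), Continuous (cc A) ∧
  Continuous (Function.uncurry (aa A)) ∧ Continuous (Function.uncurry (bb A)) ∧
  ∀ L : ℕ, Continuous (Function.uncurry (nn L))

/-- **Task AF-LA** (gauge fixing of determinants; pure linear algebra; 80-150 lines).

Proof. `H = M - D Dᴴ`, `D = fromRows V U`, is Hermitian and `H D = M D - D Dᴴ D = 0`, so `Dᴴ H = 0`. Let
`J = fromBlocks 1 V 0 U` (columns: the first block and `D`), `det J = det U`. `Jᴴ M J = fromBlocks (H₁₁ + V Vᴴ) (V Δ) (Δ Vᴴ) (Δ Δ)` with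
`Δ = Dᴴ D = Vᴴ V + Uᴴ U`, since `M = H + D Dᴴ`, `Dᴴ M D = Δ²`, and the upper right block is `(M D)₁ = (D Δ)₁ = V Δ`. `Δ` is invertible (`Uᴴ U` is
positive definite). Schur complement (`Matrix.det_fromBlocks₂₂`):
`det (Jᴴ M J) = det (Δ²) det (H₁₁ + V Vᴴ - V Δ (Δ²)⁻¹ Δ Vᴴ) = det(Δ)² det H₁₁`. -/
def S_LA : Prop := ∀ {m n : Type} [Fintype m] [DecidableEq m] [Fintype n] [DecidableEq n]
  (M : Matrix (m ⊕ n) (m ⊕ n) ℂ) (V : Matrix m n ℂ) (U : Matrix n n ℂ), M.IsHermitian → U.det ≠ 0 →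
  M * Matrix.fromRows V U = Matrix.fromRows V U * (Vᴴ * V + Uᴴ * U) →
  M.det * (U.det * star U.det) = (Vᴴ * V + Uᴴ * U).det ^ 2 * (M.toBlocks₁₁ - V * Vᴴ).det

/-- **Task AF-LD** (second derivative of log det; 80-150 lines).

Proof. Jacobi: for a differentiable family `deriv (det A) = det A * tr (A⁻¹ A')` where `det A ≠ 0` (Mathlib:
`Matrix.derivative_det_one_add_X_smul`, or expand the determinant: `d/dθ det A = ∑ cofactor * A'`, `adjugate`; e.g.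
`hasDerivAt_det` by the Leibniz formula and `Matrix.adjugate`); `(A⁻¹)' = -A⁻¹ A' A⁻¹`. So near `0`
`g_A = tr (A⁻¹ A')` has the derivative `ld A` at `0`. Logarithmic derivative of the identity of the determinants:
`g_M = 2 g_D + g_H` near `0`. -/
def S_LD : Prop := ∀ {m n p : Type} [Fintype m] [DecidableEq m] [Fintype n] [DecidableEq n]
  [Fintype p] [DecidableEq p] (M : ℝ → Matrix m m ℂ) (D : ℝ → Matrix n n ℂ) (H : ℝ → Matrix p p ℂ) (c : ℂ),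
  (∀ i j, ContDiff ℝ 2 fun θ => M θ i j) → (∀ i j, ContDiff ℝ 2 fun θ => D θ i j) →
  (∀ i j, ContDiff ℝ 2 fun θ => H θ i j) → c ≠ 0 → (M 0).det ≠ 0 →
  (∀ θ, (M θ).det * c = (D θ).det ^ 2 * (H θ).det) → ld M = 2 * ld D + ld H

/-- **Task AF-LC** (the magnetic part; 80-140 lines; uses `S_T`).

Proof. `covL .. 0 = cx (ks A1 A2 A3 A4)` (as `A2 = diag - tm - tmᵀ`); the derivatives at `0` of `exp (± i θ x)` are `± i x` and
`- x²`: the first derivative matrix is `-i k4 X (tm) + i k4 X tmᵀ = i k4 X km`, the second one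
`k4 X² (tm + tmᵀ)`. So `ld = tr (G k4 X² (tm + tmᵀ)) - tr (G (i k4 X km) G (i k4 X km)) = RI` (part (2) of `S_T`; the inverse of `cx A` is
`cx A⁻¹`, traces commute with `cx`). -/
def S_LC : Prop := ∀ {n1 n2 n3 n4 : ℕ} (A1 : Matrix (Fin n1) (Fin n1) ℝ)
    (A2 : Matrix (Fin n2) (Fin n2) ℝ) (A3 : Matrix (Fin n3) (Fin n3) ℝ) (A4 : Matrix (Fin n4) (Fin n4) ℝ),
    A1.PosSemidef → A2.PosSemidef → A3.PosSemidef → A4.PosDef →
    A2 = (Matrix.diagonal fun i => A2 i i) - tm n2 - (tm n2)ᵀ → ∀ x0 : ℝ,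
    ld (covL x0 A1 A2 A3 A4) = ((RI A1 A2 A3 A4 : ℝ) : ℂ)

/-! ### The charged fields -/

/-- functions -/
abbrev I0 (L : ℕ) := Fin (L - 1) × Fin (L - 1) × Fin (L - 1) × Fin L
/-- component 1 -/
abbrev I1 (L : ℕ) := Fin L × Fin (L - 1) × Fin (L - 1) × Fin L
/-- component 2 -/
abbrev I2 (L : ℕ) := Fin (L - 1) × Fin L × Fin (L - 1) × Fin L
/-- component 3 -/
abbrev I3 (L : ℕ) := Fin (L - 1) × Fin (L - 1) × Fin L × Fin L
/-- the horizontal components -/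
abbrev IH (L : ℕ) := I1 L ⊕ I2 L ⊕ I3 L

/-- `[i = j]` -/
def e0 (n m : ℕ) : Matrix (Fin n) (Fin m) ℂ := fun j i => if (i : ℕ) = j then 1 else 0
/-- `[i + 1 = j]` -/
def e1 (n m : ℕ) : Matrix (Fin n) (Fin m) ℂ := fun j i => if (i : ℕ) + 1 = j then 1 else 0

/-- covariant gradient, direction 1 -/
def g1 (L : ℕ) : Matrix (I1 L) (I0 L) ℂ := k4 (cx (dm L (L - 1))) 1 1 1
/-- covariant gradient, direction 2 (in the frame of the middle points of the links) -/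
def g2 (L : ℕ) (θ : ℝ) : Matrix (I2 L) (I0 L) ℂ :=
  k4 (phs θ (1 / 2) 1) (e0 L (L - 1)) 1 1 - k4 (phs θ (-(1 / 2)) 1) (e1 L (L - 1)) 1 1
/-- covariant gradient, direction 3 -/
def g3 (L : ℕ) : Matrix (I3 L) (I0 L) ℂ := k4 1 1 (cx (dm L (L - 1))) 1
/-- covariant gradient, direction 4 -/
def g4 (L : ℕ) : Matrix (I0 L) (I0 L) ℂ := k4 1 1 1 (cx (dm L L))

/-- the mass term `2 - 2 cos (θ/2)` -/
def kap (θ : ℝ) : ℂ := ((2 - 2 * Real.cos (θ / 2) : ℝ) : ℂ)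

/-- the block `12` -/
def m12 (L : ℕ) (θ : ℝ) : Matrix (I1 L) (I2 L) ℂ :=
  (-(2 * Complex.I * (Real.sin (θ / 4) : ℝ))) •
    (k4 (phs θ (1 / 2) (1 / 2) * cx (nm L (L - 1))) (e1 L (L - 1))ᵀ 1 1 +
      k4 (phs θ (-(1 / 2)) (1 / 2) * cx (nm L (L - 1))) (e0 L (L - 1))ᵀ 1 1)

/-- the block `11` -/
def m11 (L : ℕ) (θ : ℝ) : Matrix (I1 L) (I1 L) ℂ :=
  covL (1 / 2) (lNN L) (lDD L) (lDD L) (lDN L) θ - kap θ • (1 : Matrix (I1 L) (I1 L) ℂ)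
/-- the block `22` -/
def m22 (L : ℕ) (θ : ℝ) : Matrix (I2 L) (I2 L) ℂ :=
  covL 1 (lDD L) (lNN L) (lDD L) (lDN L) θ - kap θ • (1 : Matrix (I2 L) (I2 L) ℂ)
/-- the block `33` -/
def m33 (L : ℕ) (θ : ℝ) : Matrix (I3 L) (I3 L) ℂ := covL 1 (lDD L) (lDD L) (lNN L) (lDN L) θ
/-- the block `44` -/
def m44 (L : ℕ) (θ : ℝ) : Matrix (I0 L) (I0 L) ℂ := covL 1 (lDD L) (lDD L) (lDD L) (lND L) θ
/-- the Laplacian on functions -/
def lap (L : ℕ) (θ : ℝ) : Matrix (I0 L) (I0 L) ℂ := covL 1 (lDD L) (lDD L) (lDD L) (lDN L) θ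

/-- the gauge fixed Hessian, horizontal components -/
def mH (L : ℕ) (θ : ℝ) : Matrix (IH L) (IH L) ℂ :=
  Matrix.fromBlocks (m11 L θ) (Matrix.fromCols (m12 L θ) 0)
    (Matrix.fromRows (m12 L θ)ᴴ 0) (Matrix.fromBlocks (m22 L θ) 0 0 (m33 L θ))

/-- the gauge fixed Hessian -/
def mF (L : ℕ) (θ : ℝ) : Matrix (IH L ⊕ I0 L) (IH L ⊕ I0 L) ℂ :=
  Matrix.fromBlocks (mH L θ) 0 0 (m44 L θ)

/-- the horizontal part of the gradient -/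
def gV (L : ℕ) (θ : ℝ) : Matrix (IH L) (I0 L) ℂ :=
  Matrix.fromRows (g1 L) (Matrix.fromRows (g2 L θ) (g3 L))

/-- the Hessian in the temporal gauge (charged fields) -/
def hC (L : ℕ) (θ : ℝ) : Matrix (IH L) (IH L) ℂ := mH L θ - gV L θ * (gV L θ)ᴴ

/-- **Task AF-G1** (intertwining relation, components 1, 3, 4; 150-250 lines).

Proof. Write `T₁, T₂` for the shifts. Component 3: `k4 1 1 d 1` commutes with all the matrices of the directions 1, 2, 4 and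
`(d dᵀ) d = d (dᵀ d)`; the same for component 4 with `dm L L` (`lND = d dᵀ`, `lDN = dᵀ d`). `Δ = gVᴴ gV + g4ᴴ g4 = lap`:
`g1ᴴ g1 = k4 lDD 1 1 1`, `g3ᴴ g3`, `g4ᴴ g4` likewise, and
`g2ᴴ g2 = k4 1 (diag) 1 1 - k4 (phs θ 1 1) tm - k4 (phs θ (-1) 1) tmᵀ` from `e0ᵀ e0 = 1`, `e1ᵀ e1 = 1`, `e0ᵀ e1 = tmᵀ`, `e1ᵀ e0 = tm` (as matrices
on `Fin (L-1)`), the phases commute. Component 1, row by row (`x` the position `j + 1/2` of the link in the direction 1, `q = exp (iθ/2)`):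
`m11 g1 + m12 g2 = g1 lap`. The parts with `lNN` / `lDD` in the direction 1 agree, `(d dᵀ) d = d (dᵀ d)`, the directions 3, 4
agree; what remains is
`[(2 - kap) - phs(θ,1,1/2) T - phs(θ,-1,1/2) Tᵀ] d + m12 g2 = d [2 - phs(θ,1,1) T - phs(θ,-1,1) Tᵀ]`, `T = tm` in the direction 2. With
`d = e0 - e1` in the direction 1: `e0` has at the link `j` the site `j+1`, `e1` the site `j`: `phs(θ,s,1/2) e0 = q^(-s) e0 phs(θ,s,1)`,
`phs(θ,s,1/2) e1 = q^s e1 phs(θ,s,1)` (`q^s = exp (iθ s/2)`). `m12 g2`: `(e1)ᵀ e0 = T`, `(e1)ᵀ e1 = 1`, `(e0)ᵀ e0 = 1`, `(e0)ᵀ e1 = Tᵀ` (in the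
direction 2, with `(e1)ᵀ : S × E`), `nm = e0 + e1`, so with `c = -2 i sin (θ/4)`, `w = phs(θ,1/2,1/2)`, `v = phs(θ,1/2,1)`:
`m12 g2 = c [w nm v T - w nm v⁻¹ + w⁻¹ nm v - w⁻¹ nm v⁻¹ Tᵀ]`; move the phases to the right of `e0`, `e1`:
`w e0 = q^(-1/2) e0 v`, `w e1 = q^(1/2) e1 v`. Coefficients of `e0 v² T`: `-q⁻¹ + c q^(-1/2) = -1`, of `e1 v² T`: `q + c q^(1/2) = 1`, of `e0 v⁻² Tᵀ`:
`-q - c q^(1/2) = -1`, of `e1 v⁻² Tᵀ`: `q⁻¹ - c q^(-1/2) = 1`, of `e0`: `2 cos(θ/2) + c (q^(1/2) - q^(-1/2)) = 2`, of `e1`: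
`-2 cos(θ/2) + c (q^(-1/2) - q^(1/2)) = -2`; all hold since `c = q^(-1/2) - q^(1/2)`. -/
def S_G1 : Prop := ∀ (L : ℕ), 2 ≤ L → ∀ θ : ℝ,
  (gV L θ)ᴴ * gV L θ + (g4 L)ᴴ * g4 L = lap L θ ∧
  m11 L θ * g1 L + m12 L θ * g2 L θ = g1 L * lap L θ ∧ m33 L θ * g3 L = g3 L * lap L θ ∧
  m44 L θ * g4 L = g4 L * lap L θ ∧ (mF L θ).IsHermitian

/-- **Task AF-G2** (intertwining relation, component 2; 120-200 lines).

Proof. As in `AF-G1` (same notation; read its proof): `m12ᴴ g1 + m22 g2 = g2 lap`. The parts with the diagonal and the hopping in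
the direction 2 agree: `g2 g2ᴴ` is the direction 2 part of `m22` (`lNN`: check `g2 g2ᴴ = k4 1 (diag lNN) - k4 (phs θ 1 1) tm - k4 (phs θ (-1) 1) tmᵀ`,
from `e0 e0ᵀ + e1 e1ᵀ = diag lNN`, `e0 e1ᵀ = tm`, `e1 e0ᵀ = tmᵀ` on `Fin L`) and
`g2ᴴ g2` that of `lap`; the directions 3, 4 agree. There remains, in the direction 1 (`D = lDD`, `S = tm` on `Fin (L-1)`):
`(2 - kap - S - Sᵀ) g2 + m12ᴴ g1 = g2 (2 - S - Sᵀ)` with `g2 = v e0' - v⁻¹ e1'` (`v = phs(θ,1/2,1)`, primes: direction 2),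
`S v = q^(1/2) v S`, `Sᵀ v = q^(-1/2) v Sᵀ` (`v` at the site `i` is `exp (iθ(i+1)/2)`, `S i (i+1) = 1`), and
`m12ᴴ = conj(c) [nmᵀ w⁻¹ e1' + nmᵀ w e0']`, `nmᵀ d = S - Sᵀ`-type identities: for `e0, e1` in the direction 1 as `Fin L × Fin (L-1)`:
`e0ᵀ e0 = 1 = e1ᵀ e1`, `e0ᵀ e1 = Sᵀ`, `e1ᵀ e0 = S`; with the phases: `e0ᵀ w e0 = q^(-1/2) v`, `e1ᵀ w e1 = q^(1/2) v`, `e1ᵀ w e0 = q^(1/2) v S`,
`e0ᵀ w e1 = q^(-1/2) v Sᵀ`. Compare the coefficients of `v e0'`, `v S e0'`, `v Sᵀ e0'` and of `v⁻¹ e1'`, ..; `conj(c) = -c = q^(1/2) - q^(-1/2)`,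
`2 - kap = q + q⁻¹`. -/
def S_G2 : Prop := ∀ (L : ℕ), 2 ≤ L → ∀ θ : ℝ,
  (m12 L θ)ᴴ * g1 L + m22 L θ * g2 L θ = g2 L θ * lap L θ

/-- the coupling of the components 1 and 2 -/
def kN (L : ℕ) : Matrix (I1 L) (I2 L) ℝ := k4 (nm L (L - 1)) (nm L (L - 1))ᵀ 1 1

/-- **Task AF-LM** (jet of the gauge fixed Hessian; 120-200 lines).

Proof. At `θ = 0`: `m12 = 0`, `kap = 0`, so `mF 0` is block diagonal with the blocks `cx (ks ..)`; `(fromBlocks A 0 0 D)⁻¹` is block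
diagonal. Derivatives at `0`: `kap' = 0`, `kap'' = 1/2`, `m12' = -(i/2) k4 nm nmᵀ` (`e0ᵀ + e1ᵀ = cx nmᵀ`, the phases are `1`).
So `ld mF = ∑ ld (covL) - (1/2) (tr G1 + tr G2) - tr (G M' G M')_offdiag` and
`tr (G1 m12' G2 m12'ᴴ) = (1/4) tr (G1 N G2 Nᵀ)`, twice. (Entrywise derivatives of block matrices: cases on the index.) -/
def S_LM : Prop := ∀ (L : ℕ), 2 ≤ L →
  ld (mF L) = ld (covL (1 / 2) (lNN L) (lDD L) (lDD L) (lDN L)) + ld (covL 1 (lDD L) (lNN L) (lDD L) (lDN L)) +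
    ld (m33 L) + ld (m44 L) -
    (1 / 2) * (((ks (lNN L) (lDD L) (lDD L) (lDN L))⁻¹.trace : ℝ) : ℂ) -
    (1 / 2) * (((ks (lDD L) (lNN L) (lDD L) (lDN L))⁻¹.trace : ℝ) : ℂ) -
    (1 / 2) * ((((ks (lNN L) (lDD L) (lDD L) (lDN L))⁻¹ * kN L *
      (ks (lDD L) (lNN L) (lDD L) (lDN L))⁻¹ * (kN L)ᵀ).trace : ℝ) : ℂ) ∧
  (∀ i j, ContDiff ℝ 2 fun θ => mF L θ i j) ∧ (∀ i j, ContDiff ℝ 2 fun θ => lap L θ i j) ∧
  (∀ i j, ContDiff ℝ 2 fun θ => hC L θ i j) ∧ (mF L 0).det ≠ 0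

end

end Pool.Agent.H586.AF
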