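import Pool.Agent.H586.AF.B

/-!
# Project AF, part C: the lattice model, gauge fixing, the one-loop expansion

`SU(2)` is the group of unit quaternions (`Re tr U = 2 re U`, `X = i τ₃ / 2` is `k / 2`).
-/

set_option autoImplicit false
set_option linter.unusedVariables false

open MeasureTheory Matrix Finset Filter Topology
open scoped Quaternion

namespace Pool.Agent.H586.AF

noncomputable section

/-- `SU(2)` as the group of unit quaternions; `Re tr U = 2 re U` -/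
abbrev SU : Type := Metric.sphere (0 : ℍ[ℝ]) 1

instance instMSU : MeasurableSpace SU := borel SU
instance instBSU : BorelSpace SU := ⟨rfl⟩

/-- `exp (x θ k / 2)` -/
def bg (θ x : ℝ) : ℍ[ℝ] := ⟨Real.cos (θ * x / 2), 0, 0, Real.sin (θ * x / 2)⟩

/-- `Re tr (1 - a b c⁻¹ d⁻¹)` -/
def pe (a b c d : ℍ[ℝ]) : ℝ := 2 - 2 * (a * b * star c * star d).re

section ext
variable {R : Type}

/-- the field on all links of the direction 1, with the value `w` on the frozen links -/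
def ex1 (L : ℕ) (u : I1 L → R) (w : R) (x y z h : ℕ) : R :=
  if c : (x < L ∧ y - 1 < L - 1 ∧ z - 1 < L - 1 ∧ h - 1 < L) ∧ 1 ≤ y ∧ 1 ≤ z ∧ 1 ≤ h then
    u (⟨x, c.1.1⟩, ⟨y - 1, c.1.2.1⟩, ⟨z - 1, c.1.2.2.1⟩, ⟨h - 1, c.1.2.2.2⟩) else w
/-- direction 2 -/
def ex2 (L : ℕ) (u : I2 L → R) (w : R) (x y z h : ℕ) : R :=
  if c : (x - 1 < L - 1 ∧ y < L ∧ z - 1 < L - 1 ∧ h - 1 < L) ∧ 1 ≤ x ∧ 1 ≤ z ∧ 1 ≤ h then
    u (⟨x - 1, c.1.1⟩, ⟨y, c.1.2.1⟩, ⟨z - 1, c.1.2.2.1⟩, ⟨h - 1, c.1.2.2.2⟩) else w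
/-- direction 3 -/
def ex3 (L : ℕ) (u : I3 L → R) (w : R) (x y z h : ℕ) : R :=
  if c : (x - 1 < L - 1 ∧ y - 1 < L - 1 ∧ z < L ∧ h - 1 < L) ∧ 1 ≤ x ∧ 1 ≤ y ∧ 1 ≤ h then
    u (⟨x - 1, c.1.1⟩, ⟨y - 1, c.1.2.1⟩, ⟨z, c.1.2.2.1⟩, ⟨h - 1, c.1.2.2.2⟩) else w
/-- direction 4 (vertical; the link from the height `h` to `h + 1`) -/
def ex4 (L : ℕ) (u : I0 L → R) (w : R) (x y z h : ℕ) : R :=
  if c : (x - 1 < L - 1 ∧ y - 1 < L - 1 ∧ z - 1 < L - 1 ∧ h < L) ∧ 1 ≤ x ∧ 1 ≤ y ∧ 1 ≤ z then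
    u (⟨x - 1, c.1.1⟩, ⟨y - 1, c.1.2.1⟩, ⟨z - 1, c.1.2.2.1⟩, ⟨h, c.1.2.2.2⟩) else w

end ext

/-- sums over the plaquettes of the six planes -/
def s12 (L : ℕ) (F : ℕ → ℕ → ℕ → ℕ → ℝ) : ℝ :=
  ∑ x ∈ range L, ∑ y ∈ range L, ∑ z ∈ Ico 1 L, ∑ h ∈ Icc 1 L, F x y z h
/-- plane 13 -/
def s13 (L : ℕ) (F : ℕ → ℕ → ℕ → ℕ → ℝ) : ℝ :=
  ∑ x ∈ range L, ∑ y ∈ Ico 1 L, ∑ z ∈ range L, ∑ h ∈ Icc 1 L, F x y z h
/-- plane 23 -/
def s23 (L : ℕ) (F : ℕ → ℕ → ℕ → ℕ → ℝ) : ℝ :=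
  ∑ x ∈ Ico 1 L, ∑ y ∈ range L, ∑ z ∈ range L, ∑ h ∈ Icc 1 L, F x y z h
/-- plane 14 -/
def s14 (L : ℕ) (F : ℕ → ℕ → ℕ → ℕ → ℝ) : ℝ :=
  ∑ x ∈ range L, ∑ y ∈ Ico 1 L, ∑ z ∈ Ico 1 L, ∑ h ∈ range L, F x y z h
/-- plane 24 -/
def s24 (L : ℕ) (F : ℕ → ℕ → ℕ → ℕ → ℝ) : ℝ :=
  ∑ x ∈ Ico 1 L, ∑ y ∈ range L, ∑ z ∈ Ico 1 L, ∑ h ∈ range L, F x y z h
/-- plane 34 -/
def s34 (L : ℕ) (F : ℕ → ℕ → ℕ → ℕ → ℝ) : ℝ :=
  ∑ x ∈ Ico 1 L, ∑ y ∈ Ico 1 L, ∑ z ∈ range L, ∑ h ∈ range L, F x y z h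

/-- the Wilson action of given link fields -/
def wil (L : ℕ) (U1 U2 U3 U4 : ℕ → ℕ → ℕ → ℕ → ℍ[ℝ]) : ℝ :=
  s12 L (fun x y z h => pe (U1 x y z h) (U2 (x + 1) y z h) (U1 x (y + 1) z h) (U2 x y z h)) +
  s13 L (fun x y z h => pe (U1 x y z h) (U3 (x + 1) y z h) (U1 x y (z + 1) h) (U3 x y z h)) +
  s23 L (fun x y z h => pe (U2 x y z h) (U3 x (y + 1) z h) (U2 x y (z + 1) h) (U3 x y z h)) +
  s14 L (fun x y z h => pe (U1 x y z h) (U4 (x + 1) y z h) (U1 x y z (h + 1)) (U4 x y z h)) +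
  s24 L (fun x y z h => pe (U2 x y z h) (U4 x (y + 1) z h) (U2 x y z (h + 1)) (U4 x y z h)) +
  s34 L (fun x y z h => pe (U3 x y z h) (U4 x y (z + 1) h) (U3 x y z (h + 1)) (U4 x y z h))

/-- the Wilson action of the box: `u` the horizontal free links, `v` the vertical ones; the frozen links have the value
`exp (x θ X)` in the direction 2 (`x` the first coordinate) and `1` in the other directions -/
def act (L : ℕ) (θ : ℝ) (u : IH L → SU) (v : I0 L → SU) : ℝ :=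
  wil L (ex1 L (fun i => (u (Sum.inl i) : ℍ[ℝ])) 1)
    (fun x => ex2 L (fun i => (u (Sum.inr (Sum.inl i)) : ℍ[ℝ])) (bg θ x) x)
    (ex3 L (fun i => (u (Sum.inr (Sum.inr i)) : ℍ[ℝ])) 1) (ex4 L (fun i => (v i : ℍ[ℝ])) 1)

/-- the partition function -/
def ZZ (μ : Measure SU) (L : ℕ) (β θ : ℝ) : ℝ :=
  ∫ u : IH L → SU, ∫ v : I0 L → SU, Real.exp (-(β * act L θ u v)) ∂(Measure.pi fun _ => μ)
    ∂(Measure.pi fun _ => μ)

/-- the energy in the temporal gauge and in the frame of the background -/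
def en (L : ℕ) (θ : ℝ) (σ : IH L → SU) : ℝ :=
  wil L (ex1 L (fun i => (σ (Sum.inl i) : ℍ[ℝ])) 1)
    (fun x y z h => bg θ (x / 2) * ex2 L (fun i => (σ (Sum.inr (Sum.inl i)) : ℍ[ℝ])) 1 x y z h *
      bg θ (x / 2))
    (ex3 L (fun i => (σ (Sum.inr (Sum.inr i)) : ℍ[ℝ])) 1) (fun _ _ _ _ => 1)

/-- the size of the fluctuations -/
def sz {L : ℕ} (σ : IH L → SU) : ℝ := ∑ l, ‖(σ l : ℍ[ℝ]) - 1‖

/-- the field `√2 (imI, imJ, imK)` -/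
def ph (a : Fin 3) (q : ℍ[ℝ]) : ℝ :=
  Real.sqrt 2 * (if a = 0 then q.imI else if a = 1 then q.imJ else q.imK)

/-- the charged field `√2 (imI + i imJ)` -/
def ch (q : ℍ[ℝ]) : ℂ := ((Real.sqrt 2 : ℝ) : ℂ) * (q.imI + q.imJ * Complex.I)

/-- the imaginary units -/
def un (a : Fin 3) : ℍ[ℝ] := if a = 0 then ⟨0, 1, 0, 0⟩ else if a = 1 then ⟨0, 0, 1, 0⟩ else ⟨0, 0, 0, 1⟩

/-- the one-parameter groups -/
def gq (a : Fin 3) (t : ℝ) : ℍ[ℝ] :=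
  (Real.cos (t / Real.sqrt 2) : ℍ[ℝ]) + Real.sin (t / Real.sqrt 2) • un a

/-- the one-parameter groups in `SU` -/
def gm (a : Fin 3) (t : ℝ) : SU := if c : ‖gq a t‖ = 1 then ⟨gq a t, by simpa using c⟩ else 1

/-- the shift of one link -/
def sh {Λ : Type} [DecidableEq Λ] (l : Λ) (a : Fin 3) (t : ℝ) (σ : Λ → SU) : Λ → SU :=
  Function.update σ l (gm a t * σ l)

/-! ### Quadratic forms -/

/-- `exp (i θ x)` -/
def ee (θ x : ℝ) : ℂ := Complex.exp (Complex.I * (θ * x : ℝ))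

/-- the quadratic form of a plaquette of the plane 12; `a, b, c, d` the charged fields, `x` the position -/
def q12 (θ x : ℝ) (a b c d : ℂ) : ℝ :=
  (1 / 2) * Real.cos (θ / 2) * (‖a‖ ^ 2 + ‖b‖ ^ 2 + ‖c‖ ^ 2 + ‖d‖ ^ 2) -
    (-(ee θ ((x + 1) / 2) * c * star d) - ee θ (-(x / 2)) * a * star b + b * star d +
      ee θ (-(x / 2)) * b * star c + ee θ (-((x + 1) / 2)) * a * star d +
      ee θ (-((2 * x + 1) / 2)) * a * star c).re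

/-- the quadratic form of a plaquette of the plane 23 -/
def q23 (θ x : ℝ) (a b c d : ℂ) : ℝ :=
  (1 / 2) * ‖a - c + ee θ (x / 2) * b - ee θ (-(x / 2)) * d‖ ^ 2

/-- the quadratic part of the energy, charged fields -/
def qf (L : ℕ) (θ : ℝ) (b : IH L → ℂ) : ℝ :=
  let B1 := ex1 L (fun i => b (Sum.inl i)) 0
  let B2 := ex2 L (fun i => b (Sum.inr (Sum.inl i))) 0
  let B3 := ex3 L (fun i => b (Sum.inr (Sum.inr i))) 0
  s12 L (fun x y z h => q12 θ x (B1 x y z h) (B2 (x + 1) y z h) (B1 x (y + 1) z h) (B2 x y z h)) +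
  s13 L (fun x y z h => (1 / 2) * ‖B1 x y z h + B3 (x + 1) y z h - B1 x y (z + 1) h - B3 x y z h‖ ^ 2) +
  s23 L (fun x y z h => q23 θ x (B2 x y z h) (B3 x (y + 1) z h) (B2 x y (z + 1) h) (B3 x y z h)) +
  s14 L (fun x y z h => (1 / 2) * ‖B1 x y z (h + 1) - B1 x y z h‖ ^ 2) +
  s24 L (fun x y z h => (1 / 2) * ‖B2 x y z (h + 1) - B2 x y z h‖ ^ 2) +
  s34 L (fun x y z h => (1 / 2) * ‖B3 x y z (h + 1) - B3 x y z h‖ ^ 2)

/-- `Re ⟨a, M b⟩` -/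
def hf {m n : Type} [Fintype m] [Fintype n] (a : m → ℂ) (M : Matrix m n ℂ) (b : n → ℂ) : ℝ :=
  (∑ i, ∑ j, star (a i) * M i j * b j).re

/-- the curl in the plane 12 of a real field -/
def c12 {L : ℕ} (f : IH L → ℝ) (x y z h : ℕ) : ℝ :=
  ex1 L (fun i => f (Sum.inl i)) 0 x y z h + ex2 L (fun i => f (Sum.inr (Sum.inl i))) 0 (x + 1) y z h -
    ex1 L (fun i => f (Sum.inl i)) 0 x (y + 1) z h - ex2 L (fun i => f (Sum.inr (Sum.inl i))) 0 x y z h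

/-- the real Hessian at `θ = 0` -/
def mA (L : ℕ) : Matrix (IH L) (IH L) ℝ := Matrix.of fun i j => (hC L 0 i j).re
/-- `hC'(0) = i mB` -/
def mB (L : ℕ) : Matrix (IH L) (IH L) ℝ := Matrix.of fun i j => (deriv (fun θ => hC L θ i j) 0).im
/-- `hC''(0)` -/
def mC (L : ℕ) : Matrix (IH L) (IH L) ℝ :=
  Matrix.of fun i j => (deriv (deriv fun θ => hC L θ i j) 0).re
/-- the square of the curl in the plane 12 -/
def mR (L : ℕ) : Matrix (IH L) (IH L) ℝ := Matrix.of fun i j =>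
  s12 L fun x y z h => c12 (Pi.single i 1) x y z h * c12 (Pi.single j 1) x y z h

/-! ### Tasks -/

/-- **Task AF-GF** (gauge fixing; 200-280 lines).

Proof. A Haar probability measure `μ` of the compact group `SU` is invariant under left and right multiplications (see the end of
`Results/MP_7f377f_mp/TotalVariationLocalLaw.lean`, lines 215-245, for a proof of the right invariance). Exchange the integrals
(Fubini, the integrand is continuous and bounded on a compact space), fix `v`. Let `V = ex4 L v 1` and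
`P x y z h = V x y z 0 * V x y z 1 * ... * V x y z (h-1)` (so `P .. 0 = 1`, and `P = 1` at the lateral sites `x, y` or `z ∈ {0, L}`).
The map `u ↦ u'`, `u'_i(x) = P(x) u_i(x) P(x + e_i)⁻¹` is for fixed `v` a two-sided translation in each variable, hence measure preserving
(`MeasureTheory.measurePreserving_pi`). The frozen links of the directions 1, 2, 3 have `P = 1` at both ends (they lie in the lateral boundary
or at the height `0`), so that for the extended fields `U'_i(x) = P(x) U_i(x) P(x+e_i)⁻¹` for all links of the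
plaquettes of the sums; `U'_4(x) = P(x) U_4(x) P(x+e_4)⁻¹ = 1`. The energy `pe` of a plaquette is invariant (`re (g q g⁻¹) = re q`). So
`∫ exp (-β act L θ u v) du = ∫ exp (-β act L θ u 1) du` and `∫ dv = 1`. Then substitute in the direction 2
`u_2 = bg θ (x/2) σ_2 bg θ (x/2)` (`x` the position; again a two-sided translation by unit quaternions; `bg θ (x/2) * bg θ (x/2) = bg θ x`
accounts for the frozen links). -/
def S_GF : Prop := ∀ (μ : Measure SU) [IsProbabilityMeasure μ] [μ.IsHaarMeasure] (L : ℕ), 2 ≤ L →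
  ∀ β θ : ℝ, ZZ μ L β θ = ∫ σ : IH L → SU, Real.exp (-(β * en L θ σ)) ∂(Measure.pi fun _ => μ)

/-- **Task AF-HB** (Haar measure of small balls; 60-120 lines).

Proof. `SU` is a subset of the four dimensional space of quaternions. Cover it by balls: for `0 < r ≤ 1` there is a maximal `r/2`-separated set,
it is finite, with at most `(C/r)^4` points (volume comparison in dimension 4, or an explicit grid of the cube `[-1,1]^4` of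
mesh `r/8`: at most `(20/r)^4` cells, choose one point of `SU` in each non-empty cell). The balls `{g | ‖g - g_i‖ ≤ r}` cover `SU`,
so one of them has measure at least `(r/20)^4`. It is the translate `{g | ‖g_i⁻¹ g - 1‖ ≤ r}` of the ball at `1`
(`‖g - g_i‖ = ‖g_i‖ ‖g_i⁻¹ g - 1‖`), which has the same measure by left invariance. -/
def S_HB : Prop := ∃ c : ℝ, 0 < c ∧ ∀ (μ : Measure SU) [IsProbabilityMeasure μ] [μ.IsHaarMeasure],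
  ∀ r : ℝ, 0 < r → r ≤ 1 → c * r ^ 4 ≤ μ.real {g : SU | ‖(g : ℍ[ℝ]) - 1‖ ≤ r}

/-- **Task AF-SD** (Schwinger-Dyson identity on a product of copies of `SU(2)`; 120-200 lines).

Proof. `gm a` is a one-parameter group (`‖gq a t‖ = 1`, `gq a (s + t) = gq a s * gq a t`: addition theorems, `un a * un a = -1`). The map
`σ ↦ sh l a t σ` preserves the product of the Haar measures (left translation in one factor), so
`∫ F(σ) exp (-β E σ) = ∫ F(sh l a t σ) exp (-β E (sh l a t σ))` for all `t`. Differentiate at `t = 0` under the integral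
(`hasDerivAt_integral_of_dominated_loc_of_deriv_le`; `sh l a (t+s) = sh l a t ∘ sh l a s` shows that the integrand has the derivative
`(F' - β F E')(sh l a t σ) exp (-β E (sh l a t σ))` at every `t`, bounded by a constant):
`0 = ∫ (F' - β F E') exp (-β E)`. -/
def S_SD2 : Prop := ∀ (μ : Measure SU) [IsProbabilityMeasure μ] [μ.IsHaarMeasure] {Λ : Type} [Fintype Λ]
  [DecidableEq Λ] (l : Λ) (a : Fin 3) (β C : ℝ) (F F' E E' : (Λ → SU) → ℝ), Measurable F → Measurable F' →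
  Measurable E → Measurable E' → (∀ σ, |F σ| ≤ C ∧ |F' σ| ≤ C ∧ |E σ| ≤ C ∧ |E' σ| ≤ C) →
  (∀ σ, HasDerivAt (fun t => F (sh l a t σ)) (F' σ) 0) →
  (∀ σ, HasDerivAt (fun t => E (sh l a t σ)) (E' σ) 0) →
  ∫ σ, F' σ * Real.exp (-(β * E σ)) ∂(Measure.pi fun _ => μ) =
    β * ∫ σ, F σ * E' σ * Real.exp (-(β * E σ)) ∂(Measure.pi fun _ => μ)

/-- **Task AF-DP** (derivative of the fields; 60-100 lines).

Proof. `(gq a t * q)' = (1/√2) un a * q` at `t = 0`, so `ph b` has the derivative `(un a * q)_b` (the component `b` of the imaginary part), which is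
`δ_ab` for `q = 1`; the rest is the component `b` of `un a * (q - 1)`, of norm `≤ ‖q - 1‖`. For `l' ≠ l` the field is constant. -/
def S_DP : Prop := ∃ r : Fin 3 → Fin 3 → ℍ[ℝ] → ℝ, (∀ a b, Continuous (r a b)) ∧
  (∀ a b q, |r a b q| ≤ ‖q - 1‖) ∧ (∀ b q, |ph b q| ≤ 2 * ‖q - 1‖) ∧
  ∀ {Λ : Type} [Fintype Λ] [DecidableEq Λ] (l l' : Λ) (a b : Fin 3) (σ : Λ → SU),
    HasDerivAt (fun t => ph b (sh l a t σ l' : SU)) (if l = l' then (if a = b then 1 else 0) + r a b (σ l) else 0) 0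

/-- **Task AF-DE** (derivative of the energy at `θ = 0`; 150-250 lines; uses `S_QF` at real fields).

Proof. For one plaquette, `a, b, c, d` unit quaternions, `f = ‖a-1‖+‖b-1‖+‖c-1‖+‖d-1‖`, `T = un j / √2`: the derivatives of `pe` in the
direction `a ↦ exp(tT) a`, `b ↦ exp(tT) b`, `c ↦ exp(tT) c`, `d ↦ exp(tT) d` are
`-2 re (T a b c̄ d̄)`, `-2 re (a T b c̄ d̄)`, `2 re (a b c̄ T d̄)`, `2 re (a b c̄ d̄ T)`, and each is `±(ph j a + ph j b - ph j c - ph j d)` up to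
`100 f²` (expand `a = 1 + (a-1)` etc.; the terms of degree 1: `-2 re (T (a-1))= √2 (a-1)_j = ph j a`, `c̄ - 1 = conj (c - 1)` gives the opposite sign;
`f ≤ 8` bounds the higher terms). At `θ = 0` (`bg 0 x = 1`) the energy is the sum over the plaquettes (`sh` changes one link only; the frozen
links are not changed), so its derivative is `∑_p (curl e_l)(p) (curl ph_j)(p) + O(f²)`, where `e_l = Pi.single l 1` and each link is in at most `6`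
plaquettes, and `∑_p (curl e_l)(curl g) = (mA *ᵥ g) l` by polarization of `qf L 0 b = (1/2) hf b (hC L 0) b` (`S_QF`; at `θ = 0`
`qf L 0 b = (1/2) ∑_p |curl b|²`, real fields `b`; `hC L 0` is real and symmetric: `S_HR`). The derivative is continuous in `σ`. -/
def S_DE : Prop := ∃ C : ℝ, ∀ (L : ℕ), 2 ≤ L → ∀ (l : IH L) (a : Fin 3),
  ∃ D : (IH L → SU) → ℝ, Continuous D ∧ ∀ σ, HasDerivAt (fun t => en L 0 (sh l a t σ)) (D σ) 0 ∧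
    |D σ - ∑ l', mA L l l' * ph a (σ l' : SU)| ≤ C * (L : ℝ) ^ 4 * sz σ ^ 2

/-- **Task AF-EB** (bounds of the energy; 120-200 lines).

Proof. `pe a b c d = ‖a b - d c‖²` for unit quaternions. Vertical plaquettes in the temporal gauge: `pe a 1 c 1 = ‖a - c‖²` (and for direction 2 the factors `bg`
cancel), so with `σ = 1` at the height `0`, `‖σ(h) - 1‖² ≤ L ∑_(h') ‖σ(h'+1) - σ(h')‖²`, `∑_l ‖σ_l - 1‖² ≤ L² en L 0 σ`; and
`sz² ≤ card · ∑`, `card ≤ 3 L⁴`. Upper bound at `θ = 0`: `pe ≤ (‖a-1‖+‖b-1‖+‖c-1‖+‖d-1‖)² ≤ sz²` (each extended link is `1` or one of the `σ_l`; the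
four links are different, or just use the bound `(4 sz)²`), at most `6 L⁴ · 2` plaquettes. `en` is continuous. -/
def S_EB : Prop := ∀ (L : ℕ), 2 ≤ L →
  (∀ σ : IH L → SU, 0 ≤ en L 0 σ ∧ sz σ ^ 2 ≤ 3 * (L : ℝ) ^ 6 * en L 0 σ ∧
    en L 0 σ ≤ 200 * (L : ℝ) ^ 4 * sz σ ^ 2 ∧ sz σ ≤ 6 * (L : ℝ) ^ 4) ∧
  Continuous (Function.uncurry (en L)) ∧ (Fintype.card (IH L) : ℝ) ≤ 3 * (L : ℝ) ^ 4

/-- **Task AF-TL** (tail bound; 120-180 lines; uses `S_HB`, `S_EB`).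

Proof. `Z = ∫ exp (-β en)`. Lower bound: on `{σ | ∀ l, ‖σ_l - 1‖ ≤ r}`, `r = β^(-1/2)`, `sz ≤ card r`, so
`en ≤ 200 L⁴ · 9 L⁸ /β` and `Z ≥ exp (-1800 L¹²) (c β^(-2))^card`, `card ≤ 3 L⁴` (`Measure.pi` of a box, `S_HB`; take `c ≤ 1`). Upper bound: on
`{M < 2 sz}`, `β en ≥ β M²/(12 L⁶) = β^(1/10)/(12 L⁶)`. So the quotient is at most
`exp (-β^(1/10)/(12 L⁶) + 1800 L¹² + 3 L⁴ (log (1/c) + 2 log β))`, and for `β ≥ L^K₀`, `K₀` large, this is `≤ β^(-9)`: as `log β ≤ 1000 β^(1/1000)`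
and `L ≤ β^(1/K₀)`; also `K₀` absorbs the constant through `L ≥ 2`. -/
def S_TL : Prop := ∃ K₀ : ℕ, ∀ (μ : Measure SU) [IsProbabilityMeasure μ] [μ.IsHaarMeasure] (L : ℕ), 2 ≤ L →
  ∀ β : ℝ, (L : ℝ) ^ K₀ ≤ β →
  ∫ σ in {σ : IH L → SU | β ^ (-(9 / 20) : ℝ) < 2 * sz σ}, Real.exp (-(β * en L 0 σ)) ∂(Measure.pi fun _ => μ) ≤
    β ^ (-9 : ℝ) * ∫ σ : IH L → SU, Real.exp (-(β * en L 0 σ)) ∂(Measure.pi fun _ => μ)

/-- **Task AF-ZD** (second derivative of the free energy; abstract; 100-160 lines).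

Proof. Differentiate twice under the integral (`hasDerivAt_integral_of_dominated_loc_of_deriv_le`, twice):
`Z' = -β ∫ e' exp (-β e)`, `Z'' = ∫ (β² e'² - β e'') exp (-β e)` for `|θ| < 1`, `Z > 0`; `(-log Z)'' = -Z''/Z + (Z'/Z)²`. -/
def S_ZD : Prop := ∀ {Ω : Type} [MeasurableSpace Ω] (P : Measure Ω) [IsProbabilityMeasure P]
  (e e1 e2 : ℝ → Ω → ℝ) (K β : ℝ), (∀ θ, Measurable (e θ)) → (∀ θ, Measurable (e1 θ)) → (∀ θ, Measurable (e2 θ)) →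
  (∀ θ ω, HasDerivAt (fun θ => e θ ω) (e1 θ ω) θ) → (∀ θ ω, HasDerivAt (fun θ => e1 θ ω) (e2 θ ω) θ) →
  (∀ θ ω, |e θ ω| ≤ K ∧ |e1 θ ω| ≤ K ∧ |e2 θ ω| ≤ K) →
  deriv (deriv fun θ => -Real.log (∫ ω, Real.exp (-(β * e θ ω)) ∂P)) 0 =
    β * ((∫ ω, e2 0 ω * Real.exp (-(β * e 0 ω)) ∂P) / ∫ ω, Real.exp (-(β * e 0 ω)) ∂P) -
    β ^ 2 * ((∫ ω, e1 0 ω ^ 2 * Real.exp (-(β * e 0 ω)) ∂P) / (∫ ω, Real.exp (-(β * e 0 ω)) ∂P) -
      ((∫ ω, e1 0 ω * Real.exp (-(β * e 0 ω)) ∂P) / ∫ ω, Real.exp (-(β * e 0 ω)) ∂P) ^ 2)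

/-- **Task AF-P12** (one plaquette of the plane 12; quaternion and complex algebra; 200-300 lines).

Proof. Write a quaternion as `α + β i` with `α = re + imK k`, `β = imI + imJ k` (complex numbers in `k`): `(α, β)(γ, δ) = (αγ - β δ̄, αδ + β γ̄)`,
`star (α, β) = (ᾱ, -β)`, `bg (α, β) bg = (e² α, β)` for `bg = (e, 0)`. With `u = exp (iθx/2)`, `u' = exp (iθ(x+1)/2)`, the energy is
`F θ = 2 - 2 Re [u' ū α_a α_b ᾱ_c ᾱ_d - u' α_a α_b β_c β̄_d - ū β_a β̄_b ᾱ_c ᾱ_d + β_a β̄_b β_c β̄_d + α_a β_b α_c β̄_d + ū α_a β_b β̄_c ᾱ_d + ū' β_a ᾱ_b α_c β̄_d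
+ ū' ū β_a ᾱ_b β̄_c ᾱ_d]`, `u' ū = exp (iθ/2)`: a sum of terms `Re [exp (iκθ) m]` with `|κ| ≤ x + 1`, `|m| ≤ 1`; this gives the smoothness and the bounds. Let
`f = ‖a-1‖+..+‖d-1‖`; `|β| ≤ f`, `|α - 1 - i imK| ≤ f²`, `|α - 1| ≤ f`, `ch = √2 β`, `f ≤ 8`. `F'(0) = -2 Re ∑ iκ m`: the first term is
`Im (α_a α_b ᾱ_c ᾱ_d) = imK a + imK b - imK c - imK d + O(f³)` (the terms of second order of the product are real: `|α|² + |β|² = 1`,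
`re - 1 = -(1/2)‖q-1‖²`), in the others `α` may be replaced by `1` with the error `O(x f³)`; these are the derivatives at `0` of the terms of
`q12 θ x (ch a) (ch b) (ch c) (ch d)`; the term with `cos (θ/2)` and those with `κ = 0` have no first derivative. `F''(0) = 2 Re ∑ κ² m`: the first term is
`(1/2) Re (α_a α_b ᾱ_c ᾱ_d) = 1/2 - (1/4) ∑ |β|² - (1/4) (imK a + imK b - imK c - imK d)² + O(f³)`, and
`ph 2 = √2 imK`. (`|Re|`, `|Im|` of the products: write `α = 1 + i k + s`, `|s| ≤ f²`, and expand; or bound the differences by the triangle inequality.) -/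
def S_P12 : Prop := ∃ C : ℝ, ∀ (a b c d : SU) (x : ℝ), 0 ≤ x →
  ∃ F1 F2 : ℝ → ℝ, Continuous F1 ∧ Continuous F2 ∧
    (∀ θ, HasDerivAt (fun θ => pe a (bg θ ((x + 1) / 2) * b * bg θ ((x + 1) / 2)) c (bg θ (x / 2) * d * bg θ (x / 2)))
      (F1 θ) θ ∧ HasDerivAt F1 (F2 θ) θ ∧ |F1 θ| ≤ C * (1 + x) ^ 2 ∧ |F2 θ| ≤ C * (1 + x) ^ 2) ∧
    |F1 0 - ((a : ℍ[ℝ]).imK + (b : ℍ[ℝ]).imK - (c : ℍ[ℝ]).imK - (d : ℍ[ℝ]).imK) -
      deriv (fun θ => q12 θ x (ch a) (ch b) (ch c) (ch d)) 0| ≤ C * (1 + x) ^ 2 *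
        (‖(a : ℍ[ℝ]) - 1‖ + ‖(b : ℍ[ℝ]) - 1‖ + ‖(c : ℍ[ℝ]) - 1‖ + ‖(d : ℍ[ℝ]) - 1‖) ^ 3 ∧
    |F2 0 - 1 / 2 + (1 / 8) * (ph 2 a + ph 2 b - ph 2 c - ph 2 d) ^ 2 -
      deriv (deriv fun θ => q12 θ x (ch a) (ch b) (ch c) (ch d)) 0| ≤ C * (1 + x) ^ 2 *
        (‖(a : ℍ[ℝ]) - 1‖ + ‖(b : ℍ[ℝ]) - 1‖ + ‖(c : ℍ[ℝ]) - 1‖ + ‖(d : ℍ[ℝ]) - 1‖) ^ 3

/-- **Task AF-P23** (one plaquette of the plane 23; quaternion and complex algebra; 150-220 lines).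

Proof. As `AF-P12` (read its proof for the notation): with `u = exp (iθx/2)` the energy is
`2 - 2 Re [(u α_a α_b - β_a β̄_b)(ū ᾱ_c ᾱ_d - β_c β̄_d) + (u α_a β_b + β_a ᾱ_b)(u α_c β̄_d + β̄_c ᾱ_d)]`
`= 2 - 2 Re [α_a α_b ᾱ_c ᾱ_d - u α_a α_b β_c β̄_d - ū β_a β̄_b ᾱ_c ᾱ_d + β_a β̄_b β_c β̄_d + u² α_a β_b α_c β̄_d + u α_a β_b β̄_c ᾱ_d + u β_a ᾱ_b α_c β̄_d
+ β_a ᾱ_b β̄_c ᾱ_d]`; the derivatives at `0` with `α` replaced by `1` are those of `q23` (expand the square; the terms of the first order in `θ`). -/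
def S_P23 : Prop := ∃ C : ℝ, ∀ (a b c d : SU) (x : ℝ), 0 ≤ x →
  ∃ F1 F2 : ℝ → ℝ, Continuous F1 ∧ Continuous F2 ∧
    (∀ θ, HasDerivAt (fun θ => pe (bg θ (x / 2) * a * bg θ (x / 2)) b (bg θ (x / 2) * c * bg θ (x / 2)) d)
      (F1 θ) θ ∧ HasDerivAt F1 (F2 θ) θ ∧ |F1 θ| ≤ C * (1 + x) ^ 2 ∧ |F2 θ| ≤ C * (1 + x) ^ 2) ∧
    |F1 0 - deriv (fun θ => q23 θ x (ch a) (ch b) (ch c) (ch d)) 0| ≤ C * (1 + x) ^ 2 *
        (‖(a : ℍ[ℝ]) - 1‖ + ‖(b : ℍ[ℝ]) - 1‖ + ‖(c : ℍ[ℝ]) - 1‖ + ‖(d : ℍ[ℝ]) - 1‖) ^ 3 ∧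
    |F2 0 - deriv (deriv fun θ => q23 θ x (ch a) (ch b) (ch c) (ch d)) 0| ≤ C * (1 + x) ^ 2 *
        (‖(a : ℍ[ℝ]) - 1‖ + ‖(b : ℍ[ℝ]) - 1‖ + ‖(c : ℍ[ℝ]) - 1‖ + ‖(d : ℍ[ℝ]) - 1‖) ^ 3

/-- **Task AF-EX** (expansion of the derivatives of the energy; 150-220 lines; uses `S_P12`, `S_P23`).

Proof. `en L θ σ` is the sum over the plaquettes; those of the planes 13, 14, 34 do not depend on `θ`, those of the plane 24 neither
(`pe (g a g) 1 (g c g) 1 = 2 - 2 re (g a g ḡ c̄ ḡ) = 2 - 2 re (a c̄)`, `g` a unit quaternion). Those of 12 and 23 are as in `S_P12`, `S_P23`, with the extended fields as elements of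
`SU` (the extension of `σ` by `1 : SU`). Sum: `e1 θ σ = s12 (F1) + s23 (F1)` etc.; continuity in `σ` follows since the derivatives are explicit (or: `e1 θ σ` is
a pointwise limit of the continuous difference quotients, hence measurable; it suffices to give measurability). At `0`:
`s12 L (imK a + imK b - imK c - imK d) = 0` by telescoping: `∑_x (B2 (x+1) - B2 x) = B2 L - B2 0 = 0` and `∑_y (B1 y - B1 (y+1)) = 0` (frozen links have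
`imK 1 = 0`); the constants: `s12 L (1/2) = (1/2) L³ (L-1)`; the errors: each `≤ C (1+L)² (4 sz)³`, `≤ 2 L⁴` plaquettes. `ch 1 = 0`, `ph 2 1 = 0` (extended fields). -/
def S_EX : Prop := ∃ C : ℝ, ∀ (L : ℕ), 2 ≤ L → ∃ e1 e2 : ℝ → (IH L → SU) → ℝ,
  (∀ θ, Measurable (e1 θ)) ∧ (∀ θ, Measurable (e2 θ)) ∧
  (∀ θ σ, HasDerivAt (fun θ => en L θ σ) (e1 θ σ) θ ∧ HasDerivAt (fun θ => e1 θ σ) (e2 θ σ) θ ∧
    |e1 θ σ| ≤ C * (L : ℝ) ^ 6 ∧ |e2 θ σ| ≤ C * (L : ℝ) ^ 6 ∧ |en L θ σ| ≤ C * (L : ℝ) ^ 6) ∧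
  ∀ σ, |e1 0 σ - deriv (fun θ => qf L θ fun l => ch (σ l : SU)) 0| ≤ C * (L : ℝ) ^ 6 * sz σ ^ 3 ∧
    |e2 0 σ - (1 / 2) * (L : ℝ) ^ 3 * (L - 1) - deriv (deriv fun θ => qf L θ fun l => ch (σ l : SU)) 0 +
      (1 / 8) * s12 L (fun x y z h => c12 (fun l => ph 2 (σ l : SU)) x y z h ^ 2)| ≤ C * (L : ℝ) ^ 6 * sz σ ^ 3

/-- **Task AF-QF** (assembly of the quadratic form from its blocks; uses the tasks `AF-Q11`, ..., `AF-Q33`). -/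
def S_QF : Prop := ∀ (L : ℕ), 2 ≤ L → ∀ (θ : ℝ) (b : IH L → ℂ), qf L θ b = (1 / 2) * hf b (hC L θ) b

/-- **Task AF-Q11** (finite sums; 120-200 lines).

Proof. Both sides are finite sums. `m11 - g1 g1ᴴ = k4 1 (diag 2) 1 1 - k4 (phs θ 1 (1/2)) tm 1 1 - k4 (phs θ (-1) (1/2)) tmᵀ 1 1 + k4 1 1 lDD 1 + k4 1 1 1 lDN - kap`
(`g1 g1ᴴ = k4 (cx lNN) 1 1 1`; `lDD` has the diagonal `2`). Expand `hf` with `k4` (the sums with `1` collapse) and write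
`⟨f, lDD f⟩ = ∑_(j ≤ L-1) |f j - f (j-1)|²` (`lDD = dmᵀ dm`, values outside are `0`), `⟨f, lDN f⟩ = ∑_(h < L) |f (h+1) - f h|²` with `f 0 = 0`. On the left the sum of
`|B1 x y|² + |B1 x (y+1)|²` over `y < L` is `2 ∑ |B1|²` (`B1 = 0` at `y = 0, L`), `2 - kap = 2 cos (θ/2)`, and
`ee θ (-((2x+1)/2)) B1(y) star B1(y+1)` is the complex conjugate of `exp (iθ (x + 1/2)) star B1(y) B1(y+1)`. -/
def S_Q11 : Prop := ∀ (L : ℕ), 2 ≤ L → ∀ (θ : ℝ) (b : I1 L → ℂ), 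
  s12 L (fun x y z h => (1 / 2) * Real.cos (θ / 2) * (‖ex1 L b 0 x y z h‖ ^ 2 + ‖ex1 L b 0 x (y + 1) z h‖ ^ 2) -
      (ee θ (-((2 * x + 1) / 2)) * ex1 L b 0 x y z h * star (ex1 L b 0 x (y + 1) z h)).re) +
    s13 L (fun x y z h => (1 / 2) * ‖ex1 L b 0 x y z h - ex1 L b 0 x y (z + 1) h‖ ^ 2) +
    s14 L (fun x y z h => (1 / 2) * ‖ex1 L b 0 x y z (h + 1) - ex1 L b 0 x y z h‖ ^ 2) =
  (1 / 2) * hf b (m11 L θ - g1 L * (g1 L)ᴴ) b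

/-- **Task AF-Q22** (finite sums; 120-200 lines).

Proof. As `AF-Q11` (read its proof): `m22 - g2 g2ᴴ` has no part in the direction 2 (`g2 g2ᴴ = k4 1 (diag lNN) 1 1 - k4 (phs θ 1 1) tm 1 1 - k4 (phs θ (-1) 1) tmᵀ 1 1`
because `e0 e0ᵀ + e1 e1ᵀ = diag lNN`, `e0 e1ᵀ = tm`, `e1 e0ᵀ = tmᵀ` on `Fin L`), so it is
`k4 (cx lDD) 1 1 1 + k4 1 1 (cx lDD) 1 + k4 1 1 1 (cx lDN) - kap`, and `⟨f, lDD f⟩ = 2 ∑|f|² - 2 Re ∑ star f(x) f(x+1)`. -/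
def S_Q22 : Prop := ∀ (L : ℕ), 2 ≤ L → ∀ (θ : ℝ) (b : I2 L → ℂ),
  s12 L (fun x y z h => (1 / 2) * Real.cos (θ / 2) * (‖ex2 L b 0 (x + 1) y z h‖ ^ 2 + ‖ex2 L b 0 x y z h‖ ^ 2) -
      (ex2 L b 0 (x + 1) y z h * star (ex2 L b 0 x y z h)).re) +
    s23 L (fun x y z h => (1 / 2) * ‖ex2 L b 0 x y z h - ex2 L b 0 x y (z + 1) h‖ ^ 2) +
    s24 L (fun x y z h => (1 / 2) * ‖ex2 L b 0 x y z (h + 1) - ex2 L b 0 x y z h‖ ^ 2) =
  (1 / 2) * hf b (m22 L θ - g2 L θ * (g2 L θ)ᴴ) b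

/-- **Task AF-Q33** (finite sums; 120-200 lines).

Proof. As `AF-Q11`: `m33 - g3 g3ᴴ = k4 (cx lDD) 1 1 1 + k4 1 (diag lDD) 1 1 - k4 (phs θ 1 1) tm 1 1 - k4 (phs θ (-1) 1) tmᵀ 1 1 + k4 1 1 1 (cx lDN)`;
`‖ee θ (x/2) p - ee θ (-(x/2)) q‖² = ‖p‖² + ‖q‖² - 2 Re (ee θ x (star q) p)` with `p = B3 (y+1)`, `q = B3 y`, `x ≥ 1` the position: `phs θ 1 1` at the index `i = x - 1`
is `exp (iθ x)`. -/
def S_Q33 : Prop := ∀ (L : ℕ), 2 ≤ L → ∀ (θ : ℝ) (b : I3 L → ℂ),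
  s13 L (fun x y z h => (1 / 2) * ‖ex3 L b 0 (x + 1) y z h - ex3 L b 0 x y z h‖ ^ 2) +
    s23 L (fun x y z h => (1 / 2) * ‖ee θ (x / 2) * ex3 L b 0 x (y + 1) z h - ee θ (-(x / 2)) * ex3 L b 0 x y z h‖ ^ 2) +
    s34 L (fun x y z h => (1 / 2) * ‖ex3 L b 0 x y z (h + 1) - ex3 L b 0 x y z h‖ ^ 2) =
  (1 / 2) * hf b (m33 L θ - g3 L * (g3 L)ᴴ) b

/-- **Task AF-Q12** (finite sums; 120-200 lines).

Proof. Let `u_p = exp (iθp/2)` at the position `p` in the direction 1. `m12 - g1 g2ᴴ` has (row: link `j` in the direction 1 at the height `y` in the direction 2;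
column: site `p ∈ {j, j+1}`, link `k` in the direction 2) the entries: `p = j+1`, `y = k`: `u_j`; `p = j`, `y = k`: `-u_(j+1)`;
`p = j+1`, `y = k+1`: `-ū_j`; `p = j`, `y = k+1`: `ū_(j+1)` (`e1ᵀ` is the case `y = k`, `e0ᵀ` the case `y = k+1`; `c = -2 i sin (θ/4) = exp(-iθ/4) - exp(iθ/4)`,
`c exp(iθ(j+1/2)/2) = u_j - u_(j+1)`, `c exp(-iθ(j+1/2)/2) = ū_(j+1) - ū_j`; `g1` is `+1` for `p = j+1`, `-1` for `p = j`; `g2ᴴ` is `ū_p e0ᵀ - u_p e1ᵀ`). Terms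
outside of the index range are `0` on both sides. Each term on the left is the real part of the complex conjugate of the term on the right. -/
def S_Q12 : Prop := ∀ (L : ℕ), 2 ≤ L → ∀ (θ : ℝ) (a : I1 L → ℂ) (b : I2 L → ℂ),
  s12 L (fun x y z h => -(-(ee θ ((x + 1) / 2) * ex1 L a 0 x (y + 1) z h * star (ex2 L b 0 x y z h)) -
      ee θ (-(x / 2)) * ex1 L a 0 x y z h * star (ex2 L b 0 (x + 1) y z h) +
      ee θ (-(x / 2)) * ex2 L b 0 (x + 1) y z h * star (ex1 L a 0 x (y + 1) z h) +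
      ee θ (-((x + 1) / 2)) * ex1 L a 0 x y z h * star (ex2 L b 0 x y z h)).re) =
  hf a (m12 L θ - g1 L * (g2 L θ)ᴴ) b

/-- **Task AF-Q13** (finite sums; 100-180 lines).

Proof. `g1 g3ᴴ = k4 (cx dm) 1 (cx dmᵀ) 1` and `(dmᵀ a) = a(z..)`-differences: `⟨a, g1 g3ᴴ b⟩ = ⟨(1 ⊗ dm) a, (dm ⊗ 1) b⟩`: entries `dm j i = [i = j] - [i+1 = j]`, so
`(dm f)(x) = f(x+1) - f(x)` in positions, `x < L`, `f = 0` at `0` and `L`. So the left side, the sum over the plaquettes of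
`Re ((a z - a (z+1)) star (b (x+1) - b x))`, is `-Re ⟨a, g1 g3ᴴ b⟩`. -/
def S_Q13 : Prop := ∀ (L : ℕ), 2 ≤ L → ∀ (a : I1 L → ℂ) (b : I3 L → ℂ),
  s13 L (fun x y z h => ((ex1 L a 0 x y z h - ex1 L a 0 x y (z + 1) h) *
      star (ex3 L b 0 (x + 1) y z h - ex3 L b 0 x y z h)).re) =
  hf a (-(g1 L * (g3 L)ᴴ)) b

/-- **Task AF-Q23** (finite sums; 100-180 lines).

Proof. As `AF-Q13`; `g2` in positions: `(g2 f)(y) = exp(iθx/2) f(y+1) - exp(-iθx/2) f(y)`, `y < L`, at the site `x` of the direction 1 (`phs θ (1/2) 1` at the index `x-1`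
is `exp (iθx/2)`; `e0` is the upper end `y+1` of the link `y`, `e1` the lower one). -/
def S_Q23 : Prop := ∀ (L : ℕ), 2 ≤ L → ∀ (θ : ℝ) (a : I2 L → ℂ) (b : I3 L → ℂ),
  s23 L (fun x y z h => ((ex2 L a 0 x y z h - ex2 L a 0 x y (z + 1) h) *
      star (ee θ (x / 2) * ex3 L b 0 x (y + 1) z h - ee θ (-(x / 2)) * ex3 L b 0 x y z h)).re) =
  hf a (-(g2 L θ * (g3 L)ᴴ)) b

/-- **Task AF-HR** (reality, symmetry and bounds of the jet of `hC`; 120-200 lines; `S_LM` gives the smoothness).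

Proof. `hC θ i j` is a finite sum of products of real numbers with `exp (i θ p)`, `p` real, and `cos (θ/2)`, `sin (θ/4)·i`: the coefficient of `θ^k` is `i^k` times
a real number: `conj (hC θ i j) = hC (-θ) i j` (`phs (-θ) = conj`, `kap` is even and real, `m12`: `conj (-2 i sin (θ/4)) = 2 i sin(θ/4) = -2 i sin (-θ/4)`), hence
`hC 0` and `hC''(0)` are real and `hC'(0)` is imaginary. `hC θ` is Hermitian (the block of `mF θ`, part of `S_G1`, minus `V Vᴴ`), so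
`hC'(0)`, `hC''(0)` are Hermitian: `mB` antisymmetric, `mC` symmetric. Bounds: each entry is a sum of a bounded number of terms with the frequencies at most `L`. -/
def S_HR : Prop := ∃ C : ℝ, ∀ (L : ℕ), 2 ≤ L →
  hC L 0 = cx (mA L) ∧ (mA L).IsSymm ∧ (mB L)ᵀ = -mB L ∧ (mC L).IsSymm ∧
  (∀ i j, deriv (fun θ => hC L θ i j) 0 = Complex.I * (mB L i j : ℂ)) ∧
  (∀ i j, deriv (deriv fun θ => hC L θ i j) 0 = (mC L i j : ℂ)) ∧
  ∀ i j, |mA L i j| ≤ C ∧ |mB L i j| ≤ C * L ∧ |mC L i j| ≤ C * (L : ℝ) ^ 2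

/-- **Task AF-AI** (the inverse of the Hessian; 100-160 lines; uses `S_QF`, `S_HR`).

Proof. For a real field `f` (as a complex field) `f ⬝ mA f = hf f (hC L 0) f = 2 qf L 0 f = ∑_p (curl f)²` (at `θ = 0`, `q12 0 x a b c d = (1/2) ‖a + b - c - d‖²`),
which is at least the part of the vertical plaquettes `∑ (f(h+1) - f(h))² ≥ L⁻² ∑ f²` (`f = 0` at the height `0`), and at least
`s12 (c12 f ²) = f ⬝ mR f ≥ 0`. So `mA` is positive definite with `mA ≥ L⁻²`, `C = mA⁻¹ ≤ L²`, so `|C i j| ≤ L²` (`C ≥ 0` and `C i i ≤ L²`, Cauchy-Schwarz), and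
`tr (C mR) = tr (S mR S) ≤ tr (S mA S) = card (IH L) ≤ 3 L⁴` with `S = √C` (or `mR = Bᵀ B`, `tr (C Bᵀ B) = tr (B C Bᵀ)`; or: `mA - mR` is positive semidefinite and the trace of the
product of two positive semidefinite matrices is nonnegative), `≥ 0`. -/
def S_AI : Prop := ∀ (L : ℕ), 2 ≤ L → (mA L).PosDef ∧
  (∀ i j, |(mA L)⁻¹ i j| ≤ (L : ℝ) ^ 2) ∧ 0 ≤ ((mA L)⁻¹ * mR L).trace ∧
  ((mA L)⁻¹ * mR L).trace ≤ 3 * (L : ℝ) ^ 4 ∧ (∀ i j, |mR L i j| ≤ 10) ∧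
  ∀ f : IH L → ℝ, s12 L (fun x y z h => c12 f x y z h ^ 2) = ∑ i, ∑ j, mR L i j * f i * f j

/-- **Task AF-MO** (moments from Schwinger-Dyson identities; abstract; 120-200 lines).

Proof. `E f^j ≤ M^j + K^j p` (split at `f ≤ M`); all functions are bounded and measurable. From `sd1`: `β ∑_m Q i m E[φ_j φ_m] = δ_ij + E r_ij - β E[φ_j ρ_i]`,
`ρ_i = S i - ∑ Q φ`, `|ρ_i| ≤ K f²`; multiply by `C n i` and sum over `i` (`C Q = 1`): `|β E[φ_n φ_j] - C n j| ≤ K · K · (K E f + β K E f³)` (`card I ≤ K`). From `sd3` in the same way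
`β E[φ_n φ_j φ_k φ_l] = C n j E[φ_k φ_l] + C n k E[φ_j φ_l] + C n l E[φ_j φ_k] + O(K² (3 K E f³ + β K E f⁵))`; multiply by `β` and use the first part. -/
def S_MO : Prop := ∀ {Ω : Type} [MeasurableSpace Ω] (P : Measure Ω) [IsProbabilityMeasure P] {I : Type}
  [Fintype I] [DecidableEq I] (φ S : I → Ω → ℝ) (r : I → I → Ω → ℝ) (f : Ω → ℝ) (Q C : Matrix I I ℝ) (β K M p : ℝ),
  1 ≤ K → 1 ≤ β → 0 ≤ M → 0 ≤ p → (∀ i, Measurable (φ i)) → (∀ i, Measurable (S i)) → (∀ i j, Measurable (r i j)) →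
  Measurable f → (∀ i ω, |φ i ω| ≤ f ω) → (∀ ω, f ω ≤ K) →
  (∀ i ω, |S i ω - ∑ m, Q i m * φ m ω| ≤ K * f ω ^ 2) → (∀ i j ω, |r i j ω| ≤ K * f ω) → C * Q = 1 →
  (∀ i j, |C i j| ≤ K) → (Fintype.card I : ℝ) ≤ K → P.real {ω | M < f ω} ≤ p →
  (∀ i j, ∫ ω, ((if i = j then 1 else 0) + r i j ω) ∂P = β * ∫ ω, φ j ω * S i ω ∂P) →
  (∀ i j k l, ∫ ω, (((if i = j then 1 else 0) + r i j ω) * φ k ω * φ l ω +
      φ j ω * ((if i = k then 1 else 0) + r i k ω) * φ l ω +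
      φ j ω * φ k ω * ((if i = l then 1 else 0) + r i l ω)) ∂P = β * ∫ ω, φ j ω * φ k ω * φ l ω * S i ω ∂P) →
  (∀ i j, |β * ∫ ω, φ i ω * φ j ω ∂P - C i j| ≤ 100 * K ^ 9 * (M + β * M ^ 3 + β ^ 2 * M ^ 5 + (1 + β + β ^ 2) * p)) ∧
  ∀ i j k l, |β ^ 2 * ∫ ω, φ i ω * φ j ω * φ k ω * φ l ω ∂P - (C i j * C k l + C i k * C j l + C i l * C j k)| ≤
    100 * K ^ 9 * (M + β * M ^ 3 + β ^ 2 * M ^ 5 + (1 + β + β ^ 2) * p)

/-- **Task AF-LP** (the one-loop formula from the moments; abstract; 150-250 lines).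

Proof. Write `x_a = φ (x, a)`. `E[e2] = s0 + (1/2) ∑ A (E[x_0 y_0] + E[x_1 y_1]) - (1/8) ∑ R E[x_2 y_2] + O(K E f³)`, times `β`:
`β s0 + tr (C A) - (1/8) tr (C R) + O(card² K ε)` (`C` symmetric). `e1 = -q + O(K f³)`, `q = ∑ B x y x_0 y_1`, `|q| ≤ card² K f²`:
`β² E[e1²] = β² E[q²] + O(β² K⁴ E f⁵)` and
`β² E[q²] = ∑ B x y B z w β² E[x_0 y_1 z_0 w_1] = ∑ B x y B z w C x z C y w + O(card⁴ K² ε) = tr (C B C Bᵀ) + ..= -tr (C B C B) + ..` (the other two pairings vanish: different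
second components). `β E[e1] = -∑ B β E[x_0 y_1] + O(β K E f³) = O(card² K ε + β K E f³)`, and its square is at most `K^20 (ε + ..)²`; use `ε ≤ 1`-free bounds: the quantity is also
`≤ β² E[e1²]`-bounded; simplest: `(β E e1)² ≤ |β E e1| · (card² K ε + K β E f³)` and assume `ε ≤ 1` (hypothesis). `E f^j ≤ M^j + K^j p`. -/
def S_LP : Prop := ∀ {Ω : Type} [MeasurableSpace Ω] (P : Measure Ω) [IsProbabilityMeasure P] {Λ : Type}
  [Fintype Λ] [DecidableEq Λ] (φ : Λ × Fin 3 → Ω → ℝ) (f e1 e2 : Ω → ℝ) (A B C R : Matrix Λ Λ ℝ) (s0 β K M p ε : ℝ),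
  1 ≤ K → 1 ≤ β → 0 ≤ M → 0 ≤ p → 0 ≤ ε → ε ≤ 1 → (∀ i, Measurable (φ i)) → Measurable e1 → Measurable e2 →
  Measurable f → (∀ i ω, |φ i ω| ≤ f ω) → (∀ ω, f ω ≤ K) → (Fintype.card Λ : ℝ) ≤ K → C.IsSymm → Bᵀ = -B →
  (∀ i j, |A i j| ≤ K ∧ |B i j| ≤ K ∧ |C i j| ≤ K ∧ |R i j| ≤ K) → P.real {ω | M < f ω} ≤ p →
  M + β * M ^ 3 + β ^ 2 * M ^ 5 + (1 + β + β ^ 2) * p ≤ ε →
  (∀ x y : Λ × Fin 3, |β * ∫ ω, φ x ω * φ y ω ∂P - (if x.2 = y.2 then C x.1 y.1 else 0)| ≤ ε) →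
  (∀ x y z w : Λ × Fin 3, |β ^ 2 * ∫ ω, φ x ω * φ y ω * φ z ω * φ w ω ∂P -
    ((if x.2 = y.2 then C x.1 y.1 else 0) * (if z.2 = w.2 then C z.1 w.1 else 0) +
     (if x.2 = z.2 then C x.1 z.1 else 0) * (if y.2 = w.2 then C y.1 w.1 else 0) +
     (if x.2 = w.2 then C x.1 w.1 else 0) * (if y.2 = z.2 then C y.1 z.1 else 0))| ≤ ε) →
  (∀ ω, |e1 ω + ∑ x, ∑ y, B x y * φ (x, 0) ω * φ (y, 1) ω| ≤ K * f ω ^ 3) →
  (∀ ω, |e2 ω - s0 - (1 / 2) * ∑ x, ∑ y, A x y * (φ (x, 0) ω * φ (y, 0) ω + φ (x, 1) ω * φ (y, 1) ω) +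
    (1 / 8) * ∑ x, ∑ y, R x y * φ (x, 2) ω * φ (y, 2) ω| ≤ K * f ω ^ 3) →
  |β * ∫ ω, e2 ω ∂P - β ^ 2 * (∫ ω, e1 ω ^ 2 ∂P - (∫ ω, e1 ω ∂P) ^ 2) -
    (β * s0 + (C * A).trace + (C * B * C * B).trace - (1 / 8) * (C * R).trace)| ≤ 1000 * K ^ 20 * ε

/-- the Gibbs measure of the energy at `θ = 0` -/
def gb (μ : Measure SU) (L : ℕ) (β : ℝ) : Measure (IH L → SU) :=
  (Measure.pi fun _ => μ).withDensity fun σ => ENNReal.ofReal (Real.exp (-(β * en L 0 σ)) /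
    ∫ τ : IH L → SU, Real.exp (-(β * en L 0 τ)) ∂(Measure.pi fun _ => μ))

/-- **Task AF-PB** (the Gibbs measure; 50-90 lines; uses `S_EB` for the continuity of `en`).

Proof. `Zt = ∫ exp (-β en) > 0` (continuous positive integrand on a compact space, probability measure); `integral_withDensity_eq_integral_smul` /
`integral_withDensity_eq_integral_toReal_smul`; probability: `F = 1`. -/
def S_PB : Prop := ∀ (μ : Measure SU) [IsProbabilityMeasure μ] [μ.IsHaarMeasure] (L : ℕ), 2 ≤ L → ∀ β : ℝ,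
  IsProbabilityMeasure (gb μ L β) ∧ (0 < ∫ σ : IH L → SU, Real.exp (-(β * en L 0 σ)) ∂(Measure.pi fun _ => μ)) ∧
  ∀ F : (IH L → SU) → ℝ, ∫ σ, F σ ∂(gb μ L β) =
    (∫ σ, F σ * Real.exp (-(β * en L 0 σ)) ∂(Measure.pi fun _ => μ)) /
      ∫ σ : IH L → SU, Real.exp (-(β * en L 0 σ)) ∂(Measure.pi fun _ => μ)

/-- **Task AF-M3** (moments of the lattice model; 150-220 lines; uses `S_SD2`, `S_DP`, `S_DE`, `S_EB`, `S_AI`, `S_HR`, `S_TL`, `S_PB`, `S_MO`).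

Proof. `S_MO` with `P = gb μ L β`, `I = IH L × Fin 3`, `φ (l, a) σ = ph a (σ l)`, `f = 2 sz`, `S (l, a) = D` of `S_DE`, `r (l, a) (l', b) σ = if l = l' then r a b (σ l) else 0` (`S_DP`),
`Q (l, a) (l', b) = if a = b then mA l l' else 0`, `C` the same with `(mA L)⁻¹` (`C Q = 1`), `M = β^(-9/20)`, `p = β^(-9)` (`S_TL`, `S_PB`), `K = c L^6` with a constant `c`. The identities `sd1`, `sd3`:
`S_SD2` with `F = φ_j`, `F = φ_j φ_k φ_l` (product rule; bounded since everything is continuous on a compact space; divide by the partition function, `S_PB`). Finally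
`M + β M³ + β² M⁵ + (1 + β + β²) β^(-9) ≤ 6 β^(-1/4)`. -/
def S_M3 : Prop := ∃ (C : ℝ) (k K₀ : ℕ), 1 ≤ C ∧ ∀ (μ : Measure SU) [IsProbabilityMeasure μ] [μ.IsHaarMeasure] (L : ℕ),
  2 ≤ L → ∀ β : ℝ, (L : ℝ) ^ K₀ ≤ β → 
  (∀ x y : IH L × Fin 3, |β * ∫ σ, ph x.2 (σ x.1 : SU) * ph y.2 (σ y.1 : SU) ∂(gb μ L β) -
    (if x.2 = y.2 then (mA L)⁻¹ x.1 y.1 else 0)| ≤ C * (L : ℝ) ^ k * β ^ (-(1 / 4) : ℝ)) ∧
  (∀ x y z w : IH L × Fin 3, |β ^ 2 * ∫ σ, ph x.2 (σ x.1 : SU) * ph y.2 (σ y.1 : SU) * ph z.2 (σ z.1 : SU) *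
      ph w.2 (σ w.1 : SU) ∂(gb μ L β) -
    ((if x.2 = y.2 then (mA L)⁻¹ x.1 y.1 else 0) * (if z.2 = w.2 then (mA L)⁻¹ z.1 w.1 else 0) +
     (if x.2 = z.2 then (mA L)⁻¹ x.1 z.1 else 0) * (if y.2 = w.2 then (mA L)⁻¹ y.1 w.1 else 0) +
     (if x.2 = w.2 then (mA L)⁻¹ x.1 w.1 else 0) * (if y.2 = z.2 then (mA L)⁻¹ y.1 z.1 else 0))| ≤
    C * (L : ℝ) ^ k * β ^ (-(1 / 4) : ℝ)) ∧
  (gb μ L β).real {σ | β ^ (-(9 / 20) : ℝ) < 2 * sz σ} ≤ β ^ (-9 : ℝ)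

/-- **Task AF-E3** (the expansions in matrix form; 100-160 lines; uses `S_EX`, `S_QF`, `S_HR`, `S_AI`).

Proof. `qf L θ b = (1/2) hf b (hC L θ) b` is a finite sum, so its derivatives at `0` are `(1/2) hf b (i mB) b` and `(1/2) hf b mC b`; with `b = φ_0 + i φ_1`
(`ch q = ph 0 q + i ph 1 q`), `mB` antisymmetric: the first one is `-∑ mB x y φ_0 x φ_1 y`; `mC` symmetric: the second one is `(1/2) ∑ mC x y (φ_0 x φ_0 y + φ_1 x φ_1 y)`. The last sum: `S_AI`. -/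
def S_E3 : Prop := ∃ C : ℝ, ∀ (L : ℕ), 2 ≤ L → ∃ e1 e2 : ℝ → (IH L → SU) → ℝ,
  (∀ θ, Measurable (e1 θ)) ∧ (∀ θ, Measurable (e2 θ)) ∧
  (∀ θ σ, HasDerivAt (fun θ => en L θ σ) (e1 θ σ) θ ∧ HasDerivAt (fun θ => e1 θ σ) (e2 θ σ) θ ∧
    |e1 θ σ| ≤ C * (L : ℝ) ^ 6 ∧ |e2 θ σ| ≤ C * (L : ℝ) ^ 6 ∧ |en L θ σ| ≤ C * (L : ℝ) ^ 6) ∧
  ∀ σ, |e1 0 σ + ∑ x, ∑ y, mB L x y * ph 0 (σ x : SU) * ph 1 (σ y : SU)| ≤ C * (L : ℝ) ^ 6 * sz σ ^ 3 ∧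
    |e2 0 σ - (1 / 2) * (L : ℝ) ^ 3 * (L - 1) -
      (1 / 2) * ∑ x, ∑ y, mC L x y * (ph 0 (σ x : SU) * ph 0 (σ y : SU) + ph 1 (σ x : SU) * ph 1 (σ y : SU)) +
      (1 / 8) * ∑ x, ∑ y, mR L x y * ph 2 (σ x : SU) * ph 2 (σ y : SU)| ≤ C * (L : ℝ) ^ 6 * sz σ ^ 3

/-- the one-loop coefficient as an explicit sum of integrals -/
def LL (L : ℕ) : ℝ :=
  RI (lNN L) (lDD L) (lDD L) (lDN L) + RI (lDD L) (lNN L) (lDD L) (lDN L) + RI (lDD L) (lDD L) (lNN L) (lDN L) +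
    RI (lDD L) (lDD L) (lDD L) (lND L) - 2 * RI (lDD L) (lDD L) (lDD L) (lDN L) -
    (1 / 2) * (∫ t in Set.Ioi (0 : ℝ), cc (lNN L) t * cc (lDD L) t * cc (lDD L) t * cc (lDN L) t) -
    (1 / 2) * (∫ t in Set.Ioi (0 : ℝ), cc (lDD L) t * cc (lNN L) t * cc (lDD L) t * cc (lDN L) t) - (1 / 2) * BU L

/-- **Task AF-L1** (the determinants; 120-200 lines; uses `S_LA`, `S_LD`, `S_G1`, `S_G2`, `S_LM`, `S_LC`, `S_T`, `S_PD`).

Proof. `S_LA` with `M = mF L θ`, `V = gV L θ`, `U = g4 L` (`det (g4 L) ≠ 0`: `g4 = k4 1 1 1 (cx dm)` has the inverse `k4 1 1 1 (cx dm⁻¹)`, `k4 A B C D * k4 A' B' C' D' = k4 (A A') ..`; `det (dm L L) = 1`);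
`mF * fromRows gV g4 = fromRows gV g4 * lap`: `S_G1`, `S_G2` (block multiplication). So `det (mF θ) * |det g4|² = det (lap θ)² * det (hC θ)`, and `S_LD` gives `ld mF = 2 ld lap + ld hC` (the determinants of `lap 0`, `hC 0`
are then nonzero too). `S_LM`, `S_LC` (for `covL (1/2) lNN ..`, `covL 1 lDD lNN ..`, `m33`, `m44`, `lap`) and `S_T` (1), (3):
`(hk lNN t * nm * hk lDD s * nmᵀ).trace = nn L t s`, `(hk lDD t * nmᵀ * hk lNN s * nm).trace = nn L s t` (cyclicity). -/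
def S_L1 : Prop := ∀ L : ℕ, 2 ≤ L → ld (hC L) = ((LL L : ℝ) : ℂ) ∧ (hC L 0).det ≠ 0

/-- **Task AF-L2** (the logarithm; 60-120 lines; uses `S_I`, `S_J`, `S_K`, `S_A`, `S_B`, `S_C`, `S_N`, `S_CT`).

Proof. `S_I` for each `RI` (`a = aa A1`, `b = bb A2`, `c = cc A3`, `d = cc A4`; `cc A (t+s) ≤ C` for `L² ≤ t+s` and `aa ≤ L² cc`; `Tr2` from `S_C` and `S_CT`), `S_J` for `BU` (`n1 = nn L`, `n2 t s = nn L s t`), `S_K`
for the two traces: `(4 - 2)/(24π²) - (1/2)(2/π²) = 1/(12π²) - 12/(12π²) = -11/(12π²)`. -/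
def S_L2 : Prop := ∃ C : ℝ, ∀ L : ℕ, 2 ≤ L →
  |LL L + 11 / (12 * Real.pi ^ 2) * ((L : ℝ) ^ 4 * Real.log L)| ≤ C * (L : ℝ) ^ 4

/-- **Task AF-FN** (final assembly; 120-200 lines; uses `S_GF`, `S_ZD`, `S_LP`, `S_M3`, `S_E3`, `S_PB`, `S_EB`, `S_HR`, `S_AI`, `S_L1`, `S_L2`).

Proof. By `S_GF` the partition function is `∫ exp (-β en L θ σ)`; `S_ZD` (`Ω = IH L → SU`, `P = Measure.pi`) and `S_PB` express the second derivative by the moments of `e1 0`, `e2 0` under `gb μ L β`; `S_LP` with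
`φ (l, a) σ = ph a (σ l)`, `f = 2 sz`, `A = mC`, `B = mB`, `C = mA⁻¹`, `R = mR`, `s0 = (1/2) L³ (L-1)`, `M = β^(-9/20)`, `p = β^(-9)`, `K = c L^6`, `ε = c L^k β^(-1/4)`. `ld (hC L) = tr (C mC) + tr (C mB C mB)`
(`(i)² = -1`) `= LL L`, and `0 ≤ tr (C mR) ≤ 3 L⁴`. The error `1000 K^20 ε ≤ L⁴` for `β ≥ L^K₀`. -/
def S_FN : Prop := ∃ (K₀ : ℕ) (C : ℝ), ∀ (μ : Measure SU) [IsProbabilityMeasure μ] [μ.IsHaarMeasure] (L : ℕ), 2 ≤ L →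
  ∀ β : ℝ, (L : ℝ) ^ K₀ ≤ β →
  |deriv (deriv fun θ => -Real.log (ZZ μ L β θ)) 0 - (1 / 2) * (L : ℝ) ^ 3 * (L - 1) * β +
    11 / (12 * Real.pi ^ 2) * ((L : ℝ) ^ 4 * Real.log L)| ≤ C * (L : ℝ) ^ 4

end

end Pool.Agent.H586.AF
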