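import Pool.Agent.H586.AF.C

/-!
# Project AF: the running coupling
-/

set_option autoImplicit false

open MeasureTheory Finset Filter Topology

namespace Pool.Agent.H586.AF

noncomputable section

theorem fin2 (h : S_FN) : ∃ (K : ℕ) (C : ℝ), ∀ (μ : Measure SU) [IsProbabilityMeasure μ]
    [μ.IsHaarMeasure] (L : ℕ), 2 ≤ L → ∀ β : ℝ, (L : ℝ) ^ K ≤ β →
    |deriv (deriv fun θ => -Real.log (ZZ μ L β θ)) 0 -
      ((1 / 2) * (L : ℝ) ^ 3 * (L - 1) * β -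
        11 / (12 * Real.pi ^ 2) * ((L : ℝ) ^ 4 * Real.log L))| ≤ C * (L : ℝ) ^ 4 ∧
    |deriv (deriv fun θ => -Real.log (ZZ μ L β θ)) 0 / ((1 / 2) * (L : ℝ) ^ 3 * (L - 1)) -
      (β - 11 / (6 * Real.pi ^ 2) * Real.log L)| ≤ C := by
  obtain ⟨K, C, hC⟩ := h
  refine ⟨K, 4 * |C| + 1, fun μ _ _ L hL β hβ => ?_⟩
  have h1 := hC μ L hL β hβ
  set X := deriv (deriv fun θ => -Real.log (ZZ μ L β θ)) 0 with hX
  have hL2 : (2 : ℝ) ≤ L := by exact_mod_cast hL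
  have hL0 : (0 : ℝ) < L := by linarith
  have hL1 : (0 : ℝ) < (L : ℝ) - 1 := by linarith
  have hCa : C ≤ |C| := le_abs_self C
  have hlog0 : 0 ≤ Real.log L := Real.log_nonneg (by linarith)
  have hlog1 : Real.log L ≤ L - 1 := Real.log_le_sub_one_of_pos hL0
  have hpi : (0 : ℝ) < Real.pi := Real.pi_pos
  have hpi3 : (3 : ℝ) < Real.pi := Real.pi_gt_three
  have hpi2 : (9 : ℝ) < Real.pi ^ 2 := by nlinarith
  have e1 : X - ((1 / 2) * (L : ℝ) ^ 3 * (L - 1) * β -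
        11 / (12 * Real.pi ^ 2) * ((L : ℝ) ^ 4 * Real.log L)) =
      X - (1 / 2) * (L : ℝ) ^ 3 * (L - 1) * β +
        11 / (12 * Real.pi ^ 2) * ((L : ℝ) ^ 4 * Real.log L) := by ring
  have h4 : (0 : ℝ) < (L : ℝ) ^ 4 := by positivity
  constructor
  · rw [e1]
    refine h1.trans ?_
    have : C * (L : ℝ) ^ 4 ≤ |C| * (L : ℝ) ^ 4 := mul_le_mul_of_nonneg_right hCa h4.le
    nlinarith [abs_nonneg C]
  · have hD : (0 : ℝ) < (1 / 2) * (L : ℝ) ^ 3 * (L - 1) := by positivity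
    set Y := X - (1 / 2) * (L : ℝ) ^ 3 * (L - 1) * β +
        11 / (12 * Real.pi ^ 2) * ((L : ℝ) ^ 4 * Real.log L) with hY
    have e2 : X / ((1 / 2) * (L : ℝ) ^ 3 * (L - 1)) - (β - 11 / (6 * Real.pi ^ 2) * Real.log L) =
        Y / ((1 / 2) * (L : ℝ) ^ 3 * (L - 1)) -
          11 / (6 * Real.pi ^ 2) * (Real.log L / (L - 1)) := by
      have : (L : ℝ) - 1 ≠ 0 := hL1.ne'
      rw [hY]
      field_simp
      ring
    rw [e2]
    have h5 : |Y / ((1 / 2) * (L : ℝ) ^ 3 * (L - 1))| ≤ 4 * |C| := by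
      rw [abs_div, abs_of_pos hD, div_le_iff₀ hD]
      refine h1.trans ?_
      have h6 : (L : ℝ) ^ 4 ≤ 4 * ((1 / 2) * (L : ℝ) ^ 3 * (L - 1)) := by
        have : (0 : ℝ) < (L : ℝ) ^ 3 := by positivity
        nlinarith
      calc C * (L : ℝ) ^ 4 ≤ |C| * (L : ℝ) ^ 4 := mul_le_mul_of_nonneg_right hCa h4.le
        _ ≤ |C| * (4 * ((1 / 2) * (L : ℝ) ^ 3 * (L - 1))) :=
            mul_le_mul_of_nonneg_left h6 (abs_nonneg C)
        _ = 4 * |C| * ((1 / 2) * (L : ℝ) ^ 3 * (L - 1)) := by ring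
    have h7 : 0 ≤ Real.log L / (L - 1) := div_nonneg hlog0 hL1.le
    have h8 : Real.log L / (L - 1) ≤ 1 := by rw [div_le_one hL1]; exact hlog1
    have h9 : (0 : ℝ) ≤ 11 / (6 * Real.pi ^ 2) := by positivity
    have h10 : 11 / (6 * Real.pi ^ 2) ≤ 1 := by
      rw [div_le_one (by positivity)]
      nlinarith
    have h11 : |11 / (6 * Real.pi ^ 2) * (Real.log L / (L - 1))| ≤ 1 := by
      rw [abs_of_nonneg (mul_nonneg h9 h7)]
      calc _ ≤ (1 : ℝ) * 1 := mul_le_mul h10 h8 h7 (by norm_num)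
        _ = 1 := by norm_num
    calc |Y / ((1 / 2) * (L : ℝ) ^ 3 * (L - 1)) - 11 / (6 * Real.pi ^ 2) * (Real.log L / (L - 1))|
        ≤ |Y / ((1 / 2) * (L : ℝ) ^ 3 * (L - 1))| +
          |11 / (6 * Real.pi ^ 2) * (Real.log L / (L - 1))| := abs_sub _ _
      _ ≤ 4 * |C| + 1 := add_le_add h5 h11

end

end Pool.Agent.H586.AF
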