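import Pool.Agent.H136.AF.ZD

/-!
# Project AF: the partition function is positive and the free energy is twice differentiable
(the proof is that of `tzd` of helper136)
-/

set_option autoImplicit false

open MeasureTheory Filter Topology

namespace Pool.Agent.H586.AF

open Pool.Agent.H136.AF

/-- the partition function is positive and the free energy is twice differentiable -/
theorem zc {Ω : Type} [MeasurableSpace Ω] (P : Measure Ω) [IsProbabilityMeasure P]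
    (e e1 e2 : ℝ → Ω → ℝ) (K β : ℝ) (me : ∀ θ, Measurable (e θ)) (me1 : ∀ θ, Measurable (e1 θ))
    (me2 : ∀ θ, Measurable (e2 θ)) (he : ∀ θ ω, HasDerivAt (fun θ => e θ ω) (e1 θ ω) θ)
    (he1 : ∀ θ ω, HasDerivAt (fun θ => e1 θ ω) (e2 θ ω) θ)
    (hb : ∀ θ ω, |e θ ω| ≤ K ∧ |e1 θ ω| ≤ K ∧ |e2 θ ω| ≤ K) :
    (∀ θ, 0 < ∫ ω, Real.exp (-(β * e θ ω)) ∂P) ∧
    (Differentiable ℝ fun θ => -Real.log (∫ ω, Real.exp (-(β * e θ ω)) ∂P)) ∧
    Differentiable ℝ (deriv fun θ => -Real.log (∫ ω, Real.exp (-(β * e θ ω)) ∂P)) := by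
  set M : ℝ := Real.exp (|β| * |K|) with hM
  have hM1 : 0 < M := Real.exp_pos _
  have hK : ∀ θ ω, |e θ ω| ≤ |K| ∧ |e1 θ ω| ≤ |K| ∧ |e2 θ ω| ≤ |K| := fun θ ω =>
    ⟨(hb θ ω).1.trans (le_abs_self K), (hb θ ω).2.1.trans (le_abs_self K), (hb θ ω).2.2.trans (le_abs_self K)⟩
  have hexp : ∀ θ ω, |Real.exp (-(β * e θ ω))| ≤ M := by
    intro θ ω
    rw [abs_of_pos (Real.exp_pos _), hM]
    apply Real.exp_le_exp.2
    calc -(β * e θ ω) ≤ |β * e θ ω| := neg_le_abs _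
      _ = |β| * |e θ ω| := abs_mul _ _
      _ ≤ |β| * |K| := mul_le_mul_of_nonneg_left (hK θ ω).1 (abs_nonneg _)
  have mexp : ∀ θ, Measurable fun ω => Real.exp (-(β * e θ ω)) := fun θ =>
    Real.measurable_exp.comp ((me θ).const_mul β).neg
  have dexp : ∀ θ ω, HasDerivAt (fun θ => Real.exp (-(β * e θ ω))) (-β * (e1 θ ω * Real.exp (-(β * e θ ω)))) θ := by
    intro θ ω
    have h : HasDerivAt (fun θ => Real.exp (-(β * e θ ω))) (Real.exp (-(β * e θ ω)) * -(β * e1 θ ω)) θ :=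
      (((he θ ω).const_mul β).fun_neg).exp
    exact h.congr_deriv (by ring)
  have hA1 : ∀ θ ω, |e1 θ ω * Real.exp (-(β * e θ ω))| ≤ |K| * M := by
    intro θ ω
    rw [abs_mul]
    exact mul_le_mul (hK θ ω).2.1 (hexp θ ω) (abs_nonneg _) (abs_nonneg _)
  have hA2 : ∀ θ ω, |e2 θ ω * Real.exp (-(β * e θ ω))| ≤ |K| * M := by
    intro θ ω
    rw [abs_mul]
    exact mul_le_mul (hK θ ω).2.2 (hexp θ ω) (abs_nonneg _) (abs_nonneg _)
  have hA3 : ∀ θ ω, |e1 θ ω ^ 2 * Real.exp (-(β * e θ ω))| ≤ |K| ^ 2 * M := by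
    intro θ ω
    rw [abs_mul, abs_pow]
    exact mul_le_mul (pow_le_pow_left₀ (abs_nonneg _) (hK θ ω).2.1 2) (hexp θ ω) (abs_nonneg _) (by positivity)
  -- first derivative of Z
  have mA : ∀ θ, Measurable fun ω => e1 θ ω * Real.exp (-(β * e θ ω)) := fun θ => (me1 θ).mul (mexp θ)
  have mA2 : ∀ θ, Measurable fun ω => e2 θ ω * Real.exp (-(β * e θ ω)) := fun θ => (me2 θ).mul (mexp θ)
  have mA3 : ∀ θ, Measurable fun ω => e1 θ ω ^ 2 * Real.exp (-(β * e θ ω)) := fun θ =>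
    ((me1 θ).pow_const 2).mul (mexp θ)
  have hZ : ∀ θ, HasDerivAt (fun θ => ∫ ω, Real.exp (-(β * e θ ω)) ∂P)
      (-β * ∫ ω, e1 θ ω * Real.exp (-(β * e θ ω)) ∂P) θ := by
    intro θ
    have h := dint P (fun θ ω => Real.exp (-(β * e θ ω))) (fun θ ω => -β * (e1 θ ω * Real.exp (-(β * e θ ω))))
      (M + |β| * (|K| * M)) mexp (fun θ => (mA θ).const_mul (-β)) dexp
      (fun θ ω => (hexp θ ω).trans (le_add_of_nonneg_right (by positivity)))
      (fun θ ω => by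
        rw [abs_mul, abs_neg]
        exact (mul_le_mul_of_nonneg_left (hA1 θ ω) (abs_nonneg _)).trans (le_add_of_nonneg_left hM1.le)) θ
    rwa [integral_const_mul] at h
  have i2 : ∀ θ, Integrable (fun ω => e2 θ ω * Real.exp (-(β * e θ ω))) P := fun θ =>
    Integrable.of_bound (mA2 θ).aestronglyMeasurable (|K| * M) (Eventually.of_forall fun ω => by
      simpa [Real.norm_eq_abs] using hA2 θ ω)
  have i3 : ∀ θ, Integrable (fun ω => e1 θ ω ^ 2 * Real.exp (-(β * e θ ω))) P := fun θ =>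
    Integrable.of_bound (mA3 θ).aestronglyMeasurable (|K| ^ 2 * M) (Eventually.of_forall fun ω => by
      simpa [Real.norm_eq_abs] using hA3 θ ω)
  have hA : ∀ θ, HasDerivAt (fun θ => ∫ ω, e1 θ ω * Real.exp (-(β * e θ ω)) ∂P)
      ((∫ ω, e2 θ ω * Real.exp (-(β * e θ ω)) ∂P) - β * ∫ ω, e1 θ ω ^ 2 * Real.exp (-(β * e θ ω)) ∂P) θ := by
    intro θ
    have h := dint P (fun θ ω => e1 θ ω * Real.exp (-(β * e θ ω)))
      (fun θ ω => e2 θ ω * Real.exp (-(β * e θ ω)) - β * (e1 θ ω ^ 2 * Real.exp (-(β * e θ ω))))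
      (|K| * M + |β| * (|K| ^ 2 * M)) mA (fun θ => (mA2 θ).sub ((mA3 θ).const_mul β))
      (fun θ ω => by
        refine ((he1 θ ω).mul (dexp θ ω)).congr_deriv ?_
        ring)
      (fun θ ω => (hA1 θ ω).trans (le_add_of_nonneg_right (by positivity)))
      (fun θ ω => by
        refine (abs_sub _ _).trans ?_
        rw [abs_mul β]
        exact add_le_add (hA2 θ ω) (mul_le_mul_of_nonneg_left (hA3 θ ω) (abs_nonneg _))) θ
    rwa [integral_sub (i2 θ) ((i3 θ).const_mul β), integral_const_mul] at h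
  have hpos : ∀ θ, 0 < ∫ ω, Real.exp (-(β * e θ ω)) ∂P := by
    intro θ
    refine integral_exp_pos (Integrable.of_bound (mexp θ).aestronglyMeasurable M
      (Eventually.of_forall fun ω => by simpa [Real.norm_eq_abs] using hexp θ ω))
  have hd : (deriv fun θ => -Real.log (∫ ω, Real.exp (-(β * e θ ω)) ∂P)) =
      fun θ => β * ((∫ ω, e1 θ ω * Real.exp (-(β * e θ ω)) ∂P) / ∫ ω, Real.exp (-(β * e θ ω)) ∂P) := by
    funext θ
    have h := ((hZ θ).log (hpos θ).ne').fun_neg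
    rw [h.deriv]
    ring
  refine ⟨hpos, fun θ => ((hZ θ).log (hpos θ).ne').fun_neg.differentiableAt, ?_⟩
  rw [hd]
  intro θ
  exact (((hA θ).div (hZ θ) (hpos θ).ne').const_mul β).differentiableAt

end Pool.Agent.H586.AF
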