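import Pool.Agent.H586.AF.D
import Pool.Agent.H586.AF.Zc

/-!
# Project AF: the running coupling, every closed subgroup of `U(N)`
-/

set_option autoImplicit false

open MeasureTheory Matrix Finset Filter Topology
open scoped Matrix.Norms.Frobenius

namespace Pool.Agent.H586.AF.GG

noncomputable section

lemma ip_self_nonneg {N : ℕ} (X : Mt N) : 0 ≤ ip X X := by
  unfold ip
  rw [trace]
  simp only [diag_apply, mul_apply, conjTranspose_apply, Complex.re_sum]
  refine Finset.sum_nonneg fun i _ => Finset.sum_nonneg fun j _ => ?_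
  have : (star (X j i) * X j i).re = Complex.normSq (X j i) := by
    rw [Complex.star_def, mul_comm, Complex.mul_conj]
    simp
  rw [this]
  exact Complex.normSq_nonneg _

lemma ip_self_pos {N : ℕ} (X : Mt N) (hX : X ≠ 0) : 0 < ip X X := by
  refine lt_of_le_of_ne (ip_self_nonneg X) fun h => hX ?_
  have h1 : ∑ i, ∑ j, Complex.normSq (X j i) = 0 := by
    rw [h]
    unfold ip
    rw [trace]
    simp only [diag_apply, mul_apply, conjTranspose_apply, Complex.re_sum]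
    refine Finset.sum_congr rfl fun i _ => Finset.sum_congr rfl fun j _ => ?_
    rw [Complex.star_def, mul_comm, Complex.mul_conj]
    simp
  ext j i
  have h2 := (Finset.sum_eq_zero_iff_of_nonneg (fun i _ =>
    Finset.sum_nonneg fun j _ => Complex.normSq_nonneg (X j i))).1 h1 i (Finset.mem_univ i)
  have h3 := (Finset.sum_eq_zero_iff_of_nonneg (fun j _ => Complex.normSq_nonneg (X j i))).1 h2 j
    (Finset.mem_univ j)
  simpa using Complex.normSq_eq_zero.1 h3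

theorem finG (h : S_FN) (hGF : S_GF) (hE3 : S_E3) {N : ℕ} {G : Subgroup (UU N)} [MeasurableSpace G]
    [BorelSpace G] (hG : IsClosed (G : Set (UU N))) {n : ℕ} (T : Fin n → Mt N) (hT : Bas G T)
    (X : Mt N) (hX : X ∈ Lie G) : ∃ (K : ℕ) (C : ℝ), ∀ (μ : Measure G) [IsProbabilityMeasure μ]
    [μ.IsHaarMeasure] (L : ℕ), 2 ≤ L → 
    (∀ β : ℝ, (∀ θ, 0 < ZZ μ X L β θ) ∧ (Differentiable ℝ fun θ => -Real.log (ZZ μ X L β θ)) ∧
      Differentiable ℝ (deriv fun θ => -Real.log (ZZ μ X L β θ))) ∧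
    ∀ β : ℝ, (L : ℝ) ^ K ≤ β →
    |deriv (deriv fun θ => -Real.log (ZZ μ X L β θ)) 0 -
      (ip X X * (L : ℝ) ^ 3 * (L - 1) * β -
        11 / (24 * Real.pi ^ 2) * kil X T * ((L : ℝ) ^ 4 * Real.log L))| ≤ C * (L : ℝ) ^ 4 ∧
    (X ≠ 0 → |deriv (deriv fun θ => -Real.log (ZZ μ X L β θ)) 0 / (ip X X * (L : ℝ) ^ 3 * (L - 1)) -
      (β - 11 / (24 * Real.pi ^ 2) * (kil X T / ip X X) * Real.log L)| ≤ C) := by
  obtain ⟨K, C, hC⟩ := h hG T hT X hX
  obtain ⟨C3, hC3⟩ := hE3 hG T hT X hX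
  refine ⟨K, |C| + 2 * |C| / ip X X + |kil X T / ip X X|, fun μ _ _ L hL => ⟨fun β => ?_, fun β hβ => ?_⟩⟩
  · obtain ⟨e1, e2, m1, m2, m0, hd, -⟩ := hC3 L hL
    have hz := zc (Measure.pi fun _ : IH L => μ) (fun θ σ => en X L θ σ) e1 e2 (C3 * (L : ℝ) ^ 6) β m0 m1 m2
      (fun θ σ => (hd θ σ).1) (fun θ σ => (hd θ σ).2.1)
      (fun θ σ => ⟨(hd θ σ).2.2.2.2, (hd θ σ).2.2.1, (hd θ σ).2.2.2.1⟩)
    have e : (fun θ => ZZ μ X L β θ) = fun θ => ∫ σ : IH L → G, Real.exp (-(β * en X L θ σ))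
        ∂(Measure.pi fun _ => μ) := by
      funext θ
      exact hGF hG μ X hX L hL β θ
    have e' : (fun θ => -Real.log (ZZ μ X L β θ)) = fun θ => -Real.log (∫ σ : IH L → G,
        Real.exp (-(β * en X L θ σ)) ∂(Measure.pi fun _ => μ)) := by
      funext θ
      rw [hGF hG μ X hX L hL β θ]
    refine ⟨fun θ => ?_, ?_, ?_⟩
    · rw [hGF hG μ X hX L hL β θ]; exact hz.1 θ
    · rw [e']; exact hz.2.1
    · rw [e']; exact hz.2.2
  have h1 := hC μ L hL β hβ
  set Q := deriv (deriv fun θ => -Real.log (ZZ μ X L β θ)) 0 with hQ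
  set q := ip X X with hq
  set κ := kil X T with hκ
  have hL2 : (2 : ℝ) ≤ L := by exact_mod_cast hL
  have hL0 : (0 : ℝ) < L := by linarith
  have hL1 : (0 : ℝ) < (L : ℝ) - 1 := by linarith
  have hCa : C ≤ |C| := le_abs_self C
  have hlog0 : 0 ≤ Real.log L := Real.log_nonneg (by linarith)
  have hlog1 : Real.log L ≤ L - 1 := Real.log_le_sub_one_of_pos hL0
  have hpi3 : (3 : ℝ) < Real.pi := Real.pi_gt_three
  have hpi2 : (9 : ℝ) < Real.pi ^ 2 := by nlinarith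
  have hq0 : 0 ≤ q := ip_self_nonneg X
  have h4 : (0 : ℝ) < (L : ℝ) ^ 4 := by positivity
  have e1 : Q - (q * (L : ℝ) ^ 3 * (L - 1) * β -
        11 / (24 * Real.pi ^ 2) * κ * ((L : ℝ) ^ 4 * Real.log L)) =
      Q - q * (L : ℝ) ^ 3 * (L - 1) * β +
        11 / (24 * Real.pi ^ 2) * κ * ((L : ℝ) ^ 4 * Real.log L) := by ring
  have hd0 : 0 ≤ 2 * |C| / q := div_nonneg (by positivity) hq0
  have hk0 : 0 ≤ |κ / q| := abs_nonneg _
  constructor
  · rw [e1]
    refine h1.trans ?_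
    exact mul_le_mul_of_nonneg_right (by linarith) h4.le
  · intro hX0
    have hqp : 0 < q := ip_self_pos X hX0
    have hD : (0 : ℝ) < q * (L : ℝ) ^ 3 * (L - 1) := by positivity
    set Y := Q - q * (L : ℝ) ^ 3 * (L - 1) * β +
        11 / (24 * Real.pi ^ 2) * κ * ((L : ℝ) ^ 4 * Real.log L) with hY
    have e2 : Q / (q * (L : ℝ) ^ 3 * (L - 1)) - (β - 11 / (24 * Real.pi ^ 2) * (κ / q) * Real.log L) =
        Y / (q * (L : ℝ) ^ 3 * (L - 1)) -
          11 / (24 * Real.pi ^ 2) * (κ / q) * (Real.log L / (L - 1)) := by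
      have : (L : ℝ) - 1 ≠ 0 := hL1.ne'
      rw [hY]
      field_simp
      ring
    rw [e2]
    have h5 : |Y / (q * (L : ℝ) ^ 3 * (L - 1))| ≤ 2 * |C| / q := by
      rw [abs_div, abs_of_pos hD, div_le_div_iff₀ hD hqp]
      have h6 : (L : ℝ) ^ 4 ≤ 2 * ((L : ℝ) ^ 3 * (L - 1)) := by
        have : (0 : ℝ) < (L : ℝ) ^ 3 := by positivity
        nlinarith
      calc |Y| * q ≤ C * (L : ℝ) ^ 4 * q := mul_le_mul_of_nonneg_right h1 hqp.le
        _ ≤ |C| * (L : ℝ) ^ 4 * q :=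
            mul_le_mul_of_nonneg_right (mul_le_mul_of_nonneg_right hCa h4.le) hqp.le
        _ ≤ |C| * (2 * ((L : ℝ) ^ 3 * (L - 1))) * q :=
            mul_le_mul_of_nonneg_right (mul_le_mul_of_nonneg_left h6 (abs_nonneg C)) hqp.le
        _ = 2 * |C| * (q * (L : ℝ) ^ 3 * (L - 1)) := by ring
    have h7 : 0 ≤ Real.log L / (L - 1) := div_nonneg hlog0 hL1.le
    have h8 : Real.log L / (L - 1) ≤ 1 := by rw [div_le_one hL1]; exact hlog1
    have h9 : (0 : ℝ) ≤ 11 / (24 * Real.pi ^ 2) := by positivity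
    have h10 : 11 / (24 * Real.pi ^ 2) ≤ 1 := by
      rw [div_le_one (by positivity)]
      nlinarith
    have h11 : |11 / (24 * Real.pi ^ 2) * (κ / q) * (Real.log L / (L - 1))| ≤ |κ / q| := by
      rw [abs_mul, abs_mul, abs_of_nonneg h9, abs_of_nonneg h7]
      calc 11 / (24 * Real.pi ^ 2) * |κ / q| * (Real.log L / (L - 1)) ≤ 1 * |κ / q| * 1 :=
            mul_le_mul (mul_le_mul_of_nonneg_right h10 hk0) h8 h7 (by positivity)
        _ = |κ / q| := by ring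
    calc |Y / (q * (L : ℝ) ^ 3 * (L - 1)) - 11 / (24 * Real.pi ^ 2) * (κ / q) * (Real.log L / (L - 1))|
        ≤ |Y / (q * (L : ℝ) ^ 3 * (L - 1))| +
          |11 / (24 * Real.pi ^ 2) * (κ / q) * (Real.log L / (L - 1))| := abs_sub _ _
      _ ≤ 2 * |C| / q + |κ / q| := add_le_add h5 h11
      _ ≤ |C| + 2 * |C| / q + |κ / q| := by linarith [abs_nonneg C]

end

end Pool.Agent.H586.AF.GG
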