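import Pool.Agent.H586.AF.E
import Pool.Agent.H586.AF.CorG

/-!
# Project AF: convergence of the renormalised coupling
-/

set_option autoImplicit false

open MeasureTheory Matrix Finset Filter Topology
open scoped Matrix.Norms.Frobenius

namespace Pool.Agent.H586.AF.EE

noncomputable section

open Pool.Agent.H586.AF

theorem log_div : Tendsto (fun L : ℕ => Real.log L / ((L : ℝ) - 1)) atTop (𝓝 0) := by
  have h1 : Tendsto (fun x : ℝ => Real.log x / (1 * x + (-1))) atTop (𝓝 0) := by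
    have := Real.isLittleO_log_id_atTop
    have h2 : Tendsto (fun x : ℝ => Real.log x / x) atTop (𝓝 0) := by
      simpa using this.tendsto_div_nhds_zero
    have h3 : Tendsto (fun x : ℝ => x / (1 * x + (-1))) atTop (𝓝 1) := by
      have h4 : Tendsto (fun x : ℝ => 1 + 1 / (x - 1)) atTop (𝓝 (1 + 0)) := by
        refine tendsto_const_nhds.add ?_
        simp only [one_div]
        exact tendsto_inv_atTop_zero.comp (tendsto_atTop_add_const_right _ (-1) tendsto_id)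
      rw [add_zero] at h4
      refine h4.congr' ?_
      filter_upwards [eventually_gt_atTop (1 : ℝ)] with x hx
      have : x - 1 ≠ 0 := by linarith
      have h5 : 1 * x + -1 = x - 1 := by ring
      rw [h5]
      field_simp
      ring
    have h6 := h2.mul h3
    rw [zero_mul] at h6
    refine h6.congr' ?_
    filter_upwards [eventually_gt_atTop (1 : ℝ)] with x hx
    have : x ≠ 0 := by linarith
    have : 1 * x + -1 ≠ 0 := by linarith
    field_simp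
  have h7 := h1.comp tendsto_natCast_atTop_atTop
  refine h7.congr fun L => ?_
  simp only [Function.comp]
  congr 1
  ring

/-- the limit, uniformly in `β` -/
theorem finH (h3 : S_L3) (hR : S_R2) (hF : S_F2) : ∃ c : ℝ, ∀ {N : ℕ} {G : Subgroup (GG.UU N)}
    [MeasurableSpace G] [BorelSpace G], IsClosed (G : Set (GG.UU N)) → ∀ {n : ℕ} (T : Fin n → GG.Mt N),
    GG.Bas G T → ∀ X ∈ GG.Lie G, X ≠ 0 → ∃ K : ℕ, ∀ ε : ℝ, 0 < ε → ∃ L0 : ℕ,
    ∀ (μ : Measure G) [IsProbabilityMeasure μ] [μ.IsHaarMeasure] (L : ℕ), 2 ≤ L → L0 ≤ L →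
    ∀ β : ℝ, (L : ℝ) ^ K ≤ β →
    |deriv (deriv fun θ => -Real.log (GG.ZZ μ X L β θ)) 0 / (GG.ip X X * (L : ℝ) ^ 3 * (L - 1)) -
      (β - 11 / (24 * Real.pi ^ 2) * (GG.kil X T / GG.ip X X) * Real.log L) -
      (c * GG.kil X T - (1 / 16) * ∑ a, GG.hp X (T a) (T a)) / GG.ip X X| ≤ ε := by
  obtain ⟨c, hc⟩ := h3
  refine ⟨c / 2, ?_⟩
  intro N G _ _ hG n T hT X hX hX0
  obtain ⟨K, hK⟩ := hF hG T hT X hX
  refine ⟨K, fun ε hε => ?_⟩
  set q := GG.ip X X with hq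
  have hqp : 0 < q := GG.ip_self_pos X hX0
  set κ := GG.kil X T with hκ
  set η := ∑ a, GG.hp X (T a) (T a) with hη
  set R : ℕ → ℝ := fun L => ((mA L)⁻¹ * mR L).trace with hRdef
  -- the limit of the deterministic part
  have hLr : Tendsto (fun L : ℕ => 1 + 1 / ((L : ℝ) - 1)) atTop (𝓝 (1 + 0)) := by
    refine tendsto_const_nhds.add ?_
    simp only [one_div]
    exact tendsto_inv_atTop_zero.comp
      (tendsto_atTop_add_const_right _ (-1) tendsto_natCast_atTop_atTop)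
  rw [add_zero] at hLr
  have hinv : Tendsto (fun L : ℕ => 1 / ((L : ℝ) - 1)) atTop (𝓝 0) := by
    simp only [one_div]
    exact tendsto_inv_atTop_zero.comp
      (tendsto_atTop_add_const_right _ (-1) tendsto_natCast_atTop_atTop)
  have m1 : Tendsto (fun L : ℕ => ((1 / 2) * κ * (LL L / (L : ℝ) ^ 4 + 11 / (12 * Real.pi ^ 2) * Real.log L) *
      (1 + 1 / ((L : ℝ) - 1)) - (11 / (24 * Real.pi ^ 2)) * κ * (Real.log L / ((L : ℝ) - 1)) -
      (1 / 8) * η * (R L / (L : ℝ) ^ 4) * (1 + 1 / ((L : ℝ) - 1))) / q) atTop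
      (𝓝 (((1 / 2) * κ * c * 1 - (11 / (24 * Real.pi ^ 2)) * κ * 0 - (1 / 8) * η * (1 / 2) * 1) / q)) := by
    refine Tendsto.div_const ?_ q
    exact (((hc.const_mul _).mul hLr).sub (log_div.const_mul _)).sub ((hR.const_mul _).mul hLr)
  have m2 : ((1 / 2) * κ * c * 1 - (11 / (24 * Real.pi ^ 2)) * κ * 0 - (1 / 8) * η * (1 / 2) * 1) / q =
      (c / 2 * κ - (1 / 16) * η) / q := by ring
  rw [m2] at m1
  have m3 : Tendsto (fun L : ℕ => 1 / q * (1 / ((L : ℝ) - 1))) atTop (𝓝 (1 / q * 0)) := hinv.const_mul _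
  rw [mul_zero] at m3
  have e1 := (Metric.tendsto_nhds.1 m1) (ε / 2) (by positivity)
  have e2 := (Metric.tendsto_nhds.1 m3) (ε / 2) (by positivity)
  obtain ⟨L0, hL0⟩ := eventually_atTop.1 (e1.and e2)
  refine ⟨L0, fun μ _ _ L hL hLL β hβ => ?_⟩
  obtain ⟨f1, f2⟩ := hL0 L hLL
  rw [Real.dist_eq] at f1 f2
  have h1 := hK μ L hL β hβ
  set Q := deriv (deriv fun θ => -Real.log (GG.ZZ μ X L β θ)) 0 with hQ
  have hL2 : (2 : ℝ) ≤ L := by exact_mod_cast hL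
  have hLp : (0 : ℝ) < L := by linarith
  have hL1 : (0 : ℝ) < (L : ℝ) - 1 := by linarith
  have hD : (0 : ℝ) < q * (L : ℝ) ^ 3 * (L - 1) := by positivity
  set Y := Q - (q * (L : ℝ) ^ 3 * (L - 1) * β + (1 / 2) * κ * LL L - (1 / 8) * η * R L) with hY
  have hYle : |Y| ≤ 1 := h1
  set Dt := ((1 / 2) * κ * (LL L / (L : ℝ) ^ 4 + 11 / (12 * Real.pi ^ 2) * Real.log L) *
      (1 + 1 / ((L : ℝ) - 1)) - (11 / (24 * Real.pi ^ 2)) * κ * (Real.log L / ((L : ℝ) - 1)) -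
      (1 / 8) * η * (R L / (L : ℝ) ^ 4) * (1 + 1 / ((L : ℝ) - 1))) / q with hDt
  have key : Q / (q * (L : ℝ) ^ 3 * (L - 1)) - (β - 11 / (24 * Real.pi ^ 2) * (κ / q) * Real.log L) =
      Y / (q * (L : ℝ) ^ 3 * (L - 1)) + Dt := by
    have a1 : (L : ℝ) - 1 ≠ 0 := hL1.ne'
    have a2 : (L : ℝ) ≠ 0 := hLp.ne'
    have a3 : q ≠ 0 := hqp.ne'
    have a4 : Real.pi ≠ 0 := Real.pi_ne_zero
    rw [hY, hDt]
    field_simp
    ring
  have hYd : |Y / (q * (L : ℝ) ^ 3 * (L - 1))| ≤ 1 / q * (1 / ((L : ℝ) - 1)) := by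
    rw [abs_div, abs_of_pos hD, div_le_iff₀ hD]
    have a1 : (L : ℝ) - 1 ≠ 0 := hL1.ne'
    have a3 : q ≠ 0 := hqp.ne'
    have : 1 / q * (1 / ((L : ℝ) - 1)) * (q * (L : ℝ) ^ 3 * (L - 1)) = (L : ℝ) ^ 3 := by
      field_simp
    rw [this]
    exact hYle.trans (one_le_pow₀ (by linarith))
  have f3 : 1 / q * (1 / ((L : ℝ) - 1)) < ε / 2 := by
    have : 0 ≤ 1 / q * (1 / ((L : ℝ) - 1)) := by positivity
    rw [sub_zero, abs_of_nonneg this] at f2
    exact f2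
  rw [key]
  calc |Y / (q * (L : ℝ) ^ 3 * (L - 1)) + Dt - (c / 2 * κ - 1 / 16 * η) / q|
      = |Y / (q * (L : ℝ) ^ 3 * (L - 1)) + (Dt - (c / 2 * κ - 1 / 16 * η) / q)| := by
        congr 1; ring
    _ ≤ |Y / (q * (L : ℝ) ^ 3 * (L - 1))| + |Dt - (c / 2 * κ - 1 / 16 * η) / q| := abs_add_le _ _
    _ ≤ ε := by linarith

end

end Pool.Agent.H586.AF.EE
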