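import Pool.Agent.H586.AF.C

/-!
# Project AF, part D: every closed subgroup `G` of `U(N)`

The same theorem for an arbitrary closed subgroup `G` of `U(N)` and any element `X` of its Lie algebra. The tasks are
generalisations of those of `C.lean` (all proved for `SU(2)`; the files are named in the docstrings and may be adapted).
-/

set_option autoImplicit false
set_option linter.unusedVariables false

open MeasureTheory Matrix Finset Filter Topology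
open scoped Matrix.Norms.Frobenius

namespace Pool.Agent.H586.AF.GG

noncomputable section

/-- matrices -/
abbrev Mt (N : ℕ) := Matrix (Fin N) (Fin N) ℂ
/-- the unitary group -/
abbrev UU (N : ℕ) := Matrix.unitaryGroup (Fin N) ℂ

variable {N L : ℕ} {G : Subgroup (UU N)}

/-- the matrix -/
def mt (g : G) : Mt N := ((g : UU N) : Mt N)

/-- `Re tr (Aᴴ B)` -/
def ip (A B : Mt N) : ℝ := (trace (Aᴴ * B)).re

/-- the Lie algebra -/
def Lie (G : Subgroup (UU N)) : Set (Mt N) := {X | ∀ t : ℝ, ∃ g : G, mt g = NormedSpace.exp (t • X)}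

/-- `Re tr (1 - a b c⁻¹ d⁻¹)` -/
def pe (a b c d : Mt N) : ℝ := (trace (1 - a * b * cᴴ * dᴴ)).re

/-- the Wilson action of given link fields -/
def wil (L : ℕ) (U1 U2 U3 U4 : ℕ → ℕ → ℕ → ℕ → Mt N) : ℝ :=
  s12 L (fun x y z h => pe (U1 x y z h) (U2 (x + 1) y z h) (U1 x (y + 1) z h) (U2 x y z h)) +
  s13 L (fun x y z h => pe (U1 x y z h) (U3 (x + 1) y z h) (U1 x y (z + 1) h) (U3 x y z h)) +
  s23 L (fun x y z h => pe (U2 x y z h) (U3 x (y + 1) z h) (U2 x y (z + 1) h) (U3 x y z h)) +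
  s14 L (fun x y z h => pe (U1 x y z h) (U4 (x + 1) y z h) (U1 x y z (h + 1)) (U4 x y z h)) +
  s24 L (fun x y z h => pe (U2 x y z h) (U4 x (y + 1) z h) (U2 x y z (h + 1)) (U4 x y z h)) +
  s34 L (fun x y z h => pe (U3 x y z h) (U4 x y (z + 1) h) (U3 x y z (h + 1)) (U4 x y z h))

/-- the background field -/
def bg (X : Mt N) (θ x : ℝ) : Mt N := NormedSpace.exp ((θ * x) • X)

/-- the Wilson action of the box, with the background field `exp (x θ X)` on the frozen links of the direction 2 -/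
def act (X : Mt N) (L : ℕ) (θ : ℝ) (u : IH L → G) (v : I0 L → G) : ℝ :=
  wil L (ex1 L (fun i => mt (u (Sum.inl i))) 1)
    (fun x => ex2 L (fun i => mt (u (Sum.inr (Sum.inl i)))) (bg X θ x) x)
    (ex3 L (fun i => mt (u (Sum.inr (Sum.inr i)))) 1) (ex4 L (fun i => mt (v i)) 1)

/-- the partition function -/
def ZZ [MeasurableSpace G] (μ : Measure G) (X : Mt N) (L : ℕ) (β θ : ℝ) : ℝ :=
  ∫ u : IH L → G, ∫ v : I0 L → G, Real.exp (-(β * act X L θ u v)) ∂(Measure.pi fun _ => μ)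
    ∂(Measure.pi fun _ => μ)

/-- the energy in the temporal gauge and in the frame of the background -/
def en (X : Mt N) (L : ℕ) (θ : ℝ) (σ : IH L → G) : ℝ :=
  wil L (ex1 L (fun i => mt (σ (Sum.inl i))) 1)
    (fun x y z h => bg X θ (x / 2) * ex2 L (fun i => mt (σ (Sum.inr (Sum.inl i)))) 1 x y z h * bg X θ (x / 2))
    (ex3 L (fun i => mt (σ (Sum.inr (Sum.inr i)))) 1) (fun _ _ _ _ => 1)

/-- the size of the fluctuations -/
def sz (σ : IH L → G) : ℝ := ∑ l, ‖mt (σ l) - 1‖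

/-- the fluctuation -/
def wf (σ : IH L → G) (l : IH L) : Mt N := mt (σ l) - 1

/-- `Re tr (X p q)` -/
def kp (X p q : Mt N) : ℝ := (trace (X * p * q)).re

/-- `⟨[X, p], [X, q]⟩` -/
def gp (X p q : Mt N) : ℝ := ip (X * p - p * X) (X * q - q * X)

/-- `⟨{X, p}, {X, q}⟩` -/
def hp (X p q : Mt N) : ℝ := ip (X * p + p * X) (X * q + q * X)

/-- an orthonormal basis of the Lie algebra -/
structure Bas (G : Subgroup (UU N)) {n : ℕ} (T : Fin n → Mt N) : Prop where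
  mem : ∀ a, T a ∈ Lie G
  orth : ∀ a b, ip (T a) (T b) = if a = b then 1 else 0
  span : ∀ X ∈ Lie G, X = ∑ a, ip (T a) X • T a

/-- `-tr (ad X)²` -/
def kil {n : ℕ} (X : Mt N) (T : Fin n → Mt N) : ℝ := ∑ a, gp X (T a) (T a)

/-- the shift of one link -/
def sh {Λ : Type} [DecidableEq Λ] (γ : ℝ → G) (l : Λ) (t : ℝ) (σ : Λ → G) : Λ → G :=
  Function.update σ l (γ t * σ l)

/-- `γ t = exp (t T)` -/
def Grp (T : Mt N) (γ : ℝ → G) : Prop := ∀ t, mt (γ t) = NormedSpace.exp (t • T)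

/-- the curl in the plane 12 of a matrix field -/
def c12 (f : IH L → Mt N) (x y z h : ℕ) : Mt N :=
  ex1 L (fun i => f (Sum.inl i)) 0 x y z h + ex2 L (fun i => f (Sum.inr (Sum.inl i))) 0 (x + 1) y z h -
    ex1 L (fun i => f (Sum.inl i)) 0 x (y + 1) z h - ex2 L (fun i => f (Sum.inr (Sum.inl i))) 0 x y z h

/-- the Gibbs measure of the energy at `θ = 0` -/
def gb [MeasurableSpace G] (μ : Measure G) (L : ℕ) (β : ℝ) : Measure (IH L → G) :=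
  (Measure.pi fun _ => μ).withDensity fun σ => ENNReal.ofReal (Real.exp (-(β * en 0 L 0 σ)) /
    ∫ τ : IH L → G, Real.exp (-(β * en 0 L 0 τ)) ∂(Measure.pi fun _ => μ))

/-! ### Tasks -/

/-- **Task AG-LIE** (the Lie algebra of a closed subgroup; 200-280 lines).

Proof. Elements: `exp (t X)` unitary for all `t` gives `Xᴴ = -X` (differentiate). (i) If `g_n ∈ G`, `mt g_n = exp Y_n`, `Y_n → 0`, `Y_n ≠ 0`, `Y_n/‖Y_n‖ → Z` then `Z ∈ Lie G`: for real `t`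
let `k_n = ⌊t/‖Y_n‖⌋`, `g_n^(k_n) ∈ G` and `exp (k_n Y_n) → exp (t Z)`; `G` is closed in the compact group `UU N`. (ii) `Lie G` is a real subspace: scalar multiples clear; for the sum apply (i) to
`exp (X/n) exp (Y/n) = exp ((X+Y)/n + O(1/n²))` (logarithm near `1`), if `X + Y ≠ 0`. (iii) `Lie G` is closed (as `G` is) and `Ad`-invariant: `g Y g⁻¹ ∈ Lie G`, so `[X, Y]`, the derivative at `0` of
`exp (tX) Y exp (-tX)`, is in the closed subspace `Lie G`. (iv) `near`: suppose not; there are `g_n ∈ G`, `w_n = mt g_n - 1 → 0` (for `‖w‖ ≥ δ` the estimate is trivial with `C = 2 sup/δ²`), with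
`‖w_n - P w_n‖ > n ‖w_n‖²`, `P Y = ∑ ip (T a) Y • T a` the projection. Let `Y_n = log mt g_n = w_n + O(‖w_n‖²)`, `a_n = P Y_n`, `b_n = Y_n - a_n`, `‖b_n‖ ≥ (n - C') ‖w_n‖²`; `g_n exp (-a_n) ∈ G` and its logarithm is
`b_n + O(‖a_n‖ ‖Y_n‖) =: c_n`, `‖c_n - b_n‖ ≤ C'' ‖w_n‖² = o(‖b_n‖)`; along a subsequence `c_n/‖c_n‖ → Z` with `P Z = 0`, `‖Z‖ = 1`, and `Z ∈ Lie G` by (i), so `Z = P Z = 0`, a contradiction. (Instead of the
logarithm one may use `g = 1 + w`, `‖exp Y - 1 - Y‖ ≤ ‖Y‖²` for `‖Y‖ ≤ 1` and (i) in the form: `g_n ∈ G`, `w_n = mt g_n - 1 → 0`, `w_n/‖w_n‖ → Z` implies `Z ∈ Lie G`, with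
`mt g_n ^ k_n → exp (t Z)`, since `‖mt g - exp w‖ ≤ ‖w‖²` and both are bounded with powers bounded.) Existence of a basis: Gram-Schmidt in the finite dimensional real subspace with the form `ip`
(`‖A‖² = ip A A`; e.g. `stdOrthonormalBasis` after making `Mt N` with `ip` an inner product space, or induction on the dimension). -/
def S_LIE : Prop := ∀ {N : ℕ} (G : Subgroup (UU N)), IsClosed (G : Set (UU N)) →
  (∃ (n : ℕ) (T : Fin n → Mt N), Bas G T) ∧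
  ∀ {n : ℕ} (T : Fin n → Mt N), Bas G T → (∀ a, (T a)ᴴ = -T a) ∧ (∀ X ∈ Lie G, Xᴴ = -X) ∧
    (∀ X ∈ Lie G, ∀ Y ∈ Lie G, X * Y - Y * X ∈ Lie G) ∧
    ∃ C : ℝ, ∀ g : G, ‖mt g - 1 - ∑ a, ip (T a) (mt g - 1) • T a‖ ≤ C * ‖mt g - 1‖ ^ 2

/-- **Task AG-GF** (gauge fixing; adapt `helper297_AF_GF.lean`, store; same proof).

`bg X θ x` is in `G` for `X ∈ Lie G`, `bg X θ (x/2) * bg X θ (x/2) = bg X θ x`. -/
def S_GF : Prop := ∀ {N : ℕ} {G : Subgroup (UU N)} [MeasurableSpace G] [BorelSpace G], IsClosed (G : Set (UU N)) →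
  ∀ (μ : Measure G) [IsProbabilityMeasure μ] [μ.IsHaarMeasure] (X : Mt N), X ∈ Lie G → ∀ (L : ℕ), 2 ≤ L →
  ∀ β θ : ℝ, ZZ μ X L β θ = ∫ σ : IH L → G, Real.exp (-(β * en X L θ σ)) ∂(Measure.pi fun _ => μ)

/-- **Task AG-HB** (small balls; adapt `helper56_AF_HB.lean`, store: grid of the entries, now `2 N²` real coordinates; `(C/r)^(2N²)` cells). -/
def S_HB : Prop := ∀ {N : ℕ} {G : Subgroup (UU N)} [MeasurableSpace G] [BorelSpace G], IsClosed (G : Set (UU N)) →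
  ∃ c : ℝ, 0 < c ∧ c ≤ 1 ∧ ∀ (μ : Measure G) [IsProbabilityMeasure μ] [μ.IsHaarMeasure],
  ∀ r : ℝ, 0 < r → r ≤ 1 → c * r ^ (2 * N ^ 2) ≤ μ.real {g : G | ‖mt g - 1‖ ≤ r}

/-- **Task AG-SD** (Schwinger-Dyson identity; adapt `helper862_AF_SD2.lean`, store; same proof with `exp ((s+t) T) = exp (s T) exp (t T)`). -/
def S_SD : Prop := ∀ {N : ℕ} {G : Subgroup (UU N)} [MeasurableSpace G] [BorelSpace G], IsClosed (G : Set (UU N)) →
  ∀ (μ : Measure G) [IsProbabilityMeasure μ] [μ.IsHaarMeasure] {Λ : Type} [Fintype Λ]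
  [DecidableEq Λ] (l : Λ) (T : Mt N) (γ : ℝ → G), Grp T γ → ∀ (β C : ℝ) (F F' E E' : (Λ → G) → ℝ),
  Measurable F → Measurable F' → Measurable E → Measurable E' →
  (∀ σ, |F σ| ≤ C ∧ |F' σ| ≤ C ∧ |E σ| ≤ C ∧ |E' σ| ≤ C) →
  (∀ σ, HasDerivAt (fun t => F (sh γ l t σ)) (F' σ) 0) →
  (∀ σ, HasDerivAt (fun t => E (sh γ l t σ)) (E' σ) 0) →
  ∫ σ, F' σ * Real.exp (-(β * E σ)) ∂(Measure.pi fun _ => μ) =
    β * ∫ σ, F σ * E' σ * Real.exp (-(β * E σ)) ∂(Measure.pi fun _ => μ)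

/-- **Task AG-DE** (derivatives along the group; adapt `helper200_AF_DE.lean` and `helper658_AF_DP.lean`, store; `S_QF`, `S_HR` of `C.lean` as hypotheses).

Proof. (1) `(exp (t T) g)' = T g`, `ip S (T g) = ip S T + ip S (T (g - 1))`. (2) Single plaquettes: the derivative of `pe` in the direction `a ↦ exp (t T) a` is `-Re tr (T a b cᴴ dᴴ)`, etc. (four cases, signs as in
`C.lean`, task AF-DE), equal to `±ip T (w_a + w_b - w_c - w_d)` up to `100 f²`, `w = · - 1`, `f` the sum of the norms: terms of degree one: `-Re tr (T w) = ip T w` (`Tᴴ = -T`),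
`cᴴ - 1 = (c-1)ᴴ = -(c-1) - (c-1)(c-1)ᴴ` (`c` unitary). The sum over the plaquettes as there, with the real field `l ↦ ip T (wf σ l)`. -/
def S_DE : Prop := AF.S_QF → AF.S_HR → ∃ C : ℝ, ∀ {N : ℕ} {G : Subgroup (UU N)} (T : Mt N), Tᴴ = -T → ‖T‖ ≤ 1 →
  ∀ (γ : ℝ → G), Grp T γ → ∀ (L : ℕ), 2 ≤ L → ∀ l : IH L,
  (∀ (S : Mt N) (l' : IH L) (σ : IH L → G), HasDerivAt (fun t => ip S (wf (sh γ l t σ) l'))
    (if l = l' then ip S T + ip S (T * wf σ l) else 0) 0) ∧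
  ∃ D : (IH L → G) → ℝ, Continuous D ∧ ∀ σ, HasDerivAt (fun t => en 0 L 0 (sh γ l t σ)) (D σ) 0 ∧
    |D σ - ∑ l', AF.mA L l l' * ip T (wf σ l')| ≤ C * (1 + N) * (L : ℝ) ^ 4 * sz σ ^ 2

/-- **Task AG-EB** (bounds of the energy; adapt `helper181_AF_EB.lean`, store: now `pe a b c d = (1/2) ‖a b - d c‖²` with the Frobenius norm; `‖g - 1‖ ≤ 2 N`).

For `X = 0` the background is trivial. (The last part: boundedness and continuity in `σ` for general `X` are in `AG-EX`.) -/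
def S_EB : Prop := ∀ {N : ℕ} {G : Subgroup (UU N)} (L : ℕ), 2 ≤ L →
  (∀ σ : IH L → G, 0 ≤ en 0 L 0 σ ∧ sz σ ^ 2 ≤ 6 * (L : ℝ) ^ 6 * en 0 L 0 σ ∧
    en 0 L 0 σ ≤ 200 * (L : ℝ) ^ 4 * sz σ ^ 2 ∧ sz σ ≤ 6 * N * (L : ℝ) ^ 4) ∧
  (∀ (X : Mt N) (σ : IH L → G), en X L 0 σ = en 0 L 0 σ) ∧ Continuous (fun σ : IH L → G => en 0 L 0 σ) ∧
  (Fintype.card (IH L) : ℝ) ≤ 3 * (L : ℝ) ^ 4

/-- **Task AG-TL** (tail bound; adapt the file AF-TL of helper190; uses `S_HB`, `S_EB`; `K₀` may depend on `N`, `G`: `2 ^ K₀ ≤ L ^ K₀ ≤ β` absorbs all the constants). -/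
def S_TL : Prop := ∀ {N : ℕ} {G : Subgroup (UU N)} [MeasurableSpace G] [BorelSpace G], IsClosed (G : Set (UU N)) →
  ∃ K₀ : ℕ, ∀ (μ : Measure G) [IsProbabilityMeasure μ] [μ.IsHaarMeasure] (L : ℕ), 2 ≤ L →
  ∀ β : ℝ, (L : ℝ) ^ K₀ ≤ β →
  ∫ σ in {σ : IH L → G | β ^ (-(9 / 20) : ℝ) < 2 * sz σ}, Real.exp (-(β * en 0 L 0 σ)) ∂(Measure.pi fun _ => μ) ≤
    β ^ (-9 : ℝ) * ∫ σ : IH L → G, Real.exp (-(β * en 0 L 0 σ)) ∂(Measure.pi fun _ => μ)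

/-- **Task AG-PB** (the Gibbs measure; adapt `helper696_AF_PB.lean`, store; `S_EB` gives the continuity of `en`). -/
def S_PB : Prop := ∀ {N : ℕ} {G : Subgroup (UU N)} [MeasurableSpace G] [BorelSpace G], IsClosed (G : Set (UU N)) →
  ∀ (μ : Measure G) [IsProbabilityMeasure μ] [μ.IsHaarMeasure] (L : ℕ), 2 ≤ L → ∀ β : ℝ,
  IsProbabilityMeasure (gb μ L β) ∧ (0 < ∫ σ : IH L → G, Real.exp (-(β * en 0 L 0 σ)) ∂(Measure.pi fun _ => μ)) ∧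
  ∀ F : (IH L → G) → ℝ, ∫ σ, F σ ∂(gb μ L β) =
    (∫ σ, F σ * Real.exp (-(β * en 0 L 0 σ)) ∂(Measure.pi fun _ => μ)) /
      ∫ σ : IH L → G, Real.exp (-(β * en 0 L 0 σ)) ∂(Measure.pi fun _ => μ)

/-- the quadratic part of `pe'` in the plane 12 -/
def k12 (X : Mt N) (x : ℝ) (a b c d : Mt N) : ℝ :=
  -(2 * x + 1) * kp X a c - (x + 1) * kp X a d - (x + 1) * kp X c d + x * kp X a b - x * kp X b c

/-- the quadratic part of `pe''` in the plane 12, without the part with the anticommutator -/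
def g12 (X : Mt N) (x : ℝ) (a b c d : Mt N) : ℝ :=
  -(1 / 8) * (gp X a a + gp X b b + gp X c c + gp X d d) - (x + 1) ^ 2 / 4 * gp X c d - x ^ 2 / 4 * gp X a b +
    x ^ 2 / 4 * gp X b c + (x + 1) ^ 2 / 4 * gp X a d + (2 * x + 1) ^ 2 / 4 * gp X a c

/-- the quadratic part of `pe'` in the plane 23 -/
def k23 (X : Mt N) (x : ℝ) (a b c d : Mt N) : ℝ :=
  -x * (kp X b a - kp X b c - 2 * kp X b d + kp X d a - kp X d c)

/-- the quadratic part of `pe''` in the plane 23 -/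
def g23 (X : Mt N) (x : ℝ) (a b c d : Mt N) : ℝ :=
  x ^ 2 / 4 * gp X (b + d) (b + d) - x ^ 2 / 4 * gp X (b - d) (a - c + (b - d))

/-- **Task AG-P12** (one plaquette of the plane 12; matrix algebra; 200-300 lines; checked numerically).

Proof. `F θ = Re tr (1 - a E' b E' cᴴ E⁻¹ dᴴ E⁻¹)`, `E' = exp (θ (x+1)/2 X)`, `E⁻¹ = Eᴴ = exp (-θ x/2 X)` (`X` antihermitian): by the product rule `F' = -Re tr P'`, `F'' = -Re tr P''`, where `P'` is the sum of the four insertions of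
`α_s X` in the slots after `a, b, cᴴ, dᴴ`, `α = ((x+1)/2, (x+1)/2, -x/2, -x/2)`, `∑ α = 1`, and `P''` the double sum; everything is bounded (`a, .., d`, `E`, `E'` unitary). At `θ = 0` put `a = 1 + p`, `b = 1 + q`, `c = 1 + r`,
`d = 1 + s`, `rᴴ = -r - r rᴴ`, `p + pᴴ = -p pᴴ` etc. and expand. First derivative: degree 0: `Re tr X = 0`; degree 1: `Re tr (X (p + q + rᴴ + sᴴ)) = Re tr (X (p + q - r - s))` exactly (`Re tr (X r rᴴ) = 0`, since `X` is antihermitian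
and `r rᴴ` hermitian); degree 2 (products of two different ones, cyclic order, replace `rᴴ` by `-r` up to `O(f³)`, and `kp X p q = -kp X q p + O(f³)` by taking the adjoint): insertion after `a`: `-kp ab + kp ac + kp ad - kp bc - kp bd + kp cd`;
after `b`: all six with `+`; after `c`: `+ab - ac + ad - bc + bd - cd`; after `d`: `+ab - ac - ad - bc - bd + cd` (here `ab` stands for `kp X p q` etc.); the combination with `-α_s` is `k12`. Second derivative: degree 0: `-Re tr X² = ‖X‖²`; degree 1: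
`-Re tr (X² (p + q + rᴴ + sᴴ)) = (1/2) ∑ Re tr (X² p pᴴ)` (`Re tr (X² p) = (1/2) tr (X² (p + pᴴ))`); degree 2: each pair gives a combination of `u = Re tr (X² p q) = Re tr (X² q p) + O(f³)` and `m = Re tr (X p X q)`; and
`gp X p q = 2 u - 2 m + O(f³)`, `hp X p q = 2 u + 2 m + O(f³)`. `hp X w w` with `w = p + q - r - s`. All the remainders: products of at least three factors, `f ≤ 8 √N`. -/
def S_P12 : Prop := ∀ (N : ℕ) (X : Mt N), Xᴴ = -X → ∃ C : ℝ, ∀ (a b c d : UU N) (x : ℝ), 0 ≤ x →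
  ∃ F1 F2 : ℝ → ℝ, Continuous F1 ∧ Continuous F2 ∧
    (∀ θ, HasDerivAt (fun θ => pe (a : Mt N) (bg X θ ((x + 1) / 2) * b * bg X θ ((x + 1) / 2)) c
        (bg X θ (x / 2) * d * bg X θ (x / 2))) (F1 θ) θ ∧
      HasDerivAt F1 (F2 θ) θ ∧ |F1 θ| ≤ C * (1 + x) ^ 2 ∧ |F2 θ| ≤ C * (1 + x) ^ 2) ∧
    |F1 0 + (trace (X * ((a : Mt N) - 1 + ((b : Mt N) - 1) - ((c : Mt N) - 1) - ((d : Mt N) - 1)))).re -
      k12 X x ((a : Mt N) - 1) ((b : Mt N) - 1) ((c : Mt N) - 1) ((d : Mt N) - 1)| ≤ C * (1 + x) ^ 2 *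
        (‖(a : Mt N) - 1‖ + ‖(b : Mt N) - 1‖ + ‖(c : Mt N) - 1‖ + ‖(d : Mt N) - 1‖) ^ 3 ∧
    |F2 0 - ip X X + (1 / 8) * hp X ((a : Mt N) - 1 + ((b : Mt N) - 1) - ((c : Mt N) - 1) - ((d : Mt N) - 1))
        ((a : Mt N) - 1 + ((b : Mt N) - 1) - ((c : Mt N) - 1) - ((d : Mt N) - 1)) -
      g12 X x ((a : Mt N) - 1) ((b : Mt N) - 1) ((c : Mt N) - 1) ((d : Mt N) - 1)| ≤ C * (1 + x) ^ 2 *
        (‖(a : Mt N) - 1‖ + ‖(b : Mt N) - 1‖ + ‖(c : Mt N) - 1‖ + ‖(d : Mt N) - 1‖) ^ 3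

/-- **Task AG-P23** (one plaquette of the plane 23; matrix algebra; 200-300 lines; checked numerically).

Proof. As `AG-P12` (read its proof), with `F θ = Re tr (1 - E a E b E⁻¹ cᴴ E⁻¹ dᴴ)`, insertions of `α_s X` before `a`, after `a`, before `cᴴ` (i.e. after `b`), after `cᴴ`, with `α = (x/2, x/2, -x/2, -x/2)`, `∑ α = 0`. -/
def S_P23 : Prop := ∀ (N : ℕ) (X : Mt N), Xᴴ = -X → ∃ C : ℝ, ∀ (a b c d : UU N) (x : ℝ), 0 ≤ x →
  ∃ F1 F2 : ℝ → ℝ, Continuous F1 ∧ Continuous F2 ∧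
    (∀ θ, HasDerivAt (fun θ => pe (bg X θ (x / 2) * (a : Mt N) * bg X θ (x / 2)) b
        (bg X θ (x / 2) * c * bg X θ (x / 2)) d) (F1 θ) θ ∧
      HasDerivAt F1 (F2 θ) θ ∧ |F1 θ| ≤ C * (1 + x) ^ 2 ∧ |F2 θ| ≤ C * (1 + x) ^ 2) ∧
    |F1 0 - k23 X x ((a : Mt N) - 1) ((b : Mt N) - 1) ((c : Mt N) - 1) ((d : Mt N) - 1)| ≤ C * (1 + x) ^ 2 *
        (‖(a : Mt N) - 1‖ + ‖(b : Mt N) - 1‖ + ‖(c : Mt N) - 1‖ + ‖(d : Mt N) - 1‖) ^ 3 ∧
    |F2 0 - g23 X x ((a : Mt N) - 1) ((b : Mt N) - 1) ((c : Mt N) - 1) ((d : Mt N) - 1)| ≤ C * (1 + x) ^ 2 *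
        (‖(a : Mt N) - 1‖ + ‖(b : Mt N) - 1‖ + ‖(c : Mt N) - 1‖ + ‖(d : Mt N) - 1‖) ^ 3

/-- **Task AG-EX** (sum over the plaquettes; adapt `helper120_AF_EX.lean`, store; uses `S_P12`, `S_P23`).

Proof. As `AF-EX`: the sum over the plaquettes of `-Re tr (X curl w)` telescopes to `0`; `w = 0` on the frozen links; the planes 13, 14, 24, 34 do not depend on `θ` (plane 24: `pe (E a E) 1 (E c E) 1 = pe a 1 c 1`, cyclicity, `E` unitary). The constants depend on `N` and `X`. -/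
def S_EX : Prop := ∀ {N : ℕ} {G : Subgroup (UU N)} [MeasurableSpace G] [BorelSpace G], IsClosed (G : Set (UU N)) → ∀ (X : Mt N), Xᴴ = -X →
  ∃ C : ℝ, ∀ (L : ℕ), 2 ≤ L → ∃ e1 e2 : ℝ → (IH L → G) → ℝ,
  (∀ θ, Measurable (e1 θ)) ∧ (∀ θ, Measurable (e2 θ)) ∧ (∀ θ, Measurable fun σ : IH L → G => en X L θ σ) ∧
  (∀ θ σ, HasDerivAt (fun θ => en X L θ σ) (e1 θ σ) θ ∧ HasDerivAt (fun θ => e1 θ σ) (e2 θ σ) θ ∧
    |e1 θ σ| ≤ C * (L : ℝ) ^ 6 ∧ |e2 θ σ| ≤ C * (L : ℝ) ^ 6 ∧ |en X L θ σ| ≤ C * (L : ℝ) ^ 6) ∧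
  ∀ σ, let W1 := ex1 L (fun i => wf σ (Sum.inl i)) 0
    let W2 := ex2 L (fun i => wf σ (Sum.inr (Sum.inl i))) 0
    let W3 := ex3 L (fun i => wf σ (Sum.inr (Sum.inr i))) 0
    |e1 0 σ - (s12 L (fun x y z h => k12 X x (W1 x y z h) (W2 (x + 1) y z h) (W1 x (y + 1) z h) (W2 x y z h)) +
      s23 L (fun x y z h => k23 X x (W2 x y z h) (W3 x (y + 1) z h) (W2 x y (z + 1) h) (W3 x y z h)))| ≤
        C * (L : ℝ) ^ 6 * sz σ ^ 3 ∧
    |e2 0 σ - ip X X * (L : ℝ) ^ 3 * (L - 1) -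
      (s12 L (fun x y z h => g12 X x (W1 x y z h) (W2 (x + 1) y z h) (W1 x (y + 1) z h) (W2 x y z h)) +
      s23 L (fun x y z h => g23 X x (W2 x y z h) (W3 x (y + 1) z h) (W2 x y (z + 1) h) (W3 x y z h))) +
      (1 / 8) * s12 L (fun x y z h => hp X (c12 (wf σ) x y z h) (c12 (wf σ) x y z h))| ≤ C * (L : ℝ) ^ 6 * sz σ ^ 3

/-- **Task AG-SP** (scalar identities for the quadratic forms; 150-220 lines; uses `S_QF`, `S_HR` of `C.lean`).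

Proof. Differentiate the identity `qf L θ b = (1/2) hf b (hC L θ) b` (`S_QF`) once and twice at `θ = 0` (the terms of the planes 13, 14, 24, 34 do not depend on `θ`; `hC'(0) = i mB`, `hC''(0) = mC`, `S_HR`): for complex fields `b`, with
`K(p, q) = -(1/2) Re (i p star q)`, `∂_θ q12 (0, x; a, b, c, d) = -(2x+1) K(a,c) - (x+1) K(a,d) - (x+1) K(c,d) + x K(a,b) - x K(b,c)` and `∂_θ q23 = -x (K(b,a) - K(b,c) - 2 K(b,d) + K(d,a) - K(d,c))`, and with `R(p, q) = Re (p star q)` the second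
derivatives are the forms of `g12`, `g23` with `gp X` replaced by `R`. (1): take `b = f + i g`, `f`, `g` real: `K(p, q) = (1/2)(p.im q.re - p.re q.im)`. (2): take `b` real, polarize. -/
def S_SP : Prop := AF.S_QF → AF.S_HR → ∀ (L : ℕ), 2 ≤ L → ∀ f g : IH L → ℝ,
  let e1 := fun u : IH L → ℝ => ex1 L (fun i => u (Sum.inl i)) 0
  let e2 := fun u : IH L → ℝ => ex2 L (fun i => u (Sum.inr (Sum.inl i))) 0
  let e3 := fun u : IH L → ℝ => ex3 L (fun i => u (Sum.inr (Sum.inr i))) 0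
  let w := fun p q : ℝ × ℝ => p.1 * q.2 - p.2 * q.1
  let r := fun p q : ℝ × ℝ => p.1 * q.2 + p.2 * q.1
  let A := fun x y z h => (e1 f x y z h, e1 g x y z h)
  let B := fun x y z h => (e2 f x y z h, e2 g x y z h)
  let D := fun x y z h => (e3 f x y z h, e3 g x y z h)
  (s12 L (fun x y z h => -(2 * x + 1) * w (A x y z h) (A x (y + 1) z h) - (x + 1) * w (A x y z h) (B x y z h) -
      (x + 1) * w (A x (y + 1) z h) (B x y z h) + x * w (A x y z h) (B (x + 1) y z h) -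
      x * w (B (x + 1) y z h) (A x (y + 1) z h)) +
    s23 L (fun x y z h => -x * (w (D x (y + 1) z h) (B x y z h) - w (D x (y + 1) z h) (B x y (z + 1) h) -
      2 * w (D x (y + 1) z h) (D x y z h) + w (D x y z h) (B x y z h) - w (D x y z h) (B x y (z + 1) h))) =
    2 * ∑ i, ∑ j, AF.mB L i j * f i * g j) ∧
  (s12 L (fun x y z h => -(1 / 8) * (r (A x y z h) (A x y z h) + r (B (x + 1) y z h) (B (x + 1) y z h) +
      r (A x (y + 1) z h) (A x (y + 1) z h) + r (B x y z h) (B x y z h)) -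
      (x + 1) ^ 2 / 4 * r (A x (y + 1) z h) (B x y z h) - x ^ 2 / 4 * r (A x y z h) (B (x + 1) y z h) +
      x ^ 2 / 4 * r (B (x + 1) y z h) (A x (y + 1) z h) + (x + 1) ^ 2 / 4 * r (A x y z h) (B x y z h) +
      (2 * x + 1) ^ 2 / 4 * r (A x y z h) (A x (y + 1) z h)) +
    s23 L (fun x y z h => x ^ 2 / 4 * r (D x (y + 1) z h + D x y z h) (D x (y + 1) z h + D x y z h) -
      x ^ 2 / 4 * r (D x (y + 1) z h - D x y z h)
        (B x y z h - B x y (z + 1) h + (D x (y + 1) z h - D x y z h))) =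
    ∑ i, ∑ j, AF.mC L i j * f i * g j)

/-- **Task AG-E3** (the expansions in a basis; 150-220 lines; uses `S_EX`, `S_SP`, `S_LIE`, and `S_AI` of `C.lean`).

Proof. Write `φ_a l = ip (T a) (wf σ l)`, `wf σ l = ∑ φ_a l • T a + O(‖wf σ l‖²)` (`S_LIE`): in the quadratic forms of `S_EX` replace `wf` by `∑ φ_a • T a`, error `O(L^6 sz³)`. `kp X (T a) (T b) =: k_ab` is antisymmetric
(adjoint: `X`, `T a` antihermitian), so `kp X p q = ∑_(a<b) k_ab (p_a q_b - p_b q_a) = (1/2) ∑_(a,b) k_ab w((p_a, p_b), (q_a, q_b))` and `S_SP` (1) with `f = φ_a`, `g = φ_b` gives `(1/2) ∑ k_ab · 2 ∑ mB i j φ_a i φ_b j`. `gp X p q = ∑ g_ab p_a q_b`,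
`g_ab = gp X (T a) (T b)` symmetric, `= (1/2) ∑ g_ab r((p_a, p_b), (q_a, q_b))`, `S_SP` (2): `(1/2) ∑ g_ab ∑ mC i j φ_a i φ_b j`. `hp` is bilinear and symmetric: `S_AI`, polarized: `s12 (c12 f · c12 g) = ∑ mR i j f i g j`. -/
def S_E3 : Prop := ∀ {N : ℕ} {G : Subgroup (UU N)} [MeasurableSpace G] [BorelSpace G], IsClosed (G : Set (UU N)) →
  ∀ {n : ℕ} (T : Fin n → Mt N), Bas G T → ∀ X ∈ Lie G,
  ∃ C : ℝ, ∀ (L : ℕ), 2 ≤ L → ∃ e1 e2 : ℝ → (IH L → G) → ℝ,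
  (∀ θ, Measurable (e1 θ)) ∧ (∀ θ, Measurable (e2 θ)) ∧ (∀ θ, Measurable fun σ : IH L → G => en X L θ σ) ∧
  (∀ θ σ, HasDerivAt (fun θ => en X L θ σ) (e1 θ σ) θ ∧ HasDerivAt (fun θ => e1 θ σ) (e2 θ σ) θ ∧
    |e1 θ σ| ≤ C * (L : ℝ) ^ 6 ∧ |e2 θ σ| ≤ C * (L : ℝ) ^ 6 ∧ |en X L θ σ| ≤ C * (L : ℝ) ^ 6) ∧
  ∀ σ, |e1 0 σ - ∑ x, ∑ y, ∑ a, ∑ b, AF.mB L x y * kp X (T a) (T b) * ip (T a) (wf σ x) * ip (T b) (wf σ y)| ≤
      C * (L : ℝ) ^ 6 * sz σ ^ 3 ∧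
    |e2 0 σ - ip X X * (L : ℝ) ^ 3 * (L - 1) -
      (1 / 2) * ∑ x, ∑ y, ∑ a, ∑ b, AF.mC L x y * gp X (T a) (T b) * ip (T a) (wf σ x) * ip (T b) (wf σ y) +
      (1 / 8) * ∑ x, ∑ y, ∑ a, ∑ b, AF.mR L x y * hp X (T a) (T b) * ip (T a) (wf σ x) * ip (T b) (wf σ y)| ≤
      C * (L : ℝ) ^ 6 * sz σ ^ 3

/-- **Task AG-M3** (moments; adapt the file AF-M3 of helper51; uses `AF.S_MO`, `AF.S_HR`, `AF.S_AI`, `AF.S_QF`, `S_SD`, `S_DE`, `S_EB`, `S_TL`, `S_PB`, `S_LIE`).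

Proof. As `AF-M3` with `I = IH L × Fin n`, `φ (l, a) σ = ip (T a) (wf σ l)`, `|φ| ≤ ‖wf σ l‖ ≤ 2 sz` (`‖T a‖ = 1`), `r (l, a) (l', b) σ = if l = l' then ip (T b) (T a * wf σ l) else 0`. -/
def S_M3 : Prop := ∀ {N : ℕ} {G : Subgroup (UU N)} [MeasurableSpace G] [BorelSpace G], IsClosed (G : Set (UU N)) →
  ∀ {n : ℕ} (T : Fin n → Mt N), Bas G T →
  ∃ (C : ℝ) (k K₀ : ℕ), 1 ≤ C ∧ ∀ (μ : Measure G) [IsProbabilityMeasure μ] [μ.IsHaarMeasure] (L : ℕ),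
  2 ≤ L → ∀ β : ℝ, (L : ℝ) ^ K₀ ≤ β →
  (∀ x y : IH L × Fin n, |β * ∫ σ, ip (T x.2) (wf σ x.1) * ip (T y.2) (wf σ y.1) ∂(gb μ L β) -
    (if x.2 = y.2 then (AF.mA L)⁻¹ x.1 y.1 else 0)| ≤ C * (L : ℝ) ^ k * β ^ (-(1 / 4) : ℝ)) ∧
  (∀ x y z w : IH L × Fin n, |β ^ 2 * ∫ σ, ip (T x.2) (wf σ x.1) * ip (T y.2) (wf σ y.1) * ip (T z.2) (wf σ z.1) *
      ip (T w.2) (wf σ w.1) ∂(gb μ L β) -
    ((if x.2 = y.2 then (AF.mA L)⁻¹ x.1 y.1 else 0) * (if z.2 = w.2 then (AF.mA L)⁻¹ z.1 w.1 else 0) +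
     (if x.2 = z.2 then (AF.mA L)⁻¹ x.1 z.1 else 0) * (if y.2 = w.2 then (AF.mA L)⁻¹ y.1 w.1 else 0) +
     (if x.2 = w.2 then (AF.mA L)⁻¹ x.1 w.1 else 0) * (if y.2 = z.2 then (AF.mA L)⁻¹ y.1 z.1 else 0))| ≤
    C * (L : ℝ) ^ k * β ^ (-(1 / 4) : ℝ)) ∧
  (gb μ L β).real {σ | β ^ (-(9 / 20) : ℝ) < 2 * sz σ} ≤ β ^ (-9 : ℝ)

/-- **Task AG-LP** (the one-loop formula from the moments; abstract; adapt `helper71_AF_LP.lean`, store; 150-250 lines).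

Proof. As `AF-LP`. `β E[e2] = β s0 + (1/2) ∑ A x y g a b β E[x_a y_b] - (1/8) ∑ R x y h a b β E[x_a y_b] + ..= β s0 + (1/2) tr g · tr (C A) - (1/8) tr h · tr (C R) + ..`. `e1 = q + O(K f³)`, `q = ∑ B x y k a b x_a y_b`, `k` antisymmetric:
`β² E[q²] = ∑ B x y B z w k a b k c d (C x y C z w δ_ab δ_cd + C x z C y w δ_ac δ_bd + C x w C y z δ_ad δ_bc)`
`= |k|² (∑ B x y B z w C x z C y w - ∑ B x y B z w C x w C y z) = -2 |k|² tr (C B C B)`, `|k|² = ∑ k a b ^ 2` (`k a a = 0`, `∑ k a b k b a = -|k|²`; `∑ B x y B z w C x z C y w = tr (C B C Bᵀ) = - tr (C B C B)`,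
`∑ B x y B z w C x w C y z = tr (C B C B)`). `β E[q] → ∑ B x y k a b C x y δ_ab = 0`. -/
def S_LP : Prop := ∀ {Ω : Type} [MeasurableSpace Ω] (P : Measure Ω) [IsProbabilityMeasure P] {Λ : Type}
  [Fintype Λ] [DecidableEq Λ] {n : ℕ} (φ : Λ × Fin n → Ω → ℝ) (f e1 e2 : Ω → ℝ) (A B C R : Matrix Λ Λ ℝ)
  (k g h : Matrix (Fin n) (Fin n) ℝ) (s0 β K M p ε : ℝ),
  1 ≤ K → 1 ≤ β → 0 ≤ M → 0 ≤ p → 0 ≤ ε → ε ≤ 1 → (∀ i, Measurable (φ i)) → Measurable e1 → Measurable e2 →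
  Measurable f → (∀ i ω, |φ i ω| ≤ f ω) → (∀ ω, f ω ≤ K) → (Fintype.card Λ : ℝ) ≤ K → (n : ℝ) ≤ K →
  C.IsSymm → Bᵀ = -B → kᵀ = -k → (∀ i j, |k i j| ≤ K ∧ |g i j| ≤ K ∧ |h i j| ≤ K) →
  (∀ i j, |A i j| ≤ K ∧ |B i j| ≤ K ∧ |C i j| ≤ K ∧ |R i j| ≤ K) → P.real {ω | M < f ω} ≤ p →
  M + β * M ^ 3 + β ^ 2 * M ^ 5 + (1 + β + β ^ 2) * p ≤ ε →
  (∀ x y : Λ × Fin n, |β * ∫ ω, φ x ω * φ y ω ∂P - (if x.2 = y.2 then C x.1 y.1 else 0)| ≤ ε) →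
  (∀ x y z w : Λ × Fin n, |β ^ 2 * ∫ ω, φ x ω * φ y ω * φ z ω * φ w ω ∂P -
    ((if x.2 = y.2 then C x.1 y.1 else 0) * (if z.2 = w.2 then C z.1 w.1 else 0) +
     (if x.2 = z.2 then C x.1 z.1 else 0) * (if y.2 = w.2 then C y.1 w.1 else 0) +
     (if x.2 = w.2 then C x.1 w.1 else 0) * (if y.2 = z.2 then C y.1 z.1 else 0))| ≤ ε) →
  (∀ ω, |e1 ω - ∑ x, ∑ y, ∑ a, ∑ b, B x y * k a b * φ (x, a) ω * φ (y, b) ω| ≤ K * f ω ^ 3) →
  (∀ ω, |e2 ω - s0 - (1 / 2) * ∑ x, ∑ y, ∑ a, ∑ b, A x y * g a b * φ (x, a) ω * φ (y, b) ω +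
    (1 / 8) * ∑ x, ∑ y, ∑ a, ∑ b, R x y * h a b * φ (x, a) ω * φ (y, b) ω| ≤ K * f ω ^ 3) →
  |β * ∫ ω, e2 ω ∂P - β ^ 2 * (∫ ω, e1 ω ^ 2 ∂P - (∫ ω, e1 ω ∂P) ^ 2) -
    (β * s0 + (1 / 2) * g.trace * (C * A).trace + 2 * (∑ a, ∑ b, k a b ^ 2) * (C * B * C * B).trace -
      (1 / 8) * h.trace * (C * R).trace)| ≤ 1000 * K ^ 40 * ε

/-- **Task AG-FN** (final assembly; adapt `helper682_AF_FN.lean`, store; uses `S_GF`, `AF.S_ZD`, `S_LP`, `S_M3`, `S_E3`, `S_PB`, `S_EB`, `S_LIE`, `AF.S_HR`, `AF.S_AI`, `AF.S_L1`, `AF.S_L2`).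

Proof. As `AF-FN`, with `k a b = kp X (T a) (T b)`, `g a b = gp X (T a) (T b)`, `h a b = hp X (T a) (T b)`: `g.trace = kil X T` and `∑ k a b ^ 2 = (1/4) kil X T` (`kp X (T a) (T b) = (1/2) Re tr ([X, T a] T b) = -(1/2) ip [X, T a] (T b)`: antisymmetry and
cyclicity, and `[X, T a]` is in the Lie algebra, so `∑_b ip [X, T a] (T b)² = ‖[X, T a]‖²`). So the value is `β s0 + (1/2) kil (tr (C mC) + tr (C mB C mB)) - (1/8) h.trace tr (C mR)`, `s0 = ip X X L³ (L-1)`,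
`tr (C mC) + tr (C mB C mB) = LL L = -(11/(12π²)) L⁴ log L + O(L⁴)`. -/
def S_FN : Prop := ∀ {N : ℕ} {G : Subgroup (UU N)} [MeasurableSpace G] [BorelSpace G], IsClosed (G : Set (UU N)) →
  ∀ {n : ℕ} (T : Fin n → Mt N), Bas G T → ∀ X ∈ Lie G,
  ∃ (K₀ : ℕ) (C : ℝ), ∀ (μ : Measure G) [IsProbabilityMeasure μ] [μ.IsHaarMeasure] (L : ℕ), 2 ≤ L →
  ∀ β : ℝ, (L : ℝ) ^ K₀ ≤ β →
  |deriv (deriv fun θ => -Real.log (ZZ μ X L β θ)) 0 - ip X X * (L : ℝ) ^ 3 * (L - 1) * β +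
    11 / (24 * Real.pi ^ 2) * kil X T * ((L : ℝ) ^ 4 * Real.log L)| ≤ C * (L : ℝ) ^ 4

/-- `SU(N)` -/
def SUN (N : ℕ) : Subgroup (UU N) where
  carrier := {g | ((g : UU N) : Mt N).det = 1}
  mul_mem' {a b} ha hb := by
    change ((a : Mt N)).det = 1 at ha
    change ((b : Mt N)).det = 1 at hb
    change (((a * b : UU N)) : Mt N).det = 1
    rw [Submonoid.coe_mul, det_mul, ha, hb, one_mul]
  one_mem' := by simp
  inv_mem' {a} ha := by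
    change ((a : Mt N)).det = 1 at ha
    change (((a⁻¹ : UU N)) : Mt N).det = 1
    have h1 : ((a : Mt N) * ((a⁻¹ : UU N) : Mt N)).det = 1 := by
      rw [← Submonoid.coe_mul, mul_inv_cancel, Submonoid.coe_one, det_one]
    rw [det_mul, ha, one_mul] at h1
    exact h1

/-- **Task AG-SUN** (the Killing form of `SU(N)`; 150-220 lines; uses `S_LIE` where convenient).

Proof. `IsClosed`: the determinant is continuous. `Lie (SUN N) = {X | Xᴴ = -X, tr X = 0}` (`det (exp (t X)) = exp (t tr X)`; Mathlib: `Matrix.det_exp`; derivative at `0`). Completeness: for every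
antihermitian traceless `Y`, `∑_a ip (T a) Y • T a = Y`, so for every antihermitian `Y` the sum is `Y - (tr Y / N) 1` (`1` times `i` is orthogonal to the traceless ones), and for all complex `M`, `∑_a (trace ((T a)ᴴ * M)) • T a = M - (tr M / N) 1`
(write `M = Y + i Y'`), that is `∑_a star ((T a) j i) .. `: `∑_a (T a)_(ij) conj ((T a)_(kl)) = δ_ik δ_jl - δ_ij δ_kl / N`. Then `∑_a ‖[X, T a]‖² = ∑_a (‖X T‖² + ‖T X‖² - 2 Re tr ((X T)ᴴ T X))`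
`= 2 (N - 1/N) ‖X‖² - 2 Re ∑_a tr (Tᴴ Xᴴ T X)`, with `∑_a T X Tᴴ = N.. `: from the completeness relation `∑_a T Tᴴ = (N - 1/N) 1` and `∑_a Tᴴ Xᴴ T = (tr Xᴴ) 1 - Xᴴ/N = - Xᴴ / N`, so `-2 Re tr (-Xᴴ X / N) = (2/N) ‖X‖²`; total `2 N ‖X‖²`. -/
def S_SUN : Prop := ∀ N : ℕ, 1 ≤ N → IsClosed (SUN N : Set (UU N)) ∧
  ∀ {n : ℕ} (T : Fin n → Mt N), Bas (SUN N) T → ∀ X ∈ Lie (SUN N), kil X T = 2 * N * ip X X

end

end Pool.Agent.H586.AF.GG
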