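import Pool.Agent.H586.AF.D

/-!
# Project AF, part E: convergence of the renormalised coupling (the finite part)

Goal: with `β_L ≥ L ^ K₀` the difference `effectiveCoupling - (β - b log L)` converges as `L → ∞`.
-/

set_option autoImplicit false
set_option linter.unusedVariables false

open MeasureTheory Matrix Finset Filter Topology
open scoped Matrix.Norms.Frobenius

namespace Pool.Agent.H586.AF.EE

noncomputable section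

open Pool.Agent.H586.AF

/-- the derivative of the heat trace, `tr (A exp (-t A))` -/
def ce {n : ℕ} (A : Matrix (Fin n) (Fin n) ℝ) (t : ℝ) : ℝ := (A * hk A t).trace

/-! ### Scaling limits of the one dimensional functions

(`helper643_AF_C.lean`: explicit eigenvectors and eigenvalues of the four Laplacians;
`helper364_AF_A.lean`, `helper105_AF_B.lean`, `helper790_AF_N.lean`: the functions `aa`, `bb`, `nn`.) -/

/-- **Task AH-SC** (60-120 lines). `cc (lDD L) (L² t) = ∑_(n=1)^(L-1) exp (-L² t ek (πn/L))` (exact, `cc_lDD` etc. in `helper643_AF_C.lean`); each term converges to `exp (-π² n² t)` and is at most `exp (-4 n² t)` (`ek x ≥ 4x²/π²`): dominated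
convergence for series (`tendsto_tsum_of_dominated_convergence`). -/
def S_SC : Prop := ∀ t : ℝ, 0 < t →
  (∃ l, Tendsto (fun L : ℕ => cc (lDD L) ((L : ℝ) ^ 2 * t)) atTop (𝓝 l)) ∧
  (∃ l, Tendsto (fun L : ℕ => cc (lNN L) ((L : ℝ) ^ 2 * t)) atTop (𝓝 l)) ∧
  (∃ l, Tendsto (fun L : ℕ => cc (lDN L) ((L : ℝ) ^ 2 * t)) atTop (𝓝 l)) ∧
  (∃ l, Tendsto (fun L : ℕ => cc (lND L) ((L : ℝ) ^ 2 * t)) atTop (𝓝 l))

/-- **Task AH-SA** (150-220 lines). By `S_R` `hk (lDD L) t i j = r t (i-j) - r t (i+j+2)`, `hk (lNN L) t i j = r t (i-j) + r t (i+j+1)`, and `L r (L² t) z = (1/2) ∑_(|n| < L or n = L) exp (-L² t ek (πn/L)) cos (πnz/L)`, which is uniformly in `z` close to `q_t (z/L)`,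
`q_t ξ = (1/2) ∑_(n ∈ ℤ) exp (-π² n² t) cos (π n ξ)` (dominated by `exp (-4 n² t)`), `q_t` continuous. So `aa (L² t) (L² s)/L² = L⁻² ∑_(i,j) ((i-j)/L)² (L hk)(L hk)` is, up to `o(1)`, a Riemann sum of a continuous function on `[0,1]²`. (Or spectrally:
`aa = 2 tr (X² hk t hk s) - 2 tr (X hk t X hk s)`, `X = diag i`.) -/
def S_SA : Prop := ∀ t s : ℝ, 0 < t → 0 < s →
  (∃ l, Tendsto (fun L : ℕ => aa (lDD L) ((L : ℝ) ^ 2 * t) ((L : ℝ) ^ 2 * s) / (L : ℝ) ^ 2) atTop (𝓝 l)) ∧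
  (∃ l, Tendsto (fun L : ℕ => aa (lNN L) ((L : ℝ) ^ 2 * t) ((L : ℝ) ^ 2 * s) / (L : ℝ) ^ 2) atTop (𝓝 l))

/-- **Task AH-SB** (180-250 lines). Read `AH-SA`. `(km hk t) i j = hk t (i-1) j - hk t (i+1) j` (values outside of the range replaced by `0`). With `p_t = hk (L² t)`: `L² (p_t (i-1) j - p_t (i+1) j)` converges uniformly to the continuous function
`-2 ∂_ξ P_t(ξ, η)` (`L² (r (z+1) - r (z-1)) = -(1/1) ∑ L sin (πn/L) exp (..) sin (πnz/L)`, dominated by `C n exp (-4 n² t)`), except for `lNN` at the end points `i = 0, L-1`, where the value outside is `0`: there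
`(km p_t) i j = (K p_t) i j ∓ p_t i j`, as in the docstring of `S_B` in `A.lean`. So `L² bb = -L² tr (km p_t km p_s)` is a Riemann sum of a continuous function plus (for `lNN`) the end point terms
`L² ∑_j p_t e j (K p_s) j e` (Riemann sums in one variable of `P_t(e, η) · 2 ∂P_s(η, e)`) and `L² p_t e e' p_s e' e` (convergent). -/
def S_SB : Prop := ∀ t s : ℝ, 0 < t → 0 < s →
  (∃ l, Tendsto (fun L : ℕ => (L : ℝ) ^ 2 * bb (lDD L) ((L : ℝ) ^ 2 * t) ((L : ℝ) ^ 2 * s)) atTop (𝓝 l)) ∧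
  (∃ l, Tendsto (fun L : ℕ => (L : ℝ) ^ 2 * bb (lNN L) ((L : ℝ) ^ 2 * t) ((L : ℝ) ^ 2 * s)) atTop (𝓝 l))

/-- **Task AH-SN** (120-180 lines). Read `AH-SA`. `nn L (L² t) (L² s) = ∑_(j,j' < L) p_t(j, j') (Sr (j-j') - Sr (j+j'+1))`, `Sr z = r (z+1) + 2 r z + r (z-1)` at the time `L² s`: `L Sr` converges uniformly to `4 q_s`, so it is a Riemann sum of a continuous function
on `[0,1]²`. -/
def S_SN : Prop := ∀ t s : ℝ, 0 < t → 0 < s →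
  ∃ l, Tendsto (fun L : ℕ => nn L ((L : ℝ) ^ 2 * t) ((L : ℝ) ^ 2 * s)) atTop (𝓝 l)

/-! ### Integrals -/

/-- the hypotheses on the four functions of the magnetic part -/
structure HI (C0 : ℝ) (L : ℕ) (a b : ℝ → ℝ → ℝ) (c d : ℝ → ℝ) : Prop where
  ca : Continuous (Function.uncurry a)
  cb : Continuous (Function.uncurry b)
  tr : Tr2 C0 L c d
  ha : ∀ t s, 0 ≤ t → 0 ≤ s → |a t s - L * (t * s * ww (t + s))| ≤ C0 * Real.sqrt (t * s)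
  la : ∀ t s, 0 ≤ t → 0 ≤ s → (L : ℝ) ^ 2 ≤ t + s → |a t s| ≤ C0 * (L : ℝ) ^ 2
  hb : ∀ t s, 0 ≤ t → 0 ≤ s → |b t s - L * ww (t + s)| ≤
    C0 * (1 / Real.sqrt (1 + t) + 1 / L) * (1 / Real.sqrt (1 + s) + 1 / L)

/-- the hypotheses on the four functions of the spin part -/
structure HJ (C0 : ℝ) (L : ℕ) (n1 n2 : ℝ → ℝ → ℝ) (c d : ℝ → ℝ) : Prop where
  c1 : Continuous (Function.uncurry n1)
  c2 : Continuous (Function.uncurry n2)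
  tr : Tr2 C0 L c d
  h1 : ∀ t s, 0 ≤ t → 0 ≤ s → |n1 t s - L * gg (t + s)| ≤ C0
  h2 : ∀ t s, 0 ≤ t → 0 ≤ s → |n2 t s - L * gg (t + s)| ≤ C0

/-- **Task AH-IN** (near region, magnetic part; adapt `helper245_AF_I.lean`; uses `S_H`).

Proof. As `S_I` in `A.lean`, in the region `t + s ≤ R`, `R = ε L² ≤ L²`: the three errors are at most `C L³ ∫_0^R τ (1+τ)^(-3/2)`, `C L³ ∫_0^R τ² (1+τ)^(-5/2)`, `C L³ ∫_0^R τ³ (1+τ)^(-7/2)`, each `≤ C L³ ∫_0^R τ^(-1/2) = 2 C L³ √R = 2 C √ε L⁴`; the main term is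
`(1/2) L⁴ ∫_0^R (τ³/6) ww² hh²`. -/
def S_IN : Prop := ∀ C0 : ℝ, 1 ≤ C0 → ∃ C : ℝ, ∀ L : ℕ, 2 ≤ L → ∀ (a b : ℝ → ℝ → ℝ) (c d : ℝ → ℝ),
  HI C0 L a b c d → ∀ ε : ℝ, 0 < ε → ε ≤ 1 →
  |(1 / 2) * (∫ t in Set.Ioi (0 : ℝ), ∫ s in Set.Ioi (0 : ℝ),
    if t + s ≤ ε * (L : ℝ) ^ 2 then a t s * b t s * c (t + s) * d (t + s) else 0) -
    (L : ℝ) ^ 4 * ((1 / 2) * ∫ τ in (0 : ℝ)..(ε * (L : ℝ) ^ 2), τ ^ 3 / 6 * ww τ ^ 2 * hh τ ^ 2)| ≤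
    C * Real.sqrt ε * (L : ℝ) ^ 4

/-- **Task AH-IF** (far region, magnetic part; dominated convergence; 150-220 lines; uses `S_H`).

Proof. Substitute `t = L² t'`, `s = L² s'`: the quantity is `∫∫_(t'+s' > ε) (a/L²)(L² b) c d dt' ds'` at the scaled arguments (`dt ds = L⁴ dt' ds'`). It converges pointwise by the hypotheses. Domination on `t' + s' > ε` with constants depending on `ε`, `C0`, uniform in `L ≥ 2`: `|c| ≤ C_ε`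
(for `L² τ' ≤ L²`: `|c| ≤ L hh + C0`, `hh τ ≤ C/√(1+τ)`), `|d| ≤ C_ε exp (-τ'/2)`, `|a| ≤ C_ε L²` (`L ts ww + C0 √(ts)` for `τ' ≤ 1`), `L² |b| ≤ L² (L ww (L² τ') + C0 (1/√(1+L²t') + 1/L)(1/√(1+L²s') + 1/L)) ≤ C_ε (1 + (1 + 1/√t')(1 + 1/√s'))`; the
product with `exp (-(t'+s')/2)` is integrable. -/
def S_IF : Prop := ∀ C0 : ℝ, 1 ≤ C0 → ∀ (a b : ℕ → ℝ → ℝ → ℝ) (c d : ℕ → ℝ → ℝ),
  (∀ L : ℕ, 2 ≤ L → HI C0 L (a L) (b L) (c L) (d L)) →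
  (∀ t s : ℝ, 0 < t → 0 < s → (∃ l, Tendsto (fun L : ℕ => a L ((L : ℝ) ^ 2 * t) ((L : ℝ) ^ 2 * s) / (L : ℝ) ^ 2) atTop (𝓝 l)) ∧
    ∃ l, Tendsto (fun L : ℕ => (L : ℝ) ^ 2 * b L ((L : ℝ) ^ 2 * t) ((L : ℝ) ^ 2 * s)) atTop (𝓝 l)) →
  (∀ t : ℝ, 0 < t → (∃ l, Tendsto (fun L : ℕ => c L ((L : ℝ) ^ 2 * t)) atTop (𝓝 l)) ∧
    ∃ l, Tendsto (fun L : ℕ => d L ((L : ℝ) ^ 2 * t)) atTop (𝓝 l)) →
  ∀ ε : ℝ, 0 < ε → ∃ l, Tendsto (fun L : ℕ => (∫ t in Set.Ioi (0 : ℝ), ∫ s in Set.Ioi (0 : ℝ),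
    if t + s ≤ ε * (L : ℝ) ^ 2 then 0 else a L t s * b L t s * c L (t + s) * d L (t + s)) / (L : ℝ) ^ 4) atTop (𝓝 l)

/-- **Task AH-JN** (near region, spin part; adapt `helper230_AF_J.lean`; uses `S_H`).

Proof. As `AH-IN`: all four factors are `≤ C L/√(1+τ)` for `τ ≤ L²`, the errors are `≤ ∫_0^R τ C L³ (1+τ)^(-3/2) ≤ 2 C L³ √R`. -/
def S_JN : Prop := ∀ C0 : ℝ, 1 ≤ C0 → ∃ C : ℝ, ∀ L : ℕ, 2 ≤ L → ∀ (n1 n2 : ℝ → ℝ → ℝ) (c d : ℝ → ℝ),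
  HJ C0 L n1 n2 c d → ∀ ε : ℝ, 0 < ε → ε ≤ 1 →
  |(∫ t in Set.Ioi (0 : ℝ), ∫ s in Set.Ioi (0 : ℝ),
    if t + s ≤ ε * (L : ℝ) ^ 2 then n1 t s * n2 t s * c (t + s) * d (t + s) else 0) -
    (L : ℝ) ^ 4 * ∫ τ in (0 : ℝ)..(ε * (L : ℝ) ^ 2), τ * gg τ ^ 2 * hh τ ^ 2| ≤
    C * Real.sqrt ε * (L : ℝ) ^ 4

/-- **Task AH-JF** (far region, spin part; dominated convergence; 120-180 lines; uses `S_H`).

Proof. As `AH-IF`: `|n1|, |n2| ≤ L gg + C0 ≤ C_ε` for `τ' > ε`, `|c| ≤ C_ε`, `|d| ≤ C_ε exp (-τ'/2)`. -/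
def S_JF : Prop := ∀ C0 : ℝ, 1 ≤ C0 → ∀ (n1 n2 : ℕ → ℝ → ℝ → ℝ) (c d : ℕ → ℝ → ℝ),
  (∀ L : ℕ, 2 ≤ L → HJ C0 L (n1 L) (n2 L) (c L) (d L)) →
  (∀ t s : ℝ, 0 < t → 0 < s → (∃ l, Tendsto (fun L : ℕ => n1 L ((L : ℝ) ^ 2 * t) ((L : ℝ) ^ 2 * s)) atTop (𝓝 l)) ∧
    ∃ l, Tendsto (fun L : ℕ => n2 L ((L : ℝ) ^ 2 * t) ((L : ℝ) ^ 2 * s)) atTop (𝓝 l)) →
  (∀ t : ℝ, 0 < t → (∃ l, Tendsto (fun L : ℕ => c L ((L : ℝ) ^ 2 * t)) atTop (𝓝 l)) ∧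
    ∃ l, Tendsto (fun L : ℕ => d L ((L : ℝ) ^ 2 * t)) atTop (𝓝 l)) →
  ∀ ε : ℝ, 0 < ε → ∃ l, Tendsto (fun L : ℕ => (∫ t in Set.Ioi (0 : ℝ), ∫ s in Set.Ioi (0 : ℝ),
    if t + s ≤ ε * (L : ℝ) ^ 2 then 0 else n1 L t s * n2 L t s * c L (t + s) * d L (t + s)) / (L : ℝ) ^ 4) atTop (𝓝 l)

/-- **Task AH-LG** (the logarithm and the limit; 100-160 lines; uses `S_H`).

Proof. (1), (2): by `S_H` for `τ ≥ 1` the integrand minus `(1/(24π²))/τ`, resp. `(1/π²)/τ`, is `O(τ^(-2))`, hence integrable at infinity; on `[0, 1]` it is bounded. (3): for every `ε` the sequence `u L - κ log L` is the sum of `N L ε - (1/2)..`: precisely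
`u L - κ log L = (u L - F L ε - Φ(ε L²)) + (Φ(ε L²) - (κ/2) log (ε L²)) + (κ/2) log ε + F L ε`, the first bracket is at most `C √ε`, the second one and `F L ε` converge as `L → ∞`; so the sequence is Cauchy (for given `δ` choose `ε` with `C √ε < δ/4`). -/
def S_LG : Prop :=
  (∃ l, Tendsto (fun R : ℝ => (∫ τ in (0 : ℝ)..R, τ ^ 3 / 6 * ww τ ^ 2 * hh τ ^ 2) - 1 / (24 * Real.pi ^ 2) * Real.log R)
    atTop (𝓝 l)) ∧
  (∃ l, Tendsto (fun R : ℝ => (∫ τ in (0 : ℝ)..R, τ * gg τ ^ 2 * hh τ ^ 2) - 1 / Real.pi ^ 2 * Real.log R)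
    atTop (𝓝 l)) ∧
  ∀ (u : ℕ → ℝ) (F : ℕ → ℝ → ℝ) (Φ : ℝ → ℝ) (κ C : ℝ), (∃ l, Tendsto (fun R : ℝ => Φ R - κ / 2 * Real.log R) atTop (𝓝 l)) →
    (∀ ε, 0 < ε → ∃ l, Tendsto (fun L => F L ε) atTop (𝓝 l)) →
    (∀ L : ℕ, 2 ≤ L → ∀ ε, 0 < ε → ε ≤ 1 → |u L - F L ε - Φ (ε * (L : ℝ) ^ 2)| ≤ C * Real.sqrt ε) →
    ∃ l, Tendsto (fun L : ℕ => u L - κ * Real.log L) atTop (𝓝 l)

/-- **Task AH-K2** (60-100 lines; uses `S_H`).

Proof. Dominated convergence (after division by `L⁴`): for fixed `t`, `c t / L → hh t`; for `t ≤ L²` all factors are `≤ C L/√(1+t)`, so the integrand over `L⁴` is `≤ C/(1+t)²`; for `t ≥ L²` it is `≤ C exp (-t/(2L²))/L⁴`, with the integral `≤ C/L²`. -/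
def S_K2 : Prop := ∀ C0 : ℝ, 1 ≤ C0 → ∀ (c1 c2 c d : ℕ → ℝ → ℝ),
  (∀ L : ℕ, 2 ≤ L → Tr2 C0 L (c1 L) (d L) ∧ Tr2 C0 L (c2 L) (d L) ∧ Tr2 C0 L (c L) (d L)) →
  Tendsto (fun L : ℕ => (∫ t in Set.Ioi (0 : ℝ), c1 L t * c2 L t * c L t * d L t) / (L : ℝ) ^ 4) atTop
    (𝓝 (∫ t in Set.Ioi (0 : ℝ), hh t ^ 4))

/-- **Task AH-R1** (the neutral part, algebra; 150-220 lines; uses `S_G1`, `S_G2`, `S_LM` and the ideas of `helper252_AF_L1.lean`, `helper553_AF_LA.lean`, `helper307_AF_T.lean`).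

Proof. At `θ = 0` everything is real. Let `M = mF L 0 = fromBlocks (mH L 0) 0 0 (m44 L 0)`, `V = gV L 0`, `U = g4 L`, `Δ = lap L 0`, `cx (mA L) = mH L 0 - V Vᴴ`. `mR` is the matrix of `∑_p c12(p)²`: with `c = (k4 1 e 1 1 | -..)` the curl: on the components 1 and 2, `c12 f` at the plaquette `(x, y)` is
`f_1 (x, y) - f_1 (x, y+1) + f_2 (x+1, y) - f_2 (x, y) = -(1 ⊗ dm) f_1 + (dm ⊗ 1) f_2`, so the blocks of `mR` are `R₁₁ = k4 1 lDD 1 1`, `R₂₂ = k4 lDD 1 1 1` and `R₁₂ = -k4 dm dmᵀ 1 1`-like, `0` in the component 3; and `mR (real V) = 0` (curl of a gradient). With `J = fromBlocks 1 V 0 U`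
(as in `AF-LA`) `Jᴴ M J = fromBlocks (mA + V Vᴴ) (V Δ) (Δ Vᴴ) (Δ²)`, `Jᴴ (mR ⊕ 0) J = mR ⊕ 0`, so `tr (M⁻¹ (mR ⊕ 0)) = tr ((Jᴴ M J)⁻¹ (mR ⊕ 0)) = tr (mA⁻¹ mR)` (the first block of the inverse is the inverse of the Schur complement `mA`). As `mH L 0` is block diagonal
(`m12 L 0 = 0`), `tr (mA⁻¹ mR) = tr ((ks lNN lDD lDD lDN)⁻¹ (k4 1 lDD 1 1)) + tr ((ks lDD lNN lDD lDN)⁻¹ (k4 lDD 1 1 1))`, and by the heat kernel formula (`G = ∫ exp (-tM)`, as in `S_T`) each is `∫ cc (lNN L) t * ce (lDD L) t * cc (lDD L) t * cc (lDN L) t`. -/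
def S_R1 : Prop := ∀ L : ℕ, 2 ≤ L → ((mA L)⁻¹ * mR L).trace =
  2 * ∫ t in Set.Ioi (0 : ℝ), cc (lNN L) t * ce (lDD L) t * cc (lDD L) t * cc (lDN L) t

/-- **Task AH-R2** (the neutral part, analysis; 120-180 lines; uses `S_C`, `S_CT`, `S_H`, `S_R1`).

Proof. `ce (lDD L) t = ∑_(n=1)^(L-1) λ_n exp (-t λ_n)`, `λ_n = ek (πn/L)` (eigenvalues: `helper643_AF_C.lean`), `0 ≤ ce ≤ (C/(1+t)) cc (lDD L) (t/2)`, and `ce (lDD L) t / L → H t := (1/π) ∫_0^π ek k exp (-t ek k) dk = -hh' t` for fixed `t` (Riemann sum of a function of bounded variation). By dominated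
convergence (`t ≤ L²`: the integrand over `L⁴` is at most `C/(1+t)^3`; `t ≥ L²`: `≤ C exp (-t/(2L²))/L⁴`) `tr (mA⁻¹ mR)/L⁴ → 2 ∫ hh³ (-hh') = (1/2) hh(0)⁴ = 1/2` (`hh → 0` at infinity, `hh 0 = 1`). -/
def S_R2 : Prop := Tendsto (fun L : ℕ => ((mA L)⁻¹ * mR L).trace / (L : ℝ) ^ 4) atTop (𝓝 (1 / 2))

/-- **Task AH-L3** (assembly; 150-220 lines; uses `S_IN`, `S_IF`, `S_JN`, `S_JF`, `S_LG`, `S_K2`, `S_SC`, `S_SA`, `S_SB`, `S_SN` and `AF.S_A`, `S_B`, `S_C`, `S_N`, `S_CT`, as in `helper179_AF_L2.lean`).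

Proof. For each `RI A1 A2 A3 A4` of `LL L`: `HI` holds for `a = aa A1`, `b = bb A2`, `c = cc A3`, `d = cc A4` (`S_A`, `S_B`, `S_C`, `S_CT`, as in the proof of `S_L2`), the integral is the sum of the near and the far part (integrability of the integrand: it is continuous and bounded by an
integrable function; or use that the far part is integrable by domination and the near one is bounded with bounded support), and (3) of `S_LG` with `u L = RI/L⁴`, `F` the far part times `1/2`, `Φ R = (1/2) ∫_0^R (τ³/6) ww² hh²`, `κ = 1/(24π²)`. `BU L`: `S_JN`, `S_JF`, `κ = 2/π²`,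
`Φ R = ∫_0^R τ gg² hh²`. The two traces: `S_K2`. Sum: `(4 - 2)/(24π²) - (1/2)(2/π²) = -11/(12π²)`. -/
def S_L3 : Prop := ∃ c : ℝ, Tendsto (fun L : ℕ => LL L / (L : ℝ) ^ 4 + 11 / (12 * Real.pi ^ 2) * Real.log L) atTop (𝓝 c)

/-- **Task AH-F2** (refined final estimate; adapt `helper51_AG_FN.lean` (store); same hypotheses except `AF.S_L2`; 120-200 lines).

Proof. As `AG-FN`, but keep the terms `(1/2) kil LL L` and `(1/8) tr h tr (mA⁻¹ mR)`, and choose `K₀` so large that the error `1000 K^40 ε ≤ 1` for `β ≥ L^K₀`. -/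
def S_F2 : Prop := ∀ {N : ℕ} {G : Subgroup (GG.UU N)} [MeasurableSpace G] [BorelSpace G], IsClosed (G : Set (GG.UU N)) →
  ∀ {n : ℕ} (T : Fin n → GG.Mt N), GG.Bas G T → ∀ X ∈ GG.Lie G,
  ∃ K₀ : ℕ, ∀ (μ : Measure G) [IsProbabilityMeasure μ] [μ.IsHaarMeasure] (L : ℕ), 2 ≤ L →
  ∀ β : ℝ, (L : ℝ) ^ K₀ ≤ β →
  |deriv (deriv fun θ => -Real.log (GG.ZZ μ X L β θ)) 0 - (GG.ip X X * (L : ℝ) ^ 3 * (L - 1) * β +
    (1 / 2) * GG.kil X T * LL L - (1 / 8) * (∑ a, GG.hp X (T a) (T a)) * ((mA L)⁻¹ * mR L).trace)| ≤ 1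

end

end Pool.Agent.H586.AF.EE
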