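import Pool.Agent.H586.AF.D

/-!
# Project AF, part E2: the anticommutator form of `SU(N)`
-/

set_option autoImplicit false

open Matrix
open scoped Matrix.Norms.Frobenius

namespace Pool.Agent.H586.AF.EE

open Pool.Agent.H586.AF

/-- **Task AH-SUA** (adapt `helper778_AG_SUN.lean`, store: the same completeness relations).

Proof. `∑_a ‖X T + T X‖² = ∑_a (‖X T‖² + ‖T X‖² + 2 Re tr ((X T)ᴴ T X)) = 2 (N - 1/N) ‖X‖² - (2/N) ‖X‖²` (in the computation of the Killing form the mixed term was `-2 Re (..) = (2/N) ‖X‖²`). -/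
def S_SUA : Prop := ∀ N : ℕ, 1 ≤ N → ∀ {n : ℕ} (T : Fin n → GG.Mt N), GG.Bas (GG.SUN N) T → ∀ X ∈ GG.Lie (GG.SUN N),
  ∑ a, GG.hp X (T a) (T a) = 2 * (N - 2 / N) * GG.ip X X

end Pool.Agent.H586.AF.EE
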