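import Pool.Agent.H105.AF.B
import Pool.Agent.H117.AF.H
import Pool.Agent.H120.AF.EX
import Pool.Agent.H136.AF.ZD
import Pool.Agent.H138.AF.Q23
import Pool.Agent.H16.AF.HR
import Pool.Agent.H161.AF.P
import Pool.Agent.H169.AF.G2
import Pool.Agent.H17.AF.PD
import Pool.Agent.H179.AF.L2
import Pool.Agent.H181.AF.EB
import Pool.Agent.H190.AF.TL
import Pool.Agent.H200.AF.DE
import Pool.Agent.H23.AF.V
import Pool.Agent.H230.AF.J
import Pool.Agent.H245.AF.I
import Pool.Agent.H252.AF.L1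
import Pool.Agent.H286.AF.K
import Pool.Agent.H297.AF.GF
import Pool.Agent.H307.AF.T
import Pool.Agent.H308.AF.P23
import Pool.Agent.H364.AF.A
import Pool.Agent.H404.AF.LD
import Pool.Agent.H51.AF.M3
import Pool.Agent.H539.AF.Q22
import Pool.Agent.H553.AF.LA
import Pool.Agent.H56.AF.HB
import Pool.Agent.H588.AF.LC
import Pool.Agent.H628.AF.G1
import Pool.Agent.H632.AF.LM
import Pool.Agent.H640.AF.Q12
import Pool.Agent.H643.AF.C
import Pool.Agent.H658.AF.DP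
import Pool.Agent.H663.AF.D
import Pool.Agent.H664.AF.MO
import Pool.Agent.H682.AF.FN
import Pool.Agent.H696.AF.PB
import Pool.Agent.H71.AF.LP
import Pool.Agent.H710.AF.Q13
import Pool.Agent.H722.AF.R
import Pool.Agent.H740.AF.P12
import Pool.Agent.H763.AF.E3
import Pool.Agent.H790.AF.N
import Pool.Agent.H808.AF.AI
import Pool.Agent.H86.AF.Q11
import Pool.Agent.H862.AF.SD2
import Pool.Agent.H947.AF.Q33
import Pool.Agent.H962.AF.QF
import Pool.Agent.H976.AF.CT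
import Pool.Agent.H586.AF.Cor

/-!
# Project AF: assembly
-/

set_option autoImplicit false

namespace Pool.Agent.H586.AF

theorem aR : S_R := Pool.Agent.H722.AF.tr
theorem aP : S_P := Pool.Agent.H161.AF.tp
theorem aV : S_V := Pool.Agent.H23.AF.tv
theorem aD : S_D := Pool.Agent.H663.AF.td
theorem aC : S_C := Pool.Agent.H643.AF.tc
theorem aA : S_A := Pool.Agent.H364.AF.ta aR aP aV
theorem aB : S_B := Pool.Agent.H105.AF.tb aR aP aV aD
theorem aN : S_N := Pool.Agent.H790.AF.tn aR aP aV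
theorem aH : S_H := Pool.Agent.H117.AF.th
theorem aI : S_I := Pool.Agent.H245.AF.ti aH
theorem aJ : S_J := Pool.Agent.H230.AF.tj aH
theorem aK : S_K := Pool.Agent.H286.AF.tk aH
theorem aPD : S_PD := Pool.Agent.H17.AF.tpd
theorem aT : S_T := Pool.Agent.H307.AF.tt
theorem aCT : S_CT := Pool.Agent.H976.AF.tct
theorem aLA : S_LA := Pool.Agent.H553.AF.tla
theorem aLD : S_LD := Pool.Agent.H404.AF.tld
theorem aLC : S_LC := Pool.Agent.H588.AF.tlc aT
theorem aG1 : S_G1 := Pool.Agent.H628.AF.tg1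
theorem aG2 : S_G2 := Pool.Agent.H169.AF.tg2
theorem aLM : S_LM := Pool.Agent.H632.AF.tlm aPD
theorem aHR : S_HR := Pool.Agent.H16.AF.thr aG1
theorem aQF : S_QF := Pool.Agent.H962.AF.tqf Pool.Agent.H86.AF.tq11 Pool.Agent.H539.AF.tq22
  Pool.Agent.H947.AF.tq33 Pool.Agent.H640.AF.tq12 Pool.Agent.H710.AF.tq13 Pool.Agent.H138.AF.tq23
theorem aAI : S_AI := Pool.Agent.H808.AF.tai aQF aHR
theorem aL1 : S_L1 := Pool.Agent.H252.AF.tl1 aLA aLD aG1 aG2 aLM aLC aT aPD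
theorem aL2 : S_L2 := Pool.Agent.H179.AF.tl2 aI aJ aK aA aB aC aN aCT
theorem aEX : S_EX := Pool.Agent.H120.AF.tex Pool.Agent.H740.AF.tp12 Pool.Agent.H308.AF.tp23
theorem aE3 : S_E3 := Pool.Agent.H763.AF.te3 aEX aQF aHR aAI aLM
theorem aEB : S_EB := Pool.Agent.H181.AF.teb
theorem aPB : S_PB := Pool.Agent.H696.AF.tpb aEB
theorem aTL : S_TL := Pool.Agent.H190.AF.ttl Pool.Agent.H56.AF.thb aEB
theorem aDE : S_DE := Pool.Agent.H200.AF.tde aQF aHR
theorem aM3 : S_M3 := Pool.Agent.H51.AF.tm3 Pool.Agent.H862.AF.tsd2 Pool.Agent.H658.AF.tdp aDE aEB aAI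
  aTL aPB Pool.Agent.H664.AF.tmo
theorem final : S_FN := Pool.Agent.H682.AF.tfn Pool.Agent.H297.AF.tgf Pool.Agent.H136.AF.tzd
  Pool.Agent.H71.AF.tlp aM3 aE3 aPB aEB aHR aAI aL1 aL2

end Pool.Agent.H586.AF
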