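import Pool.Agent.H10.AG.M3
import Pool.Agent.H120.AG.GF
import Pool.Agent.H28.AG.EB
import Pool.Agent.H30.AG.HB
import Pool.Agent.H323.AG.PB
import Pool.Agent.H375.AG.SP
import Pool.Agent.H50.AG.TL
import Pool.Agent.H51.AG.FN
import Pool.Agent.H593.AG.E3
import Pool.Agent.H600.AG.P12
import Pool.Agent.H62.AG.EX
import Pool.Agent.H663.AG.SD
import Pool.Agent.H737.AG.LP
import Pool.Agent.H738.AG.LIE
import Pool.Agent.H778.AG.SUN
import Pool.Agent.H81.AG.DE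
import Pool.Agent.H987.AG.P23
import Pool.Agent.H586.AF.CorG
import Pool.Agent.H586.AF.Fin

/-!
# Project AF: assembly, every closed subgroup of `U(N)`
-/

set_option autoImplicit false

namespace Pool.Agent.H586.AF.GG

theorem aLIE : S_LIE := Pool.Agent.H738.AG.tlie
theorem aGF : S_GF := Pool.Agent.H120.AG.tgf
theorem aEB : S_EB := Pool.Agent.H28.AG.teb
theorem aPB : S_PB := Pool.Agent.H323.AG.tpb aEB
theorem aTL : S_TL := Pool.Agent.H50.AG.ttl Pool.Agent.H30.AG.thb aEB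
theorem aP12 : S_P12 := Pool.Agent.H600.AG.tp12
theorem aP23 : S_P23 := Pool.Agent.H987.AG.tp23
theorem aEX : S_EX := Pool.Agent.H62.AG.tex aP12 aP23
theorem aSP : S_SP := Pool.Agent.H375.AG.tsp AF.aLM
theorem aE3 : S_E3 := Pool.Agent.H593.AG.te3 aEX aSP aLIE AF.aAI AF.aQF AF.aHR
theorem aM3 : S_M3 := Pool.Agent.H10.AG.tm3 Pool.Agent.H664.AF.tmo AF.aHR AF.aAI AF.aQF
  Pool.Agent.H663.AG.tsd Pool.Agent.H81.AG.tde aEB aTL aPB aLIE
theorem aSUN : S_SUN := Pool.Agent.H778.AG.tsun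
theorem final : S_FN := Pool.Agent.H51.AG.tfn aGF Pool.Agent.H136.AF.tzd Pool.Agent.H737.AG.tlp aM3 aE3
  aPB aEB aLIE AF.aHR AF.aAI AF.aL1 AF.aL2

end Pool.Agent.H586.AF.GG
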