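import Pool.Agent.H586.AF.CorH
import Pool.Agent.H586.AF.E2
import Pool.Agent.H586.AF.FinG
import Pool.Agent.H401.AH.SC
import Pool.Agent.H880.AH.SA
import Pool.Agent.H840.AH.SB
import Pool.Agent.H813.AH.SN
import Pool.Agent.H87.AH.IN
import Pool.Agent.H231.AH.IF
import Pool.Agent.H42.AH.JN
import Pool.Agent.H971.AH.JF
import Pool.Agent.H538.AH.LG
import Pool.Agent.H340.AH.K2
import Pool.Agent.H263.AH.R1
import Pool.Agent.H351.AH.R2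
import Pool.Agent.H346.AH.L3
import Pool.Agent.H887.AH.F2
import Pool.Agent.H873.AH.SUA

/-!
# Project AF: convergence of the renormalised coupling, assembly
-/

set_option autoImplicit false

open MeasureTheory

namespace Pool.Agent.H586.AF.EE

noncomputable section

open Pool.Agent.H586.AF

theorem aSC : S_SC := Pool.Agent.H401.AH.tsc
theorem aSA : S_SA := Pool.Agent.H880.AH.tsa AF.aR
theorem aSB : S_SB := Pool.Agent.H840.AH.tsb AF.aR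
theorem aSN : S_SN := Pool.Agent.H813.AH.tsn AF.aR
theorem aIN : S_IN := Pool.Agent.H87.AH.tin AF.aH
theorem aIF : S_IF := Pool.Agent.H231.AH.tif AF.aH
theorem aJN : S_JN := Pool.Agent.H42.AH.tjn AF.aH
theorem aJF : S_JF := Pool.Agent.H971.AH.tjf AF.aH
theorem aLG : S_LG := Pool.Agent.H538.AH.tlg AF.aH
theorem aK2 : S_K2 := Pool.Agent.H340.AH.tk2 AF.aH
theorem aR1 : S_R1 := Pool.Agent.H263.AH.tr1 AF.aPD AF.aAI
theorem aR2 : S_R2 := Pool.Agent.H351.AH.tr2 AF.aC AF.aH aR1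
theorem aL3 : S_L3 :=
  Pool.Agent.H346.AH.tl3 aIN aIF aJN aJF aLG aK2 aSC aSA aSB aSN AF.aH AF.aA AF.aB AF.aC AF.aN AF.aCT
theorem aF2 : S_F2 :=
  Pool.Agent.H887.AH.tf2 GG.aGF Pool.Agent.H136.AF.tzd Pool.Agent.H737.AG.tlp GG.aM3 GG.aE3
    GG.aPB GG.aEB GG.aLIE AF.aHR AF.aAI AF.aL1
theorem aSUA : S_SUA := Pool.Agent.H873.AH.tsua

theorem finalH : ∃ c : ℝ, ∀ {N : ℕ} {G : Subgroup (GG.UU N)}
    [MeasurableSpace G] [BorelSpace G], IsClosed (G : Set (GG.UU N)) → ∀ {n : ℕ} (T : Fin n → GG.Mt N),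
    GG.Bas G T → ∀ X ∈ GG.Lie G, X ≠ 0 → ∃ K : ℕ, ∀ ε : ℝ, 0 < ε → ∃ L0 : ℕ,
    ∀ (μ : MeasureTheory.Measure G) [MeasureTheory.IsProbabilityMeasure μ] [μ.IsHaarMeasure] (L : ℕ), 2 ≤ L → L0 ≤ L →
    ∀ β : ℝ, (L : ℝ) ^ K ≤ β →
    |deriv (deriv fun θ => -Real.log (GG.ZZ μ X L β θ)) 0 / (GG.ip X X * (L : ℝ) ^ 3 * (L - 1)) -
      (β - 11 / (24 * Real.pi ^ 2) * (GG.kil X T / GG.ip X X) * Real.log L) -
      (c * GG.kil X T - (1 / 16) * ∑ a, GG.hp X (T a) (T a)) / GG.ip X X| ≤ ε := finH aL3 aR2 aF2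

end

end Pool.Agent.H586.AF.EE
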